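import Pool.Agent.H.MP_2d605f_pr.Marginal

/-! Flow schemes: one walker per box, boxes linked by a stochastic matrix. Definitions. -/

open Finset

namespace Pool.Agent.H.MP_2d605f_pr

section
variable {V I : Type} [Fintype V] [DecidableEq V] [Fintype I] [DecidableEq I]

/-- Box of walker `j` when the base is the tuple of all boxes. -/
def ev {I : Type} {k : ℕ} (j : Fin k) (p : Fin k → I) : I := p j

/-- Box kernel of a single simple random walk (no loops). -/
noncomputable def R1 (box : V → I) (B C : I) : ℝ :=
  ((sz box C : ℝ) - if B = C then 1 else 0) / ((Fintype.card V : ℝ) - 1)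

/-- The product of the linking matrix and the box kernel. -/
noncomputable def LR (box : V → I) (L : I → I → ℝ) (B A : I) : ℝ := ∑ D, L B D * R1 box D A

/-- Box kernel of a walker in box `B` when the previous walker has just moved to box `A`. -/
noncomputable def KK (box : V → I) (L : I → I → ℝ) (A B C : I) : ℝ :=
  if LR box L B A = 0 then (if C = B then 1 else 0) else R1 box B C * L C A / LR box L B A

/-- Round kernel on the tuples of boxes. -/
noncomputable def RR (box : V → I) (L : I → I → ℝ) {k : ℕ} (p q : Fin (k + 1) → I) : ℝ :=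
  R1 box (p 0) (q 0) * ∏ j : Fin k, KK box L (q j.castSucc) (p j.succ) (q j.succ)

/-- Chain weight of the boxes below walker `i`. -/
noncomputable def CC (L : I → I → ℝ) {k : ℕ} (i : Fin (k + 1)) (p : Fin (k + 1) → I) : ℝ :=
  ∏ j : Fin k, if j.castSucc < i then L (p j.succ) (p j.castSucc) else 1

/-- The tuples that occur. -/
def Sup (L : I → I → ℝ) {k : ℕ} (p : Fin (k + 1) → I) : Prop :=
  ∀ j : Fin k, L (p j.succ) (p j.castSucc) ≠ 0

/-- The weight `w` does not depend on the coordinates below `i`. -/
def Ind {I : Type} {k : ℕ} (i : Fin k) (w : (Fin k → I) → ℝ) : Prop :=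
  ∀ p p' : Fin k → I, (∀ j, i ≤ j → p j = p' j) → w p = w p'

/-- Boxes of size at least two and a stochastic linking matrix which preserves the sizes. -/
structure Flow (box : V → I) (L : I → I → ℝ) : Prop where
  two : ∀ B, 2 ≤ sz box B
  nn : ∀ B C, 0 ≤ L B C
  sum : ∀ B, ∑ C, L B C = 1
  inv : ∀ C, ∑ B, (sz box B : ℝ) * L B C = sz box C

/-- Box law of walker `i`'s move, given the current positions `c`. -/
noncomputable def kb (box : V → I) (L : I → I → ℝ) {k : ℕ} (i : Fin (k + 1))
    (c : Fin (k + 1) → V) (C : I) : ℝ :=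
  Fin.cases (motive := fun _ => ℝ) (R1 box (box (c 0)) C)
    (fun j => KK box L (box (c j.castSucc)) (box (c j.succ)) C) i

noncomputable def rawC (box : V → I) (L : I → I → ℝ) {k : ℕ} (i : Fin (k + 1))
    (c : Fin (k + 1) → V) (y : V) : ℝ :=
  kb box L i c (box y) *
    (if y ∈ av false box i c (box y) then 1 / ((av false box i c (box y)).card : ℝ) else 0)

open Classical in
/-- The kernels of the system. -/
noncomputable def stepC (box : V → I) (L : I → I → ℝ) {k : ℕ} (i : Fin (k + 1))
    (c : Fin (k + 1) → V) (y : V) : ℝ :=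
  if ∑ z, rawC box L i c z = 1 then rawC box L i c y
  else if y = c i then 1 else 0

/-- Round probabilities. -/
noncomputable def rpC (box : V → I) (L : I → I → ℝ) {k : ℕ} (σ τ : Fin (k + 1) → V) : ℝ :=
  ∏ i, stepC box L i (mid σ τ i) (τ i)

/-- Average backward weight, given the tuple `p` of boxes. -/
noncomputable def AA (box : V → I) (L : I → I → ℝ) {k : ℕ} (i : Fin (k + 1)) (T : ℕ)
    (x : Fin (T + 1) → V) (p : Fin (k + 1) → I) : ℝ :=
  ∑ σ : Fin (k + 1) → V,
    (∏ j, Function.update (un box ev p) i (fun v => if v = x 0 then 1 else 0) j (σ j)) *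
      W (rpC box L) i T x σ

end

end Pool.Agent.H.MP_2d605f_pr
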