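import Pool.Agent.H.MP_2d605f_pr.CircRound

/-! Flow schemes: averages of the backward weights. -/

open Finset

namespace Pool.Agent.H.MP_2d605f_pr

section
variable {V I : Type} [Fintype V] [DecidableEq V] [Fintype I] [DecidableEq I]
  {box : V → I} {L : I → I → ℝ}

lemma CircAvg_un_sum (F : Flow box L) {k : ℕ} (p : Fin k → I) (j : Fin k) :
    ∑ v, un box ev p j v = 1 := by
  have h2 := F.two (ev j p)
  exact sum_box (ev j p) (by omega)

lemma CircAvg_rep (F : Flow box L) {k : ℕ} (p : Fin k → I) :
    ∃ r : Fin k → V, ∀ j, box (r j) = ev j p := by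
  have h : ∀ j, ∃ v, box v = ev j p := by
    intro j
    have h2 := F.two (ev j p)
    have h3 : 0 < sz box (ev j p) := by omega
    obtain ⟨v, hv⟩ := Finset.card_pos.1 h3
    exact ⟨v, (mem_filter.1 hv).2⟩
  choose r hr using h
  exact ⟨r, hr⟩

lemma CircAvg_u_sum (F : Flow box L) {k : ℕ} {p : Fin k → I} (hp : Function.Injective p)
    (q : Fin k → I) (j : Fin k) {σ : Fin k → V} (hσ : ∀ m, box (σ m) = ev m p) :
    ∑ v, u false box ev p q j σ v = 1 := by
  have h2 := F.two (ev j q)
  by_cases h : ∃ m, (j < m ∨ (j = m ∧ false = false)) ∧ ev m p = ev j q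
  · obtain ⟨m, hm⟩ := h
    rw [← sum_box_ne (ev j q) (σ m) (by rw [hσ m, hm.2]) h2]
    refine Finset.sum_congr rfl fun v _ => ?_
    unfold u
    by_cases h1 : box v = ev j q
    · rw [if_pos h1, if_pos h1]
      congr 1
      rw [Finset.prod_eq_single m]
      · unfold ph; rw [if_pos hm]
      · intro m' _ hne
        unfold ph
        rw [if_neg]
        rintro ⟨_, h3⟩
        exact hne (hp (h3.trans hm.2.symm))
      · intro h; exact absurd (mem_univ _) h
    · rw [if_neg h1, if_neg h1]
  · push Not at h
    have h0 : sz box (ev j q) ≠ 0 := by omega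
    rw [← sum_box (ev j q) h0]
    refine Finset.sum_congr rfl fun v _ => ?_
    unfold u
    by_cases h1 : box v = ev j q
    · rw [if_pos h1, if_pos h1, Finset.prod_eq_one, mul_one]
      intro m _
      unfold ph
      rw [if_neg]
      rintro ⟨h3, h4⟩
      exact h m h3 h4
    · rw [if_neg h1, if_neg h1]

lemma CircAvg_hh_sum (F : Flow box L) {k : ℕ} (p q : Fin k → I) (i : Fin k) {s : V}
    (hs : box s = ev i p) (j : Fin k) : ∑ v, hh false box ev p q i s j v = 1 := by
  by_cases h : (j < i ∨ (j = i ∧ false = false)) ∧ ev i p = ev j q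
  · rw [← sum_box_ne (ev j q) s (by rw [hs, h.2]) (F.two (ev j q))]
    refine Finset.sum_congr rfl fun v _ => ?_
    unfold hh un ph
    rw [if_pos h]
    by_cases h1 : box v = ev j q
    · rw [if_pos h1, if_pos h1]
    · rw [if_neg h1, if_neg h1, zero_mul]
  · rw [← CircAvg_un_sum F q j]
    refine Finset.sum_congr rfl fun v _ => ?_
    unfold hh ph
    rw [if_neg h, mul_one]

/-- averaging over the position of walker `m` -/
lemma CircAvg_avg_un (F : Flow box L) {k : ℕ} (p : Fin k → I) {q : Fin k → I}
    (hq : Function.Injective q) (m : Fin k) {τ : Fin k → V} (hτ : ∀ j, box (τ j) = ev j q) :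
    ∑ s, un box ev p m s * ∏ j, ph false box ev p q j m s (τ j) = 1 := by
  by_cases h : ∃ j, (j < m ∨ (j = m ∧ false = false)) ∧ ev m p = ev j q
  · obtain ⟨j, hj⟩ := h
    rw [← sum_box_ne (ev m p) (τ j) (by rw [hτ j, hj.2]) (F.two (ev m p))]
    refine Finset.sum_congr rfl fun s _ => ?_
    have e : ∏ j, ph false box ev p q j m s (τ j) =
        if s = τ j then 0 else (sz box (ev m p) : ℝ) / (sz box (ev m p) - 1) := by
      rw [Finset.prod_eq_single j]
      · unfold ph
        rw [if_pos hj, hj.2]
        refine if_congr eq_comm rfl rfl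
      · intro j' _ hne
        unfold ph
        rw [if_neg]
        rintro ⟨_, h2⟩
        exact hne (hq (h2.symm.trans hj.2))
      · intro h; exact absurd (mem_univ _) h
    rw [e]
    unfold un
    split_ifs <;> simp
  · push Not at h
    rw [← CircAvg_un_sum F p m]
    refine Finset.sum_congr rfl fun s _ => ?_
    rw [Finset.prod_eq_one, mul_one]
    intro j _
    unfold ph
    rw [if_neg]
    rintro ⟨h1, h2⟩
    exact h j h1 h2

/-- the round probability as a sum over the new boxes -/
lemma CircAvg_round (F : Flow box L) {k : ℕ} {p : Fin (k + 1) → I} (hp : Function.Injective p)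
    {σ : Fin (k + 1) → V} (hσ : ∀ m, box (σ m) = ev m p) (τ : Fin (k + 1) → V) :
    rpC box L σ τ = ∑ q, RR box L p q * ∏ j, u false box ev p q j σ (τ j) := by
  have hpe : (fun j => box (σ j)) = p := funext hσ
  have h1 := round_eqC F (σ := σ) (by rw [hpe]; exact hp) τ
  rw [hpe] at h1
  rw [h1, Finset.sum_eq_single (fun j => box (τ j))]
  · intro q _ hne
    have h3 : ∃ j, q j ≠ box (τ j) := by
      by_contra hcon
      push Not at hcon
      exact hne (funext hcon)
    obtain ⟨j, hj⟩ := h3
    have h4 : ∏ j, u false box ev p q j σ (τ j) = 0 :=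
      Finset.prod_eq_zero (mem_univ j) (u_ne hj)
    rw [h4, mul_zero]
  · intro h; exact absurd (mem_univ _) h

lemma CircAvg_dep (F : Flow box L) {k : ℕ}
    (hinj : ∀ p : Fin (k + 1) → I, Sup L p → Function.Injective p) (i : Fin (k + 1)) :
    ∀ (T : ℕ) (x : Fin (T + 1) → V) (p : Fin (k + 1) → I) (σ σ' : Fin (k + 1) → V), Sup L p →
    (∀ m, box (σ m) = ev m p) → (∀ m, box (σ' m) = ev m p) → (∀ m, i ≤ m → σ m = σ' m) →
    W (rpC box L) i T x σ = W (rpC box L) i T x σ' := by
  intro T
  induction T with
  | zero =>
    intro x p σ σ' _ _ _ h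
    simp only [W]
    rw [h i le_rfl]
  | succ T ih =>
    intro x p σ σ' hp hσ hσ' h
    simp only [W]
    rw [h i le_rfl]
    split_ifs with hx
    · have e1 : ∀ (ρ : Fin (k + 1) → V), (∀ m, box (ρ m) = ev m p) →
          ∑ τ, rpC box L ρ τ * W (rpC box L) i T (Fin.tail x) τ =
          ∑ q, RR box L p q * ∑ τ : Fin (k + 1) → V, (∏ j, u false box ev p q j ρ (τ j)) *
            W (rpC box L) i T (Fin.tail x) τ := by
        intro ρ hρ
        simp only [Finset.mul_sum]
        rw [Finset.sum_comm]
        refine Finset.sum_congr rfl fun τ _ => ?_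
        rw [CircAvg_round F (hinj p hp) hρ τ, Finset.sum_mul]
        refine Finset.sum_congr rfl fun q _ => ?_
        ring
      rw [e1 σ hσ, e1 σ' hσ']
      refine Finset.sum_congr rfl fun q _ => ?_
      by_cases hRR : RR box L p q = 0
      · rw [hRR, zero_mul, zero_mul]
      have hq : Sup L q := RR_sup F hp hRR
      congr 1
      obtain ⟨r, hr⟩ := CircAvg_rep F q
      refine sum_lower box i (fun j => ev j q) _ _ _ r hr ?_ ?_ ?_ ?_ ?_
      · intro τ τ' h1 h2 h3
        exact ih (Fin.tail x) q τ τ' hq h1 h2 h3
      · intro j v hv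
        exact u_ne (fun h' => hv h'.symm)
      · intro j v hv
        exact u_ne (fun h' => hv h'.symm)
      · intro j hj
        funext v
        rw [u_eq_un, u_eq_un]
        congr 1
        refine Finset.prod_congr rfl fun m _ => ?_
        unfold ph
        by_cases hm : (j < m ∨ (j = m ∧ false = false)) ∧ ev m p = ev j q
        · have him : i ≤ m := by
            rcases hm.1 with h4 | h4
            · exact hj.trans h4.le
            · rw [← h4.1]; exact hj
          rw [h m him]
        · rw [if_neg hm, if_neg hm]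
      · intro j _
        rw [CircAvg_u_sum F (hinj p hp) q j hσ, CircAvg_u_sum F (hinj p hp) q j hσ']
    · rfl

lemma AA_zero (F : Flow box L) {k : ℕ} (i : Fin (k + 1)) (x : Fin 1 → V)
    (p : Fin (k + 1) → I) : AA box L i 0 x p = 1 := by
  unfold AA
  simp only [W]
  have e1 : ∀ σ : Fin (k + 1) → V,
      (∏ j, Function.update (un box ev p) i (fun v => if v = x 0 then 1 else 0) j (σ j)) *
        (if σ i = x 0 then (1 : ℝ) else 0) =
      ∏ j, (Function.update (un box ev p) i (fun v => if v = x 0 then 1 else 0) j (σ j) *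
        (if j = i then (if σ j = x 0 then 1 else 0) else 1)) := by
    intro σ
    rw [Finset.prod_mul_distrib]
    congr 1
    rw [Finset.prod_ite_eq' univ i (fun j => if σ j = x 0 then (1 : ℝ) else 0)]
    simp
  simp only [e1]
  rw [sum_pi_prod (fun j v => Function.update (un box ev p) i
      (fun v => if v = x 0 then 1 else 0) j v * (if j = i then (if v = x 0 then 1 else 0) else 1))]
  rw [Finset.prod_eq_single i]
  · simp
  · intro j _ hj
    simp only [if_neg hj, mul_one, Function.update_of_ne hj]
    exact CircAvg_un_sum F p j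
  · intro h; exact absurd (mem_univ _) h

/-- the weights contain the indicator of the first position -/
lemma CircAvg_W_ind {k : ℕ} (rp : (Fin k → V) → (Fin k → V) → ℝ) (i : Fin k) (T : ℕ)
    (x : Fin (T + 1) → V) (σ : Fin k → V) (h : σ i ≠ x 0) : W rp i T x σ = 0 := by
  cases T with
  | zero => simp only [W]; rw [if_neg h]
  | succ T => simp only [W]; rw [if_neg h]

/-- the recursion for the averaged backward weights -/
lemma AA_succ (F : Flow box L) {k : ℕ}
    (hinj : ∀ p : Fin (k + 1) → I, Sup L p → Function.Injective p)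
    (i : Fin (k + 1)) (T : ℕ) (x : Fin (T + 2) → V) (p : Fin (k + 1) → I) (hp : Sup L p)
    (hx : box (x 0) = p i) :
    AA box L i (T + 1) x p = ∑ q, RR box L p q * (hh false box ev p q i (x 0) i (x 1) *
      AA box L i T (Fin.tail x) q) := by
  unfold AA
  set g : V → ℝ := fun v => if v = x 0 then 1 else 0 with hgdef
  have hg : ∀ v, box v ≠ ev i p → g v = 0 := by
    intro v hv
    rw [hgdef]
    simp only
    rw [if_neg]
    intro h
    exact hv (by rw [h, hx]; rfl)
  have hg1 : g (x 0) = 1 := by rw [hgdef]; simp
  set G : Fin (k + 1) → V → ℝ := Function.update (un box ev p) i g with hG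
  have hGi : G i = g := by rw [hG, Function.update_self]
  have hGj : ∀ j, j ≠ i → G j = un box ev p j := fun j hj => by
    rw [hG, Function.update_of_ne hj]
  have hG0 : ∀ j v, box v ≠ ev j p → G j v = 0 := by
    intro j v hv
    by_cases hj : j = i
    · rw [hj, hGi]; exact hg v (by rw [← hj]; exact hv)
    · rw [hGj j hj]; unfold un; rw [if_neg hv]
  -- step 1: expand
  have e1 : ∀ σ : Fin (k + 1) → V, (∏ j, G j (σ j)) * W (rpC box L) i (T + 1) x σ =
      ∑ q, RR box L p q * ∑ τ : Fin (k + 1) → V, W (rpC box L) i T (Fin.tail x) τ *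
        ((∏ j, un box ev q j (τ j)) * ∏ m, (G m (σ m) * (if m = i then (if σ m = x 0 then 1 else 0)
          else 1) * ∏ j, ph false box ev p q j m (σ m) (τ j))) := by
    intro σ
    by_cases hσ : ∀ m, box (σ m) = ev m p
    · have h2 : ∏ m, (if m = i then (if σ m = x 0 then (1 : ℝ) else 0) else 1) =
          if σ i = x 0 then 1 else 0 := by
        rw [Finset.prod_ite_eq' univ i (fun j => if σ j = x 0 then (1 : ℝ) else 0)]
        simp
      simp only [Finset.prod_mul_distrib, h2, W]
      by_cases hx : σ i = x 0
      · have hrp : ∀ τ, rpC box L σ τ =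
            ∑ q, RR box L p q * ∏ j, u false box ev p q j σ (τ j) :=
          fun τ => CircAvg_round F (hinj p hp) hσ τ
        have hu : ∀ (q : Fin (k + 1) → I) (τ : Fin (k + 1) → V),
            ∏ j, u false box ev p q j σ (τ j) =
            (∏ j, un box ev q j (τ j)) * ∏ m, ∏ j, ph false box ev p q j m (σ m) (τ j) := by
          intro q τ
          rw [Finset.prod_comm, ← Finset.prod_mul_distrib]
          exact Finset.prod_congr rfl fun j _ => u_eq_un p q j σ (τ j)
        simp only [if_pos hx, mul_one, hrp, hu]
        generalize W (rpC box L) i T (Fin.tail x) = Wt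
        calc (∏ j, G j (σ j)) * ∑ τ : Fin (k + 1) → V, (∑ q, RR box L p q *
              ((∏ j, un box ev q j (τ j)) *
              ∏ m, ∏ j, ph false box ev p q j m (σ m) (τ j))) * Wt τ
            = ∑ τ : Fin (k + 1) → V, ∑ q, RR box L p q * (Wt τ * ((∏ j, un box ev q j (τ j)) *
              ((∏ j, G j (σ j)) * ∏ m, ∏ j, ph false box ev p q j m (σ m) (τ j)))) := by
              rw [Finset.mul_sum]
              refine Finset.sum_congr rfl fun τ _ => ?_
              rw [Finset.sum_mul, Finset.mul_sum]
              refine Finset.sum_congr rfl fun q _ => ?_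
              ring
          _ = _ := by
              rw [Finset.sum_comm]
              refine Finset.sum_congr rfl fun q _ => ?_
              rw [Finset.mul_sum]
      · rw [if_neg hx]
        simp [if_neg hx]
    · push Not at hσ
      obtain ⟨m, hm⟩ := hσ
      have h0 : ∏ j, G j (σ j) = 0 := Finset.prod_eq_zero (mem_univ m) (hG0 m _ hm)
      simp only [Finset.prod_mul_distrib, h0]
      simp
  -- step 2: average over σ
  have e2 : ∀ (q : Fin (k + 1) → I), Sup L q → ∀ (τ : Fin (k + 1) → V),
      (∏ j, un box ev q j (τ j)) *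
      ∑ σ : Fin (k + 1) → V, ∏ m, (G m (σ m) * (if m = i then (if σ m = x 0 then 1 else 0) else 1) *
        ∏ j, ph false box ev p q j m (σ m) (τ j)) =
      ∏ j, hh false box ev p q i (x 0) j (τ j) := by
    intro q hq τ
    rw [sum_pi_prod (fun m s => G m s * (if m = i then (if s = x 0 then 1 else 0) else 1) *
        ∏ j, ph false box ev p q j m s (τ j))]
    unfold hh
    rw [Finset.prod_mul_distrib]
    by_cases hτ : ∀ j, box (τ j) = ev j q
    · have h5 : ∏ m, ∑ s, G m s * (if m = i then (if s = x 0 then (1 : ℝ) else 0) else 1) *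
          ∏ j, ph false box ev p q j m s (τ j) =
          ∏ j, ph false box ev p q j i (x 0) (τ j) := by
        rw [Finset.prod_eq_single i]
        · simp only [if_true, hGi]
          rw [Finset.sum_eq_single (x 0)]
          · simp only [if_true, hg1]
            ring
          · intro s _ hs
            rw [if_neg hs]; ring
          · intro h; exact absurd (mem_univ _) h
        · intro m _ hm
          simp only [if_neg hm, mul_one, hGj m hm]
          exact CircAvg_avg_un F p (hinj q hq) m hτ
        · intro h; exact absurd (mem_univ _) h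
      rw [h5]
    · push Not at hτ
      obtain ⟨j, hj⟩ := hτ
      have h0 : ∏ j, un box ev q j (τ j) = 0 := by
        refine Finset.prod_eq_zero (mem_univ j) ?_
        unfold un
        rw [if_neg hj]
      rw [h0]
      simp
  have e3 : ∑ σ : Fin (k + 1) → V, (∏ j, G j (σ j)) * W (rpC box L) i (T + 1) x σ =
      ∑ q, RR box L p q * (∑ τ : Fin (k + 1) → V, (∏ j, hh false box ev p q i (x 0) j (τ j)) *
        W (rpC box L) i T (Fin.tail x) τ) := by
    rw [Finset.sum_congr rfl fun σ _ => e1 σ, Finset.sum_comm]
    refine Finset.sum_congr rfl fun q _ => ?_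
    rw [← Finset.mul_sum]
    by_cases hRR : RR box L p q = 0
    · rw [hRR, zero_mul, zero_mul]
    have hq : Sup L q := RR_sup F hp hRR
    congr 1
    rw [Finset.sum_comm]
    refine Finset.sum_congr rfl fun τ _ => ?_
    rw [← Finset.mul_sum, ← Finset.mul_sum, e2 q hq τ]
    ring
  rw [e3]
  refine Finset.sum_congr rfl fun q _ => ?_
  by_cases hRR : RR box L p q = 0
  · rw [hRR, zero_mul, zero_mul]
  have hq : Sup L q := RR_sup F hp hRR
  congr 1
  have hx0 : box (x 0) = ev i p := hx
  have hh0 : ∀ j v, box v ≠ ev j q → hh false box ev p q i (x 0) j v = 0 := by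
    intro j v hv
    unfold hh un
    rw [if_neg hv, zero_mul]
  obtain ⟨r, hr⟩ := CircAvg_rep F q
  rw [sum_lower box i (fun j => ev j q) (W (rpC box L) i T (Fin.tail x))
    (fun j => hh false box ev p q i (x 0) j)
    (Function.update (un box ev q) i (hh false box ev p q i (x 0) i)) r hr]
  · rw [Finset.mul_sum]
    refine Finset.sum_congr rfl fun τ _ => ?_
    by_cases hτ : τ i = Fin.tail x 0
    · have h6 : ∀ f : V → ℝ, ∏ j, Function.update (un box ev q) i f j (τ j) =
          f (τ i) * ∏ j ∈ univ.erase i, un box ev q j (τ j) := by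
        intro f
        rw [← Finset.mul_prod_erase univ _ (mem_univ i), Function.update_self]
        congr 1
        refine Finset.prod_congr rfl fun j hj => ?_
        rw [Function.update_of_ne (Finset.ne_of_mem_erase hj)]
      rw [h6, h6, hτ]
      have h7 : Fin.tail x 0 = x 1 := rfl
      rw [h7]
      simp only [if_true]
      ring
    · rw [CircAvg_W_ind (rpC box L) i T (Fin.tail x) τ hτ]
      ring
  · intro τ τ' h1 h2 h3
    exact CircAvg_dep F hinj i T (Fin.tail x) q τ τ' hq h1 h2 h3
  · exact hh0
  · intro j v hv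
    by_cases hj : j = i
    · subst hj
      rw [Function.update_self]
      exact hh0 _ v hv
    · rw [Function.update_of_ne hj]
      unfold un
      rw [if_neg hv]
  · intro j hj
    by_cases hji : j = i
    · subst hji
      rw [Function.update_self]
    · rw [Function.update_of_ne hji]
      funext v
      unfold hh ph
      rw [if_neg, mul_one]
      rintro ⟨h1 | h1, _⟩
      · exact absurd h1 (not_lt.2 hj)
      · exact hji h1.1
  · intro j hj
    rw [CircAvg_hh_sum F p q i hx0 j, Function.update_of_ne (ne_of_lt hj), CircAvg_un_sum F q j]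

end

end Pool.Agent.H.MP_2d605f_pr
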