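import Pool.Agent.H.MP_2d605f_pr.Circ

/-! Flow schemes: the box level. -/

open Finset

namespace Pool.Agent.H.MP_2d605f_pr

section
variable {V I : Type} [Fintype V] [DecidableEq V] [Fintype I] [DecidableEq I]
  {box : V → I} {L : I → I → ℝ}

lemma CircBox_le_card (B : I) : sz box B ≤ Fintype.card V := by
  unfold sz
  exact (Finset.card_filter_le _ _).trans (le_of_eq Finset.card_univ)

lemma CircBox_den (F : Flow box L) (B : I) : (0 : ℝ) < (Fintype.card V : ℝ) - 1 := by
  have h1 : sz box B ≤ Fintype.card V := CircBox_le_card B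
  have h2 := F.two B
  have h3 : (2 : ℝ) ≤ (Fintype.card V : ℝ) := by exact_mod_cast h2.trans h1
  linarith

lemma R1_nonneg (F : Flow box L) (B C : I) : 0 ≤ R1 box B C := by
  unfold R1
  have h1 := CircBox_den F B
  have h2 : (2 : ℝ) ≤ sz box C := by exact_mod_cast F.two C
  refine div_nonneg ?_ h1.le
  split_ifs <;> linarith

lemma CircBox_sum_sz : ∑ C : I, (sz box C : ℝ) = (Fintype.card V : ℝ) := by
  have h : ∑ C : I, sz box C = Fintype.card V := by
    unfold sz
    rw [← Finset.card_univ, ← Finset.card_eq_sum_card_fiberwise]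
    intro v _
    exact Finset.mem_coe.2 (Finset.mem_univ _)
  rw [← h]
  push_cast
  rfl

lemma R1_sum (F : Flow box L) (B : I) : ∑ C, R1 box B C = 1 := by
  have h1 := CircBox_den F B
  unfold R1
  rw [← Finset.sum_div, Finset.sum_sub_distrib, CircBox_sum_sz, Finset.sum_ite_eq]
  simp only [Finset.mem_univ, if_true]
  exact div_self h1.ne'

lemma CircBox_LR (F : Flow box L) (B A : I) :
    LR box L B A = ((sz box A : ℝ) - L B A) / ((Fintype.card V : ℝ) - 1) := by
  unfold LR R1
  have e : ∀ D, L B D * (((sz box A : ℝ) - if D = A then 1 else 0) / ((Fintype.card V : ℝ) - 1)) =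
      (L B D * (sz box A : ℝ) - (if D = A then L B D else 0)) / ((Fintype.card V : ℝ) - 1) := by
    intro D
    split_ifs <;> ring
  simp only [e]
  rw [← Finset.sum_div, Finset.sum_sub_distrib, ← Finset.sum_mul, F.sum B, one_mul,
    Finset.sum_ite_eq']
  simp only [Finset.mem_univ, if_true]

lemma CircBox_RL (F : Flow box L) (B A : I) :
    ∑ C, R1 box B C * L C A = LR box L B A := by
  rw [CircBox_LR F]
  unfold R1
  have e : ∀ C, (((sz box C : ℝ) - if B = C then 1 else 0) / ((Fintype.card V : ℝ) - 1)) * L C A =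
      ((sz box C : ℝ) * L C A - (if B = C then L C A else 0)) / ((Fintype.card V : ℝ) - 1) := by
    intro C
    split_ifs <;> ring
  simp only [e]
  rw [← Finset.sum_div, Finset.sum_sub_distrib, F.inv A, Finset.sum_ite_eq]
  simp only [Finset.mem_univ, if_true]

lemma CircBox_LR_nonneg (F : Flow box L) (B A : I) : 0 ≤ LR box L B A := by
  unfold LR
  exact Finset.sum_nonneg fun D _ => mul_nonneg (F.nn _ _) (R1_nonneg F _ _)

lemma KK_nonneg (F : Flow box L) (A B C : I) : 0 ≤ KK box L A B C := by
  unfold KK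
  split_ifs
  · norm_num
  · norm_num
  · exact div_nonneg (mul_nonneg (R1_nonneg F _ _) (F.nn _ _)) (CircBox_LR_nonneg F _ _)

lemma KK_sum (F : Flow box L) (A B : I) : ∑ C, KK box L A B C = 1 := by
  unfold KK
  by_cases h : LR box L B A = 0
  · simp only [if_pos h]
    rw [Finset.sum_ite_eq']
    simp
  · simp only [if_neg h]
    rw [← Finset.sum_div, CircBox_RL F, div_self h]

/-- one elimination step -/
lemma KK_key (F : Flow box L) (A B C : I) :
    (∑ D, L B D * R1 box D A) * KK box L A B C = R1 box B C * L C A := by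
  change LR box L B A * KK box L A B C = R1 box B C * L C A
  by_cases h : LR box L B A = 0
  · have h1 : R1 box B C * L C A ≤ LR box L B A := by
      rw [← CircBox_RL F]
      exact Finset.single_le_sum (f := fun D => R1 box B D * L D A)
        (fun D _ => mul_nonneg (R1_nonneg F _ _) (F.nn _ _)) (Finset.mem_univ C)
    have h2 : 0 ≤ R1 box B C * L C A := mul_nonneg (R1_nonneg F _ _) (F.nn _ _)
    rw [h, zero_mul]
    linarith
  · unfold KK
    rw [if_neg h]
    field_simp

lemma CircBox_sum_cons {k : ℕ} (G : (Fin (k + 1) → I) → ℝ) :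
    ∑ p, G p = ∑ a : I, ∑ p' : Fin k → I, G (Fin.cons a p') := by
  rw [← (Fin.consEquiv (fun _ : Fin (k + 1) => I)).sum_comp, Fintype.sum_prod_type]
  rfl

lemma CircBox_CC_zero {k : ℕ} (p : Fin (k + 1) → I) : CC L 0 p = 1 := by
  unfold CC
  refine Finset.prod_eq_one fun j _ => ?_
  rw [if_neg (Fin.not_lt_zero _)]

lemma CircBox_CC_succ {k : ℕ} (i : Fin (k + 1)) (a : I) (p : Fin (k + 1) → I) :
    CC L i.succ (Fin.cons a p : Fin (k + 2) → I) = L (p 0) a * CC L i p := by
  unfold CC
  rw [Fin.prod_univ_succ]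
  refine congrArg₂ (· * ·) ?_ ?_
  · rw [if_pos (by rw [Fin.castSucc_zero]; exact Fin.succ_pos i)]
    rfl
  · refine Finset.prod_congr rfl fun j _ => ?_
    rw [← Fin.succ_castSucc]
    simp only [Fin.cons_succ, Fin.succ_lt_succ_iff]

lemma CircBox_RR_cons {k : ℕ} (a a' : I) (p q : Fin (k + 1) → I) :
    RR box L (Fin.cons a p : Fin (k + 2) → I) (Fin.cons a' q : Fin (k + 2) → I) =
      R1 box a a' * (KK box L a' (p 0) (q 0) *
        ∏ j : Fin k, KK box L (q j.castSucc) (p j.succ) (q j.succ)) := by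
  unfold RR
  rw [Fin.prod_univ_succ]
  congr 1

lemma CircBox_elim (F : Flow box L) {k : ℕ} (i : Fin (k + 1)) (w2 : (Fin (k + 2) → I) → ℝ)
    (hw : Ind i.succ w2) (a' : I) (q : Fin (k + 1) → I) :
    ∑ p : Fin (k + 2) → I, CC L i.succ p * w2 p * RR box L p (Fin.cons a' q) =
      L (q 0) a' * ∑ p : Fin (k + 1) → I, CC L i p * w2 (Fin.cons (p 0) p) * RR box L p q := by
  rw [CircBox_sum_cons, Finset.sum_comm, Finset.mul_sum]
  refine Finset.sum_congr rfl fun p _ => ?_
  have e : ∀ a : I, CC L i.succ (Fin.cons a p : Fin (k + 2) → I) * w2 (Fin.cons a p) *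
      RR box L (Fin.cons a p : Fin (k + 2) → I) (Fin.cons a' q) =
      (L (p 0) a * R1 box a a') * (CC L i p * w2 (Fin.cons (p 0) p) *
        (KK box L a' (p 0) (q 0) *
          ∏ j : Fin k, KK box L (q j.castSucc) (p j.succ) (q j.succ))) := by
    intro a
    have h1 : w2 (Fin.cons a p) = w2 (Fin.cons (p 0) p) := by
      refine hw _ _ fun j hj => ?_
      refine Fin.cases ?_ (fun j' => ?_) j (motive := fun j => i.succ ≤ j →
        (Fin.cons a p : Fin (k + 2) → I) j = (Fin.cons (p 0) p : Fin (k + 2) → I) j) hj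
      · intro h; exact absurd (Fin.succ_pos i) (not_lt.2 h)
      · intro _; rfl
    rw [CircBox_CC_succ, CircBox_RR_cons, h1]
    ring
  simp only [e]
  rw [← Finset.sum_mul]
  have h2 := KK_key F a' (p 0) (q 0)
  unfold RR
  calc (∑ a, L (p 0) a * R1 box a a') * (CC L i p * w2 (Fin.cons (p 0) p) *
        (KK box L a' (p 0) (q 0) *
          ∏ j : Fin k, KK box L (q j.castSucc) (p j.succ) (q j.succ)))
      = ((∑ a, L (p 0) a * R1 box a a') * KK box L a' (p 0) (q 0)) *
        (CC L i p * w2 (Fin.cons (p 0) p) *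
          ∏ j : Fin k, KK box L (q j.castSucc) (p j.succ) (q j.succ)) := by ring
    _ = _ := by rw [h2]; ring

lemma CircBox_Ind {k : ℕ} (i : Fin (k + 1)) (w2 : (Fin (k + 2) → I) → ℝ)
    (hw : Ind i.succ w2) : Ind i (fun p : Fin (k + 1) → I => w2 (Fin.cons (p 0) p)) := by
  intro p p' h
  refine hw _ _ fun j hj => ?_
  refine Fin.cases ?_ (fun j' => ?_) j (motive := fun j => i.succ ≤ j →
    (Fin.cons (p 0) p : Fin (k + 2) → I) j = (Fin.cons (p' 0) p' : Fin (k + 2) → I) j) hj
  · intro h; exact absurd (Fin.succ_pos i) (not_lt.2 h)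
  · intro h'
    exact h j' (Fin.succ_le_succ_iff.1 h')

/-- the weights `CC i * (independent of the lower coordinates)` are preserved -/
lemma RR_pres (F : Flow box L) {k : ℕ} (i : Fin (k + 1)) (w2 : (Fin (k + 1) → I) → ℝ)
    (hw : Ind i w2) : ∃ w2' : (Fin (k + 1) → I) → ℝ, Ind i w2' ∧
      ∀ q, ∑ p, CC L i p * w2 p * RR box L p q = CC L i q * w2' q := by
  induction k with
  | zero =>
    have hi : i = 0 := Subsingleton.elim (α := Fin 1) i 0
    subst hi
    refine ⟨fun q => ∑ p, CC L 0 p * w2 p * RR box L p q, ?_, ?_⟩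
    · intro p p' h
      have : p = p' := funext fun j => h j (Fin.zero_le j)
      rw [this]
    · intro q
      rw [CircBox_CC_zero q, one_mul]
  | succ k ih =>
    refine Fin.cases ?_ (fun i' => ?_) i (motive := fun i => Ind i w2 →
      ∃ w2' : (Fin (k + 1 + 1) → I) → ℝ, Ind i w2' ∧
      ∀ q, ∑ p, CC L i p * w2 p * RR box L p q = CC L i q * w2' q) hw
    · intro _
      refine ⟨fun q => ∑ p, CC L 0 p * w2 p * RR box L p q, ?_, ?_⟩
      · intro p p' h
        have : p = p' := funext fun j => h j (Fin.zero_le j)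
        rw [this]
      · intro q
        rw [CircBox_CC_zero q, one_mul]
    · intro hw'
      obtain ⟨w3, h3, h4⟩ := ih i' (fun p : Fin (k + 1) → I => w2 (Fin.cons (p 0) p))
        (CircBox_Ind i' w2 hw')
      refine ⟨fun q => w3 (Fin.tail q), ?_, ?_⟩
      · intro q q' h
        exact h3 _ _ fun j hj => h j.succ (Fin.succ_le_succ_iff.2 hj)
      · intro q
        have hq : q = Fin.cons (q 0) (Fin.tail q) := (Fin.cons_self_tail q).symm
        have h5 := CircBox_elim F i' w2 hw' (q 0) (Fin.tail q)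
        have h6 := CircBox_CC_succ (L := L) i' (q 0) (Fin.tail q)
        rw [← hq] at h5 h6
        rw [h5, h6, h4 (Fin.tail q)]
        ring

lemma CircBox_KP (F : Flow box L) : ∀ (k : ℕ) (r : Fin k → I) (C : I),
    ∑ q : Fin k → I, ∏ j : Fin k,
      KK box L ((Fin.cons C q : Fin (k + 1) → I) j.castSucc) (r j) (q j) = 1 := by
  intro k
  induction k with
  | zero => intro r C; simp
  | succ k ih =>
    intro r C
    rw [CircBox_sum_cons]
    have e : ∀ (D : I) (q : Fin k → I), ∏ j : Fin (k + 1),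
        KK box L ((Fin.cons C (Fin.cons D q : Fin (k + 1) → I) : Fin (k + 2) → I) j.castSucc)
          (r j) ((Fin.cons D q : Fin (k + 1) → I) j) =
        KK box L C (r 0) D * ∏ j : Fin k,
          KK box L ((Fin.cons D q : Fin (k + 1) → I) j.castSucc) (r j.succ) (q j) := by
      intro D q
      rw [Fin.prod_univ_succ]
      congr 1
    simp only [e]
    simp only [← Finset.mul_sum]
    have e2 : ∀ D : I, ∑ q : Fin k → I, ∏ j : Fin k,
          KK box L ((Fin.cons D q : Fin (k + 1) → I) j.castSucc) (r j.succ) (q j) = 1 :=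
      fun D => ih (fun j => r j.succ) D
    simp only [e2, mul_one]
    exact KK_sum F C (r 0)

lemma CircBox_marg_zero (F : Flow box L) {k : ℕ} (p : Fin (k + 1) → I) (f : I → ℝ) :
    ∑ q : Fin (k + 1) → I, RR box L p q * f (q 0) = ∑ C, R1 box (p 0) C * f C := by
  rw [CircBox_sum_cons]
  refine Finset.sum_congr rfl fun C _ => ?_
  have h := CircBox_KP F k (fun j => p j.succ) C
  have e : ∀ q : Fin k → I, RR box L p (Fin.cons C q : Fin (k + 1) → I) *
      f ((Fin.cons C q : Fin (k + 1) → I) 0) =
      (R1 box (p 0) C * f C) * ∏ j : Fin k,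
        KK box L ((Fin.cons C q : Fin (k + 1) → I) j.castSucc) (p j.succ) (q j) := by
    intro q
    unfold RR
    simp only [Fin.cons_zero, Fin.cons_succ]
    ring
  simp only [e]
  rw [← Finset.mul_sum, h, mul_one]

lemma RR_marg (F : Flow box L) {k : ℕ} (i : Fin (k + 1)) (w2 : (Fin (k + 1) → I) → ℝ)
    (hw : Ind i w2) (f : I → ℝ) :
    ∑ q : Fin (k + 1) → I, (∑ p, CC L i p * w2 p * RR box L p q) * f (q i) =
      ∑ p, CC L i p * w2 p * ∑ C, R1 box (p i) C * f C := by
  have zero_case : ∀ {k : ℕ} (w2 : (Fin (k + 1) → I) → ℝ),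
      ∑ q : Fin (k + 1) → I, (∑ p, CC L 0 p * w2 p * RR box L p q) * f (q 0) =
      ∑ p, CC L 0 p * w2 p * ∑ C, R1 box (p 0) C * f C := by
    intro k w2
    simp only [Finset.sum_mul]
    rw [Finset.sum_comm]
    refine Finset.sum_congr rfl fun p _ => ?_
    rw [← CircBox_marg_zero F p f, Finset.mul_sum]
    refine Finset.sum_congr rfl fun q _ => ?_
    ring
  induction k with
  | zero =>
    have hi : i = 0 := Subsingleton.elim (α := Fin 1) i 0
    subst hi
    exact zero_case w2
  | succ k ih =>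
    refine Fin.cases ?_ (fun i' => ?_) i (motive := fun i => Ind i w2 →
      ∑ q : Fin (k + 1 + 1) → I, (∑ p, CC L i p * w2 p * RR box L p q) * f (q i) =
      ∑ p, CC L i p * w2 p * ∑ C, R1 box (p i) C * f C) hw
    · intro _
      exact zero_case w2
    · intro hw'
      have h4 := ih i' (fun p : Fin (k + 1) → I => w2 (Fin.cons (p 0) p))
        (CircBox_Ind i' w2 hw')
      rw [CircBox_sum_cons, Finset.sum_comm]
      have e1 : ∀ (q : Fin (k + 1) → I) (a' : I),
          (∑ p, CC L i'.succ p * w2 p * RR box L p (Fin.cons a' q)) *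
            f ((Fin.cons a' q : Fin (k + 2) → I) i'.succ) =
          L (q 0) a' * ((∑ p : Fin (k + 1) → I, CC L i' p * w2 (Fin.cons (p 0) p) *
            RR box L p q) * f (q i')) := by
        intro q a'
        rw [CircBox_elim F i' w2 hw' a' q, Fin.cons_succ]
        ring
      simp only [e1]
      simp only [← Finset.sum_mul, F.sum, one_mul]
      rw [h4]
      rw [CircBox_sum_cons (fun p : Fin (k + 2) → I => CC L i'.succ p * w2 p *
        ∑ C, R1 box (p i'.succ) C * f C), Finset.sum_comm]
      refine Finset.sum_congr rfl fun p _ => ?_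
      have e2 : ∀ a : I, CC L i'.succ (Fin.cons a p : Fin (k + 2) → I) * w2 (Fin.cons a p) *
          ∑ C, R1 box ((Fin.cons a p : Fin (k + 2) → I) i'.succ) C * f C =
          L (p 0) a * (CC L i' p * w2 (Fin.cons (p 0) p) * ∑ C, R1 box (p i') C * f C) := by
        intro a
        have h1 : w2 (Fin.cons a p) = w2 (Fin.cons (p 0) p) := by
          refine hw' _ _ fun j hj => ?_
          refine Fin.cases ?_ (fun j' => ?_) j (motive := fun j => i'.succ ≤ j →
            (Fin.cons a p : Fin (k + 2) → I) j = (Fin.cons (p 0) p : Fin (k + 2) → I) j) hj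
          · intro h; exact absurd (Fin.succ_pos i') (not_lt.2 h)
          · intro _; rfl
        rw [CircBox_CC_succ, h1, Fin.cons_succ]
        ring
      simp only [e2]
      rw [← Finset.sum_mul, F.sum, one_mul]

lemma RR_sup (F : Flow box L) {k : ℕ} {p q : Fin (k + 1) → I} (hp : Sup L p)
    (h : RR box L p q ≠ 0) : Sup L q := by
  unfold RR at h
  have h0 := left_ne_zero_of_mul h
  have h1 : ∀ j : Fin k, KK box L (q j.castSucc) (p j.succ) (q j.succ) ≠ 0 := fun j =>
    Finset.prod_ne_zero_iff.1 (right_ne_zero_of_mul h) j (Finset.mem_univ j)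
  have step : ∀ j : Fin k, R1 box (p j.castSucc) (q j.castSucc) ≠ 0 →
      R1 box (p j.succ) (q j.succ) ≠ 0 ∧ L (q j.succ) (q j.castSucc) ≠ 0 := by
    intro j hj
    have h2 : LR box L (p j.succ) (q j.castSucc) ≠ 0 := by
      intro h3
      have h4 : L (p j.succ) (p j.castSucc) * R1 box (p j.castSucc) (q j.castSucc) ≤
          LR box L (p j.succ) (q j.castSucc) := by
        unfold LR
        exact Finset.single_le_sum (f := fun D => L (p j.succ) D * R1 box D (q j.castSucc))
          (fun D _ => mul_nonneg (F.nn _ _) (R1_nonneg F _ _)) (Finset.mem_univ (p j.castSucc))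
      have h5 : 0 < L (p j.succ) (p j.castSucc) * R1 box (p j.castSucc) (q j.castSucc) :=
        mul_pos (lt_of_le_of_ne (F.nn _ _) (hp j).symm)
          (lt_of_le_of_ne (R1_nonneg F _ _) hj.symm)
      linarith
    have h3 := h1 j
    unfold KK at h3
    rw [if_neg h2] at h3
    constructor
    · intro h4
      apply h3
      rw [h4, zero_mul, zero_div]
    · intro h4
      apply h3
      rw [h4, mul_zero, zero_div]
  have all : ∀ j : Fin (k + 1), R1 box (p j) (q j) ≠ 0 := by
    intro j
    induction j using Fin.induction with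
    | zero => exact h0
    | succ j ih => exact (step j ih).1
  intro j
  exact (step j (all j.castSucc)).2

lemma mu_sum (F : Flow box L) {k : ℕ} (B0 : I) :
    ∑ p : Fin (k + 1) → I, (if p (Fin.last k) = B0 then (1 : ℝ) else 0) *
      CC L (Fin.last k) p = 1 := by
  induction k with
  | zero =>
    rw [CircBox_sum_cons]
    have e : ∀ (a : I) (p' : Fin 0 → I),
        (if (Fin.cons a p' : Fin 1 → I) (Fin.last 0) = B0 then (1 : ℝ) else 0) *
          CC L (Fin.last 0) (Fin.cons a p' : Fin 1 → I) = if a = B0 then 1 else 0 := by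
      intro a p'
      have h1 : CC L (Fin.last 0) (Fin.cons a p' : Fin 1 → I) = 1 := CircBox_CC_zero _
      rw [h1, mul_one]
      rfl
    rw [Finset.sum_congr rfl fun a _ => Finset.sum_congr rfl fun p' _ => e a p']
    simp
  | succ k ih =>
    rw [CircBox_sum_cons, Finset.sum_comm]
    refine Eq.trans (Finset.sum_congr rfl fun p _ => ?_) ih
    have e : ∀ a : I,
        (if (Fin.cons a p : Fin (k + 2) → I) (Fin.last (k + 1)) = B0 then (1 : ℝ) else 0) *
          CC L (Fin.last (k + 1)) (Fin.cons a p : Fin (k + 2) → I) =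
        L (p 0) a * ((if p (Fin.last k) = B0 then (1 : ℝ) else 0) * CC L (Fin.last k) p) := by
      intro a
      rw [← Fin.succ_last, CircBox_CC_succ, Fin.cons_succ]
      ring
    rw [Finset.sum_congr rfl fun a _ => e a, ← Finset.sum_mul, F.sum, one_mul]

end

end Pool.Agent.H.MP_2d605f_pr
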