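import Pool.Agent.H.MP_2d605f_pr.CircShort

/-! Flow schemes: the linking matrices for `n = 3 m + 2` and `n = 3 m + 1`. -/

open Finset

namespace Pool.Agent.H.MP_2d605f_pr

lemma CircFlow_mk {m n : ℕ} (s : Fin (m + 1) → ℕ) (f : Fin (m + 1) → Fin (m + 1) → ℕ)
    (hrow : ∀ b, ∑ c, f b c = s b) (hcol : ∀ c, ∑ b, f b c = s c) (h2 : ∀ b, 2 ≤ s b)
    (hsum : ∑ b, s b = n) :
    ∃ box : Fin n → Fin (m + 1), Flow box (fun b c => (f b c : ℝ) / s b) := by
  obtain ⟨box, hbox⟩ := exists_box s hsum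
  have hs0 : ∀ b, (s b : ℝ) ≠ 0 := fun b => by
    have := h2 b
    exact_mod_cast (by omega : s b ≠ 0)
  refine ⟨box, ⟨fun B => ?_, fun B C => ?_, fun B => ?_, fun C => ?_⟩⟩
  · rw [hbox]
    exact h2 B
  · positivity
  · show ∑ C, (f B C : ℝ) / s B = 1
    rw [← Finset.sum_div, ← Nat.cast_sum, hrow, div_self (hs0 B)]
  · show ∑ B, (sz box B : ℝ) * ((f B C : ℝ) / s B) = sz box C
    rw [hbox, ← hcol, Nat.cast_sum]
    refine Finset.sum_congr rfl fun B _ => ?_
    rw [hbox, mul_div_cancel₀ _ (hs0 B)]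

lemma CircFlow_row {m : ℕ} (P : Equiv.Perm (Fin (m + 1))) (b : Fin (m + 1)) :
    ∑ c, (if P b = c then 1 else 0) = 1 := by
  rw [Finset.sum_ite_eq, if_pos (Finset.mem_univ _)]

lemma CircFlow_row' {m : ℕ} (P : Equiv.Perm (Fin (m + 1))) (x b : Fin (m + 1)) :
    ∑ c, (if b ≠ x ∧ P b = c then 1 else 0) = if b ≠ x then 1 else 0 := by
  by_cases h : b = x
  · rw [if_neg (not_not.2 h)]
    exact Finset.sum_eq_zero fun c _ => if_neg fun h1 => h1.1 h
  · rw [if_pos h]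
    refine Eq.trans ?_ (CircFlow_row P b)
    refine Finset.sum_congr rfl fun c _ => ?_
    by_cases h1 : P b = c
    · rw [if_pos h1, if_pos ⟨h, h1⟩]
    · rw [if_neg h1, if_neg (fun h2 => h1 h2.2)]

lemma CircFlow_col {m : ℕ} (P : Equiv.Perm (Fin (m + 1))) (c : Fin (m + 1)) :
    ∑ b, (if P b = c then 1 else 0) = 1 := by
  rw [Finset.sum_eq_single (P.symm c)]
  · rw [if_pos (P.apply_symm_apply c)]
  · intro b _ hb
    rw [if_neg]
    intro h1
    exact hb (by rw [← h1, P.symm_apply_apply])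
  · intro h1
    exact absurd (Finset.mem_univ _) h1

lemma CircFlow_col' {m : ℕ} (P : Equiv.Perm (Fin (m + 1))) (x : Fin (m + 1)) (hx : P x = x)
    (c : Fin (m + 1)) :
    ∑ b, (if b ≠ x ∧ P b = c then 1 else 0) = if c ≠ x then 1 else 0 := by
  by_cases h : c = x
  · rw [if_neg (not_not.2 h)]
    refine Finset.sum_eq_zero fun b _ => if_neg fun h1 => h1.1 ?_
    apply P.injective
    rw [hx, h1.2, h]
  · rw [if_pos h]
    refine Eq.trans ?_ (CircFlow_col P c)
    refine Finset.sum_congr rfl fun b _ => ?_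
    by_cases h1 : P b = c
    · rw [if_pos h1, if_pos]
      refine ⟨?_, h1⟩
      rintro rfl
      exact h (by rw [← h1, hx])
    · rw [if_neg h1, if_neg (fun h2 => h1 h2.2)]

lemma CircFlow_th {m : ℕ} (hm : 2 ≤ m) (b c : Fin (m + 1))
    (h : c.val = b.val + 1 ∨ (b.val = m ∧ (c.val = 0 ∨ c.val = 1)) ∨ (b.val = 0 ∧ c.val = 2)) :
    (((c.val - 1 : ℕ) : ZMod m) = ((b.val - 1 : ℕ) : ZMod m) + 1) ∨
      (b.val = 0 ∧ c.val = 1 ∧ ((c.val - 1 : ℕ) : ZMod m) = ((b.val - 1 : ℕ) : ZMod m)) := by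
  rcases h with h | ⟨h1, h2⟩ | ⟨h1, h2⟩
  · by_cases h0 : b.val = 0
    · right
      rw [h, h0]
      exact ⟨rfl, rfl, rfl⟩
    · left
      obtain ⟨k, hk⟩ := Nat.exists_eq_succ_of_ne_zero h0
      rw [h, hk, Nat.add_sub_cancel, Nat.succ_sub_one, Nat.cast_succ]
  · left
    have h3 : c.val - 1 = 0 := by omega
    have h4 : b.val - 1 + 1 = m := by omega
    rw [h3, ← Nat.cast_succ, Nat.succ_eq_add_one, h4, ZMod.natCast_self, Nat.cast_zero]
  · left
    rw [h1, h2]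
    norm_num

/-- The next box. -/
def CircFlow_P (m : ℕ) : Equiv.Perm (Fin (m + 1)) := Equiv.addRight 1

lemma CircFlow_P_val {m : ℕ} (b : Fin (m + 1)) :
    (CircFlow_P m b).val = if b.val = m then 0 else b.val + 1 := by
  show (b + 1).val = _
  rw [Fin.val_add_one]
  by_cases h : b = Fin.last m
  · rw [if_pos h, if_pos (by rw [h]; rfl)]
  · have h2 : ¬ b.val = m := fun h1 => h (Fin.ext h1)
    rw [if_neg h, if_neg h2]

/-- The next box, with the box `x + 1` replaced by `x`. -/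
def CircFlow_Q (m : ℕ) (x : Fin (m + 1)) : Equiv.Perm (Fin (m + 1)) :=
  (CircFlow_P m).trans (Equiv.swap x (x + 1))

lemma CircFlow_Q_fix {m : ℕ} (x : Fin (m + 1)) : CircFlow_Q m x x = x := by
  show Equiv.swap x (x + 1) (x + 1) = x
  rw [Equiv.swap_apply_right]

lemma CircFlow_Q_val {m : ℕ} {x : Fin (m + 1)} (hx : x.val < m) {b : Fin (m + 1)} (hb : b ≠ x) :
    (CircFlow_Q m x b).val =
      if (CircFlow_P m b).val = x.val then x.val + 1 else (CircFlow_P m b).val := by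
  show (Equiv.swap x (x + 1) (CircFlow_P m b)).val = _
  have h1 : (x + 1).val = x.val + 1 := by
    rw [Fin.val_add_one, if_neg]
    rintro h
    rw [h] at hx
    exact lt_irrefl _ hx
  by_cases h : CircFlow_P m b = x
  · rw [if_pos (congrArg Fin.val h), h, Equiv.swap_apply_left, h1]
  · rw [if_neg (fun h2 => h (Fin.ext h2)), Equiv.swap_apply_of_ne_of_ne h]
    intro h3
    exact hb ((CircFlow_P m).injective h3)

/-- `n = 3 m + 2` -/
lemma flow_two (m : ℕ) (hm : 2 ≤ m) : ∃ (box : Fin (3 * m + 2) → Fin (m + 1))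
    (L : Fin (m + 1) → Fin (m + 1) → ℝ) (th : Fin (m + 1) → ZMod m), Flow box L ∧
    ∀ b c, L b c ≠ 0 → th c = th b + 1 ∨ (b.val = 0 ∧ c.val = 1 ∧ th c = th b) := by
  have h0 : ((0 : Fin (m + 1)).val) = 0 := rfl
  have hrc : ∀ b : Fin (m + 1), (b ≠ 0 ↔ ¬ b.val = 0) := fun b =>
    not_congr ⟨fun h => by rw [h]; rfl, fun h => Fin.ext h⟩
  obtain ⟨box, hbox⟩ := CircFlow_mk (n := 3 * m + 2) (m := m) (fun b => if b.val = 0 then 2 else 3)
    (fun b c => 2 * (if CircFlow_P m b = c then 1 else 0) +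
      (if b ≠ 0 ∧ CircFlow_Q m 0 b = c then 1 else 0))
    (fun b => by
      rw [Finset.sum_add_distrib, ← Finset.mul_sum, CircFlow_row, CircFlow_row']
      by_cases h : b.val = 0
      · rw [if_neg (fun h1 => (hrc b).1 h1 h), if_pos h]
        rfl
      · rw [if_pos ((hrc b).2 h), if_neg h]
        rfl)
    (fun c => by
      rw [Finset.sum_add_distrib, ← Finset.mul_sum, CircFlow_col,
        CircFlow_col' _ _ (CircFlow_Q_fix 0)]
      by_cases h : c.val = 0
      · rw [if_neg (fun h1 => (hrc c).1 h1 h), if_pos h]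
        rfl
      · rw [if_pos ((hrc c).2 h), if_neg h]
        rfl)
    (fun b => by split_ifs <;> norm_num)
    (by
      rw [Fin.sum_univ_succ]
      simp
      ring)
  refine ⟨box, _, fun b => ((b.val - 1 : ℕ) : ZMod m), hbox, fun b c hbc => ?_⟩
  refine CircFlow_th hm b c ?_
  by_contra hcon
  apply hbc
  have h1 : ¬ CircFlow_P m b = c := by
    rintro rfl
    apply hcon
    rw [CircFlow_P_val]
    split_ifs with h
    · exact Or.inr (Or.inl ⟨h, Or.inl rfl⟩)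
    · exact Or.inl rfl
  have h2 : ¬ (b ≠ 0 ∧ CircFlow_Q m 0 b = c) := by
    rintro ⟨hb, rfl⟩
    apply hcon
    rw [CircFlow_Q_val (by rw [h0]; omega) hb, CircFlow_P_val, h0]
    have h4 := (hrc b).1 hb
    by_cases h5 : b.val = m
    · rw [if_pos h5, if_pos rfl]
      exact Or.inr (Or.inl ⟨h5, Or.inr rfl⟩)
    · rw [if_neg h5, if_neg (Nat.succ_ne_zero _)]
      exact Or.inl rfl
  show (((2 * (if CircFlow_P m b = c then 1 else 0) +
      (if b ≠ 0 ∧ CircFlow_Q m 0 b = c then 1 else 0) : ℕ)) : ℝ) / _ = 0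
  rw [if_neg h1, if_neg h2]
  norm_num

/-- `n = 3 m + 1` -/
lemma flow_one (m : ℕ) (hm : 2 ≤ m) : ∃ (box : Fin (3 * m + 1) → Fin (m + 1))
    (L : Fin (m + 1) → Fin (m + 1) → ℝ) (th : Fin (m + 1) → ZMod m), Flow box L ∧
    ∀ b c, L b c ≠ 0 → th c = th b + 1 ∨ (b.val = 0 ∧ c.val = 1 ∧ th c = th b) := by
  have h0 : ((0 : Fin (m + 1)).val) = 0 := rfl
  have h1v : ((1 : Fin (m + 1)).val) = 1 := by
    rw [Fin.val_one', Nat.mod_eq_of_lt (by omega)]
  have hrc : ∀ b : Fin (m + 1), (b ≠ 0 ↔ ¬ b.val = 0) := fun b =>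
    not_congr ⟨fun h => by rw [h]; rfl, fun h => Fin.ext h⟩
  have hrc1 : ∀ b : Fin (m + 1), (b ≠ 1 ↔ ¬ b.val = 1) := fun b =>
    not_congr ⟨fun h => by rw [h]; exact h1v, fun h => Fin.ext (h.trans h1v.symm)⟩
  have hs : ∀ b : Fin (m + 1), 1 + (if b ≠ 0 then 1 else 0) + (if b ≠ 1 then 1 else 0) =
      (if b.val ≤ 1 then 2 else 3) := by
    intro b
    by_cases h : b.val = 0
    · rw [if_neg (fun h1 => (hrc b).1 h1 h), if_pos ((hrc1 b).2 (by omega)), if_pos (by omega)]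
    · by_cases h' : b.val = 1
      · rw [if_pos ((hrc b).2 h), if_neg (fun h1 => (hrc1 b).1 h1 h'), if_pos (by omega)]
      · rw [if_pos ((hrc b).2 h), if_pos ((hrc1 b).2 h'), if_neg (by omega)]
  obtain ⟨box, hbox⟩ := CircFlow_mk (n := 3 * m + 1) (m := m) (fun b => if b.val ≤ 1 then 2 else 3)
    (fun b c => (if CircFlow_P m b = c then 1 else 0) +
      (if b ≠ 0 ∧ CircFlow_Q m 0 b = c then 1 else 0) +
      (if b ≠ 1 ∧ CircFlow_Q m 1 b = c then 1 else 0))
    (fun b => by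
      rw [Finset.sum_add_distrib, Finset.sum_add_distrib, CircFlow_row, CircFlow_row',
        CircFlow_row']
      exact hs b)
    (fun c => by
      rw [Finset.sum_add_distrib, Finset.sum_add_distrib, CircFlow_col,
        CircFlow_col' _ _ (CircFlow_Q_fix 0), CircFlow_col' _ _ (CircFlow_Q_fix 1)]
      exact hs c)
    (fun b => by split_ifs <;> norm_num)
    (by
      obtain ⟨k, rfl⟩ : ∃ k, m = k + 1 := ⟨m - 1, by omega⟩
      rw [Fin.sum_univ_succ, Fin.sum_univ_succ]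
      simp
      ring)
  refine ⟨box, _, fun b => ((b.val - 1 : ℕ) : ZMod m), hbox, fun b c hbc => ?_⟩
  refine CircFlow_th hm b c ?_
  by_contra hcon
  apply hbc
  have h1 : ¬ CircFlow_P m b = c := by
    rintro rfl
    apply hcon
    rw [CircFlow_P_val]
    split_ifs with h
    · exact Or.inr (Or.inl ⟨h, Or.inl rfl⟩)
    · exact Or.inl rfl
  have h2 : ¬ (b ≠ 0 ∧ CircFlow_Q m 0 b = c) := by
    rintro ⟨hb, rfl⟩
    apply hcon
    rw [CircFlow_Q_val (by rw [h0]; omega) hb, CircFlow_P_val, h0]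
    have h4 := (hrc b).1 hb
    by_cases h5 : b.val = m
    · rw [if_pos h5, if_pos rfl]
      exact Or.inr (Or.inl ⟨h5, Or.inr rfl⟩)
    · rw [if_neg h5, if_neg (Nat.succ_ne_zero _)]
      exact Or.inl rfl
  have h3 : ¬ (b ≠ 1 ∧ CircFlow_Q m 1 b = c) := by
    rintro ⟨hb, rfl⟩
    apply hcon
    rw [CircFlow_Q_val (by rw [h1v]; omega) hb, CircFlow_P_val, h1v]
    have h4 := (hrc1 b).1 hb
    by_cases h5 : b.val = m
    · rw [if_pos h5, if_neg (by omega)]
      exact Or.inr (Or.inl ⟨h5, Or.inl rfl⟩)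
    · rw [if_neg h5]
      by_cases h6 : b.val = 0
      · rw [if_pos (by omega)]
        exact Or.inr (Or.inr ⟨h6, rfl⟩)
      · rw [if_neg (by omega)]
        exact Or.inl rfl
  show ((((if CircFlow_P m b = c then 1 else 0) +
      (if b ≠ 0 ∧ CircFlow_Q m 0 b = c then 1 else 0) +
      (if b ≠ 1 ∧ CircFlow_Q m 1 b = c then 1 else 0) : ℕ)) : ℝ) / _ = 0
  rw [if_neg h1, if_neg h2, if_neg h3]
  norm_num

end Pool.Agent.H.MP_2d605f_pr
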