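import Pool.Agent.H.MP_2d605f_pr.Marginal

/-! The box scheme is a Markovian avoidance coupling. -/

open Finset

namespace Pool.Agent.H.MP_2d605f_pr

section main
variable {V I P : Type} [Fintype V] [DecidableEq V] [DecidableEq I] [Fintype P]
  {k : ℕ} {loops : Bool} {box : V → I} {b : Fin k → P → I} {R : P → P → ℝ}

/-- The Markovian system of the scheme. -/
noncomputable def sys (H : Good loops box b R) (p0 : P) : MarkovSystem V k where
  init := fun σ => ∏ j, un box b p0 j (σ j)
  step := stepK loops box b R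
  init_nonneg := by
    intro c
    refine Finset.prod_nonneg fun j _ => ?_
    unfold un
    split_ifs <;> positivity
  init_sum := by
    rw [sum_pi_prod (fun j v => un box b p0 j v)]
    exact Finset.prod_eq_one fun j _ => un_sum H p0 j
  step_nonneg := stepK_nonneg H
  step_sum := stepK_sum

lemma un_ne {p : P} {j : Fin k} {v : V} (h : un box b p j v ≠ 0) : box v = b j p := by
  by_contra hcon
  exact h (by unfold un; rw [if_neg hcon])

theorem sys_marginal (H : Good loops box b R) (p0 : P) (i : Fin k) (T : ℕ)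
    (x : Fin (T + 1) → V) :
    (∑ ω : Fin (T + 1) → Fin k → V,
      if (∀ t, ω t i = x t) then (sys H p0).pathProb T ω else 0) =
      (∑ c, if c i = x 0 then (sys H p0).init c else 0) *
        ∏ t : Fin T, srw loops (x t.castSucc) (x t.succ) := by
  have hG : Function.update (un box b p0) i (un box b p0 i) = un box b p0 :=
    Function.update_eq_self i _
  have hz : ∀ v, box v ≠ b i p0 → un box b p0 i v = 0 := by
    intro v hv
    unfold un
    rw [if_neg hv]
  have h1 := path_sum (rp loops box b R) i T x (fun σ => ∏ j, un box b p0 j (σ j))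
  have h2 := avg_W H i T x p0 (un box b p0 i) hz
  have h3 := avg_W H i 0 (fun _ => x 0) p0 (un box b p0 i) hz
  rw [hG] at h2 h3
  have e1 : (∑ ω : Fin (T + 1) → Fin k → V,
      if (∀ t, ω t i = x t) then (sys H p0).pathProb T ω else 0) =
      un box b p0 i (x 0) * ∏ t : Fin T, srw loops (x t.castSucc) (x t.succ) := h1.trans h2
  have e2 : (∑ c, if c i = x 0 then (sys H p0).init c else 0) = un box b p0 i (x 0) := by
    simp only [W, Finset.univ_eq_empty, Finset.prod_empty, mul_one] at h3
    rw [← h3]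
    refine Finset.sum_congr rfl fun c _ => ?_
    split_ifs
    · exact (mul_one _).symm
    · exact (mul_zero _).symm
  rw [e1, e2]

theorem sys_compat (H : Good loops box b R) (p0 : P) (T : ℕ) (ω : Fin (T + 1) → Fin k → V)
    (h : (sys H p0).pathProb T ω ≠ 0) : ∀ t : ℕ, ∀ ht : t < T + 1,
    ∃ p, ∀ j, box (ω ⟨t, ht⟩ j) = b j p := by
  have h0 : (sys H p0).init (ω 0) ≠ 0 := fun h' => h (by unfold MarkovSystem.pathProb; rw [h', zero_mul])
  have h1 : ∀ t : Fin T, (sys H p0).roundProb (ω t.castSucc) (ω t.succ) ≠ 0 := by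
    intro t h'
    refine h ?_
    unfold MarkovSystem.pathProb
    rw [Finset.prod_eq_zero (mem_univ t) h', mul_zero]
  intro t
  induction t with
  | zero =>
    intro ht
    refine ⟨p0, fun j => ?_⟩
    have h2 : ∏ j, un box b p0 j (ω 0 j) ≠ 0 := h0
    exact un_ne (Finset.prod_ne_zero_iff.1 h2 j (mem_univ j))
  | succ t ih =>
    intro ht
    obtain ⟨p, hp⟩ := ih (by omega)
    have ht' : t < T := by omega
    have h2 : ∏ i, stepK loops box b R i (mid (ω ⟨t, by omega⟩) (ω ⟨t + 1, ht⟩) i)
        (ω ⟨t + 1, ht⟩ i) ≠ 0 := h1 ⟨t, ht'⟩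
    rw [round_eq H hp] at h2
    obtain ⟨q, _, hq⟩ := Finset.exists_ne_zero_of_sum_ne_zero h2
    refine ⟨q, fun j => ?_⟩
    have h3 := right_ne_zero_of_mul hq
    have h4 := Finset.prod_ne_zero_iff.1 h3 j (mem_univ j)
    by_contra hcon
    exact h4 (u_ne (fun h' => hcon h'.symm))

theorem sys_avoid (H : Good loops box b R) (p0 : P) (T : ℕ) (ω : Fin (T + 1) → Fin k → V)
    (h : (sys H p0).pathProb T ω ≠ 0) : (∀ t, Function.Injective (ω t)) ∧
      ∀ (t : Fin T) (i : Fin k), Function.Injective (mid (ω t.castSucc) (ω t.succ) i) := by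
  have hc := sys_compat H p0 T ω h
  have inj : ∀ (τ : Fin k → V) (q : P), (∀ j, box (τ j) = b j q) → Function.Injective τ := by
    intro τ q hq a c hac
    exact H.distinct q a c (by rw [← hq a, ← hq c, hac])
  have h1 : ∀ t : Fin T, (sys H p0).roundProb (ω t.castSucc) (ω t.succ) ≠ 0 := by
    intro t h'
    refine h ?_
    unfold MarkovSystem.pathProb
    rw [Finset.prod_eq_zero (mem_univ t) h', mul_zero]
  refine ⟨fun t => ?_, fun t i => ?_⟩
  · obtain ⟨p, hp⟩ := hc t t.2
    exact inj _ p hp
  · obtain ⟨p, hp⟩ := hc t.castSucc t.castSucc.2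
    have hp' : ∀ j, box (ω t.castSucc j) = b j p := hp
    have h2 : ∏ i, stepK loops box b R i (mid (ω t.castSucc) (ω t.succ) i) (ω t.succ i) ≠ 0 := h1 t
    rw [round_eq H hp'] at h2
    obtain ⟨q, _, hq⟩ := Finset.exists_ne_zero_of_sum_ne_zero h2
    have h3 := right_ne_zero_of_mul hq
    have h4 : ∀ j, u loops box b p q j (ω t.castSucc) (ω t.succ j) ≠ 0 :=
      fun j => Finset.prod_ne_zero_iff.1 h3 j (mem_univ j)
    have hq' : ∀ j, box (ω t.succ j) = b j q := by
      intro j
      by_contra hcon
      exact h4 j (u_ne (fun h' => hcon h'.symm))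
    have cross : ∀ a c : Fin k, a < c → ω t.succ a ≠ ω t.castSucc c := by
      intro a c hac heq
      refine h4 a ?_
      rw [u_eq_un, Finset.prod_eq_zero (mem_univ c), mul_zero]
      unfold ph
      rw [if_pos ⟨Or.inl hac, by rw [← hp' c, ← heq, hq' a]⟩, if_pos heq]
    intro a c hac
    unfold mid at hac
    by_cases ha : a < i
    · by_cases hc' : c < i
      · rw [if_pos ha, if_pos hc'] at hac
        exact inj _ q hq' hac
      · rw [if_pos ha, if_neg hc'] at hac
        exact absurd hac (cross a c (lt_of_lt_of_le ha (not_lt.1 hc')))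
    · by_cases hc' : c < i
      · rw [if_neg ha, if_pos hc'] at hac
        exact absurd hac.symm (cross c a (lt_of_lt_of_le hc' (not_lt.1 ha)))
      · rw [if_neg ha, if_neg hc'] at hac
        exact inj _ p hp' hac

theorem sys_coupling (H : Good loops box b R) (p0 : P) :
    IsAvoidanceCoupling loops (sys H p0) :=
  ⟨sys_marginal H p0, sys_avoid H p0⟩

end main

end Pool.Agent.H.MP_2d605f_pr
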