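import Pool.Agent.H.MP_2d605f_pr.CircAvg
import Pool.Agent.H.MP_2d605f_pr.System

/-! Flow schemes give Markovian avoidance couplings. -/

open Finset

namespace Pool.Agent.H.MP_2d605f_pr

section
variable {V I : Type} [Fintype V] [DecidableEq V] [Fintype I] [DecidableEq I]
  {box : V → I} {L : I → I → ℝ}

lemma R1_hh (F : Flow box L) {k : ℕ} (p : Fin (k + 1) → I) (i : Fin (k + 1)) {s : V}
    (hs : box s = p i) (y : V) (q : Fin (k + 1) → I) (hq : q i = box y) :
    R1 box (p i) (box y) * hh false box ev p q i s i y = srw false s y := by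
  have hc : (2 : ℝ) ≤ sz box (box y) := by exact_mod_cast F.two (box y)
  have hc0 : (sz box (box y) : ℝ) ≠ 0 := by linarith
  have hc1 : (sz box (box y) : ℝ) - 1 ≠ 0 := by linarith
  unfold R1 hh un ph srw ev
  rw [hq, if_pos rfl]
  simp only [lt_irrefl, false_or, and_self, true_and, Bool.false_eq_true, if_false]
  by_cases h : p i = box y
  · rw [if_pos h, if_pos h]
    by_cases hys : y = s
    · rw [if_pos hys, if_pos hys.symm]; ring
    · rw [if_neg hys, if_neg (fun h' => hys h'.symm)]
      field_simp
  · rw [if_neg h, if_neg h]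
    have hys : s ≠ y := by
      intro h'
      exact h (by rw [← hs, h'])
    rw [if_neg hys]
    field_simp
    ring

/-- the factor of `AA_succ` -/
noncomputable def CircSys_ka (box : V → I) (s y : V) : ℝ :=
  (1 / (sz box (box y) : ℝ)) * (if box s = box y then
    (if y = s then 0 else (sz box (box y) : ℝ) / (sz box (box y) - 1)) else 1)

lemma CircSys_hh {k : ℕ} (p q : Fin (k + 1) → I) (i : Fin (k + 1)) {s y : V}
    (hs : box s = p i) : hh false box ev p q i s i y =
      if q i = box y then CircSys_ka box s y else 0 := by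
  unfold hh un ph ev CircSys_ka
  by_cases h : q i = box y
  · rw [if_pos h, if_pos h.symm, h, ← hs]
    simp only [lt_irrefl, false_or, and_self, true_and]
  · rw [if_neg h, if_neg (fun h' => h h'.symm), zero_mul]

/-- The main average. -/
lemma sum_AA (F : Flow box L) {k : ℕ}
    (hinj : ∀ p : Fin (k + 1) → I, Sup L p → Function.Injective p) (i : Fin (k + 1)) :
    ∀ (T : ℕ) (x : Fin (T + 1) → V) (w2 : (Fin (k + 1) → I) → ℝ), Ind i w2 →
      (∀ p, CC L i p * w2 p ≠ 0 → Sup L p ∧ p i = box (x 0)) →
      ∑ p, CC L i p * w2 p * AA box L i T x p =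
        (∑ p, CC L i p * w2 p) * ∏ t : Fin T, srw false (x t.castSucc) (x t.succ) := by
  intro T
  induction T with
  | zero =>
    intro x w2 _ _
    simp only [Finset.univ_eq_empty, Finset.prod_empty, mul_one]
    exact Finset.sum_congr rfl fun p _ => by rw [AA_zero F i x p, mul_one]
  | succ T ih =>
    intro x w2 hw hp
    obtain ⟨w2', hw', he⟩ := RR_pres F i w2 hw
    have e1 : ∀ p, CC L i p * w2 p * AA box L i (T + 1) x p =
        CircSys_ka box (x 0) (x 1) * ∑ q, (CC L i p * w2 p * RR box L p q) *
          ((if q i = box (x 1) then 1 else 0) * AA box L i T (Fin.tail x) q) := by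
      intro p
      by_cases h0 : CC L i p * w2 p = 0
      · simp [h0]
      · obtain ⟨hS, hb⟩ := hp p h0
        rw [AA_succ F hinj i T x p hS hb.symm, Finset.mul_sum, Finset.mul_sum]
        refine Finset.sum_congr rfl fun q _ => ?_
        rw [CircSys_hh p q i hb.symm]
        split_ifs <;> ring
    simp only [e1]
    rw [← Finset.mul_sum, Finset.sum_comm]
    have e2 : ∀ q, ∑ p, (CC L i p * w2 p * RR box L p q) *
          ((if q i = box (x 1) then 1 else 0) * AA box L i T (Fin.tail x) q) =
        CC L i q * (w2' q * (if q i = box (x 1) then 1 else 0)) *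
          AA box L i T (Fin.tail x) q := by
      intro q
      rw [← Finset.sum_mul, he q]
      ring
    simp only [e2]
    have hInd : Ind i (fun q => w2' q * (if q i = box (x 1) then (1 : ℝ) else 0)) := by
      intro q q' hqq
      simp only
      rw [hw' q q' hqq, hqq i le_rfl]
    have e3 := ih (Fin.tail x) (fun q => w2' q * (if q i = box (x 1) then (1 : ℝ) else 0)) hInd
      (by
        intro q hq
        have h1 : q i = box (x 1) := by
          by_contra hcon
          exact hq (by rw [if_neg hcon]; ring)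
        refine ⟨?_, h1⟩
        rw [if_pos h1, mul_one, ← he q] at hq
        obtain ⟨p, _, hp'⟩ := Finset.exists_ne_zero_of_sum_ne_zero hq
        exact RR_sup F (hp p (left_ne_zero_of_mul hp')).1 (right_ne_zero_of_mul hp'))
    rw [e3]
    have e4 : ∑ q, CC L i q * (w2' q * (if q i = box (x 1) then (1 : ℝ) else 0)) =
        (∑ p, CC L i p * w2 p) * R1 box (box (x 0)) (box (x 1)) := by
      have h5 := RR_marg F i w2 hw (fun C => if C = box (x 1) then (1 : ℝ) else 0)
      rw [Finset.sum_mul]
      calc ∑ q, CC L i q * (w2' q * (if q i = box (x 1) then (1 : ℝ) else 0))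
          = ∑ q : Fin (k + 1) → I, (∑ p, CC L i p * w2 p * RR box L p q) *
              (if q i = box (x 1) then (1 : ℝ) else 0) := by
            refine Finset.sum_congr rfl fun q _ => ?_
            rw [he q]; ring
        _ = _ := h5
        _ = _ := by
            refine Finset.sum_congr rfl fun p _ => ?_
            by_cases h0 : CC L i p * w2 p = 0
            · rw [h0, zero_mul, zero_mul]
            · rw [(hp p h0).2]
              congr 1
              simp
    rw [e4]
    have hsucc : ∏ t : Fin (T + 1), srw false (x t.castSucc) (x t.succ) =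
        srw false (x 0) (x 1) *
          ∏ t : Fin T, srw false (Fin.tail x t.castSucc) (Fin.tail x t.succ) := by
      rw [Fin.prod_univ_succ]
      rfl
    have e5 : R1 box (box (x 0)) (box (x 1)) * CircSys_ka box (x 0) (x 1) =
        srw false (x 0) (x 1) := by
      have h6 := R1_hh F (k := k) (fun _ => box (x 0)) i (s := x 0) rfl (x 1)
        (fun _ => box (x 1)) rfl
      rw [CircSys_hh (k := k) (fun _ => box (x 0)) (fun _ => box (x 1)) i rfl, if_pos rfl] at h6
      exact h6
    rw [hsucc, ← e5]
    ring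

/-- The initial law. -/
noncomputable def initC (box : V → I) (L : I → I → ℝ) {k : ℕ} (B0 : I)
    (σ : Fin (k + 1) → V) : ℝ :=
  ∑ p : Fin (k + 1) → I, (if p (Fin.last k) = B0 then (1 : ℝ) else 0) *
    CC L (Fin.last k) p * ∏ j, un box ev p j (σ j)

lemma initC_nonneg (F : Flow box L) {k : ℕ} (B0 : I) (σ : Fin (k + 1) → V) :
    0 ≤ initC box L B0 σ := by
  unfold initC
  refine Finset.sum_nonneg fun p _ => mul_nonneg (mul_nonneg ?_ ?_) ?_
  · split_ifs <;> norm_num
  · unfold CC
    refine Finset.prod_nonneg fun j _ => ?_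
    split_ifs
    · exact F.nn _ _
    · norm_num
  · refine Finset.prod_nonneg fun j _ => ?_
    unfold un
    split_ifs <;> positivity

lemma initC_sum (F : Flow box L) {k : ℕ} (B0 : I) :
    ∑ σ : Fin (k + 1) → V, initC box L B0 σ = 1 := by
  unfold initC
  rw [Finset.sum_comm]
  refine Eq.trans ?_ (mu_sum F B0 (k := k))
  refine Finset.sum_congr rfl fun p _ => ?_
  rw [← Finset.mul_sum, sum_pi_prod (fun j v => un box ev p j v), Finset.prod_eq_one, mul_one]
  intro j _
  exact CircAvg_un_sum F p j

lemma initC_sup (F : Flow box L) {k : ℕ} (B0 : I) {σ : Fin (k + 1) → V}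
    (h : initC box L B0 σ ≠ 0) : Sup L (fun j => box (σ j)) := by
  unfold initC at h
  obtain ⟨p, _, hp⟩ := Finset.exists_ne_zero_of_sum_ne_zero h
  have h1 := right_ne_zero_of_mul hp
  have h2 := right_ne_zero_of_mul (left_ne_zero_of_mul hp)
  have h3 : ∀ j, box (σ j) = p j := fun j => un_ne (Finset.prod_ne_zero_iff.1 h1 j (mem_univ j))
  intro j
  simp only [h3]
  have h4 := Finset.prod_ne_zero_iff.1 h2 j (mem_univ j)
  rw [if_pos (Fin.castSucc_lt_last j)] at h4
  exact h4

/-- The Markovian system of a flow scheme. -/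
noncomputable def sysC (F : Flow box L) (k : ℕ) (B0 : I) : MarkovSystem V (k + 1) where
  init := initC box L B0
  step := stepC box L
  init_nonneg := initC_nonneg F B0
  init_sum := initC_sum F B0
  step_nonneg := stepC_nonneg F
  step_sum := stepC_sum

/-- the weight above walker `i` -/
noncomputable def CircSys_w (box : V → I) (L : I → I → ℝ) {k : ℕ} (B0 : I) (i : Fin (k + 1))
    (s : V) (p : Fin (k + 1) → I) : ℝ :=
  (if p (Fin.last k) = B0 then (1 : ℝ) else 0) *
    (∏ j : Fin k, if j.castSucc < i then 1 else L (p j.succ) (p j.castSucc)) * un box ev p i s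

lemma CircSys_w_ind {k : ℕ} (B0 : I) (i : Fin (k + 1)) (s : V) :
    Ind i (CircSys_w box L B0 i s) := by
  intro p p' h
  unfold CircSys_w
  rw [h (Fin.last k) (Fin.le_last i)]
  congr 1
  · congr 1
    refine Finset.prod_congr rfl fun j _ => ?_
    by_cases hj : j.castSucc < i
    · rw [if_pos hj, if_pos hj]
    · have h1 : i ≤ j.castSucc := not_lt.1 hj
      rw [if_neg hj, if_neg hj, h _ h1, h _ (h1.trans (Fin.castSucc_lt_succ (i := j)).le)]
  · unfold un ev
    rw [h i le_rfl]

lemma CircSys_split {k : ℕ} (B0 : I) (i : Fin (k + 1)) (s : V) (p : Fin (k + 1) → I) :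
    (if p (Fin.last k) = B0 then (1 : ℝ) else 0) * CC L (Fin.last k) p * un box ev p i s =
      CC L i p * CircSys_w box L B0 i s p := by
  unfold CircSys_w CC
  have h1 : ∏ j : Fin k, (if j.castSucc < Fin.last k then L (p j.succ) (p j.castSucc) else 1) =
      (∏ j : Fin k, if j.castSucc < i then L (p j.succ) (p j.castSucc) else 1) *
        ∏ j : Fin k, if j.castSucc < i then 1 else L (p j.succ) (p j.castSucc) := by
    rw [← Finset.prod_mul_distrib]
    refine Finset.prod_congr rfl fun j _ => ?_
    rw [if_pos (Fin.castSucc_lt_last j)]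
    split_ifs
    · rw [mul_one]
    · rw [one_mul]
  rw [h1]
  ring

lemma CircSys_sup {k : ℕ} (B0 : I) (i : Fin (k + 1)) (s : V) (p : Fin (k + 1) → I)
    (h : CC L i p * CircSys_w box L B0 i s p ≠ 0) : Sup L p ∧ p i = box s := by
  rw [← CircSys_split] at h
  refine ⟨?_, (un_ne (right_ne_zero_of_mul h)).symm⟩
  intro j
  have h2 := right_ne_zero_of_mul (left_ne_zero_of_mul h)
  have h4 := Finset.prod_ne_zero_iff.1 h2 j (mem_univ j)
  rw [if_pos (Fin.castSucc_lt_last j)] at h4
  exact h4

lemma CircSys_init (F : Flow box L) {k : ℕ}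
    (hinj : ∀ p : Fin (k + 1) → I, Sup L p → Function.Injective p) (B0 : I) (i : Fin (k + 1))
    (T : ℕ) (x : Fin (T + 1) → V) :
    ∑ σ, initC box L B0 σ * W (rpC box L) i T x σ =
      (∑ p, CC L i p * CircSys_w box L B0 i (x 0) p) *
        ∏ t : Fin T, srw false (x t.castSucc) (x t.succ) := by
  rw [← sum_AA F hinj i T x (CircSys_w box L B0 i (x 0)) (CircSys_w_ind B0 i (x 0))
    (CircSys_sup B0 i (x 0))]
  unfold initC
  simp only [Finset.sum_mul]
  rw [Finset.sum_comm]
  refine Finset.sum_congr rfl fun p _ => ?_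
  rw [← CircSys_split]
  unfold AA
  rw [Finset.mul_sum]
  refine Finset.sum_congr rfl fun σ _ => ?_
  by_cases hσ : σ i = x 0
  · have h6 : ∏ j, Function.update (un box ev p) i (fun v => if v = x 0 then 1 else 0) j (σ j) =
        ∏ j ∈ univ.erase i, un box ev p j (σ j) := by
      rw [← Finset.mul_prod_erase univ _ (mem_univ i), Function.update_self, if_pos hσ, one_mul]
      refine Finset.prod_congr rfl fun j hj => ?_
      rw [Function.update_of_ne (Finset.ne_of_mem_erase hj)]
    rw [h6, ← Finset.mul_prod_erase univ (fun j => un box ev p j (σ j)) (mem_univ i), hσ]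
    ring
  · rw [CircAvg_W_ind (rpC box L) i T x σ hσ]
    ring

theorem sysC_marginal (F : Flow box L) {k : ℕ}
    (hinj : ∀ p : Fin (k + 1) → I, Sup L p → Function.Injective p) (B0 : I) (i : Fin (k + 1))
    (T : ℕ) (x : Fin (T + 1) → V) :
    (∑ ω : Fin (T + 1) → Fin (k + 1) → V,
      if (∀ t, ω t i = x t) then (sysC F k B0).pathProb T ω else 0) =
      (∑ c, if c i = x 0 then (sysC F k B0).init c else 0) *
        ∏ t : Fin T, srw false (x t.castSucc) (x t.succ) := by
  have h1 := path_sum (rpC box L) i T x (initC box L B0 (k := k))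
  have h2 := CircSys_init F hinj B0 i T x
  have h3 := CircSys_init F hinj B0 i 0 (fun _ => x 0)
  have e1 : (∑ ω : Fin (T + 1) → Fin (k + 1) → V,
      if (∀ t, ω t i = x t) then (sysC F k B0).pathProb T ω else 0) = _ := h1.trans h2
  have e2 : (∑ c, if c i = x 0 then (sysC F k B0).init c else 0) =
      ∑ p, CC L i p * CircSys_w box L B0 i (x 0) p := by
    simp only [W, Finset.univ_eq_empty, Finset.prod_empty, mul_one] at h3
    rw [← h3]
    refine Finset.sum_congr rfl fun c _ => ?_
    split_ifs
    · exact (mul_one _).symm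
    · exact (mul_zero _).symm
  rw [e1, e2]

theorem CircSys_compat (F : Flow box L) {k : ℕ}
    (hinj : ∀ p : Fin (k + 1) → I, Sup L p → Function.Injective p) (B0 : I) (T : ℕ)
    (ω : Fin (T + 1) → Fin (k + 1) → V) (h : (sysC F k B0).pathProb T ω ≠ 0) :
    ∀ t : ℕ, ∀ ht : t < T + 1, Sup L (fun j => box (ω ⟨t, ht⟩ j)) := by
  have h0 : (sysC F k B0).init (ω 0) ≠ 0 := fun h' => h (by
    unfold MarkovSystem.pathProb; rw [h', zero_mul])
  have h1 : ∀ t : Fin T, (sysC F k B0).roundProb (ω t.castSucc) (ω t.succ) ≠ 0 := by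
    intro t h'
    refine h ?_
    unfold MarkovSystem.pathProb
    rw [Finset.prod_eq_zero (mem_univ t) h', mul_zero]
  intro t
  induction t with
  | zero =>
    intro ht
    exact initC_sup F B0 h0
  | succ t ih =>
    intro ht
    have hp := ih (by omega)
    have ht' : t < T := by omega
    have h2 : rpC box L (ω ⟨t, by omega⟩) (ω ⟨t + 1, ht⟩) ≠ 0 := h1 ⟨t, ht'⟩
    rw [round_eqC F (hinj _ hp)] at h2
    exact RR_sup F hp (left_ne_zero_of_mul h2)

theorem sysC_avoid (F : Flow box L) {k : ℕ}
    (hinj : ∀ p : Fin (k + 1) → I, Sup L p → Function.Injective p) (B0 : I) (T : ℕ)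
    (ω : Fin (T + 1) → Fin (k + 1) → V) (h : (sysC F k B0).pathProb T ω ≠ 0) :
    (∀ t, Function.Injective (ω t)) ∧
      ∀ (t : Fin T) (i : Fin (k + 1)), Function.Injective (mid (ω t.castSucc) (ω t.succ) i) := by
  have hc := CircSys_compat F hinj B0 T ω h
  have inj : ∀ (τ : Fin (k + 1) → V), Sup L (fun j => box (τ j)) → Function.Injective τ := by
    intro τ hτ a c hac
    refine hinj _ hτ ?_
    show box (τ a) = box (τ c)
    rw [hac]
  have h1 : ∀ t : Fin T, (sysC F k B0).roundProb (ω t.castSucc) (ω t.succ) ≠ 0 := by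
    intro t h'
    refine h ?_
    unfold MarkovSystem.pathProb
    rw [Finset.prod_eq_zero (mem_univ t) h', mul_zero]
  refine ⟨fun t => inj _ (hc t t.2), fun t i => ?_⟩
  have hp : Sup L (fun j => box (ω t.castSucc j)) := hc t.castSucc t.castSucc.2
  have hq : Sup L (fun j => box (ω t.succ j)) := hc t.succ t.succ.2
  have h2 : rpC box L (ω t.castSucc) (ω t.succ) ≠ 0 := h1 t
  rw [round_eqC F (hinj _ hp)] at h2
  have h3 := right_ne_zero_of_mul h2
  have h4 := fun j => Finset.prod_ne_zero_iff.1 h3 j (mem_univ j)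
  have cross : ∀ a c : Fin (k + 1), a < c → ω t.succ a ≠ ω t.castSucc c := by
    intro a c hac heq
    refine h4 a ?_
    rw [u_eq_un, Finset.prod_eq_zero (mem_univ c), mul_zero]
    unfold ph ev
    have h5 : (fun j => box (ω t.castSucc j)) c = (fun j => box (ω t.succ j)) a := by
      show box (ω t.castSucc c) = box (ω t.succ a)
      rw [heq]
    rw [if_pos ⟨Or.inl hac, h5⟩, if_pos heq]
  intro a c hac
  unfold mid at hac
  by_cases ha : a < i
  · by_cases hc' : c < i
    · rw [if_pos ha, if_pos hc'] at hac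
      exact inj _ hq hac
    · rw [if_pos ha, if_neg hc'] at hac
      exact absurd hac (cross a c (lt_of_lt_of_le ha (not_lt.1 hc')))
  · by_cases hc' : c < i
    · rw [if_neg ha, if_pos hc'] at hac
      exact absurd hac.symm (cross c a (lt_of_lt_of_le hc' (not_lt.1 ha)))
    · rw [if_neg ha, if_neg hc'] at hac
      exact inj _ hp hac

theorem sysC_coupling (F : Flow box L) {k : ℕ}
    (hinj : ∀ p : Fin (k + 1) → I, Sup L p → Function.Injective p) (B0 : I) :
    IsAvoidanceCoupling false (sysC F k B0) :=
  ⟨sysC_marginal F hinj B0, sysC_avoid F hinj B0⟩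

end

end Pool.Agent.H.MP_2d605f_pr
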