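import Pool.Agent.H.MP_2d605f_pr.System

/-! Instances of the box scheme. -/

open Finset

namespace Pool.Agent.H.MP_2d605f_pr

lemma card_fin_Ico {n : ℕ} (pr : Fin n → Prop) [DecidablePred pr] (a c : ℕ) (hc : c ≤ n)
    (h : ∀ v : Fin n, pr v ↔ a ≤ (v : ℕ) ∧ (v : ℕ) < c) :
    (univ.filter pr).card = c - a := by
  have e : (univ.filter pr).map Fin.valEmbedding = Finset.Ico a c := by
    ext v
    simp only [mem_map, mem_filter, mem_univ, true_and, Fin.valEmbedding_apply, Finset.mem_Ico]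
    constructor
    · rintro ⟨w, hw, rfl⟩
      exact (h w).1 hw
    · rintro ⟨h1, h2⟩
      exact ⟨⟨v, by omega⟩, (h _).2 ⟨h1, h2⟩, rfl⟩
  rw [← Finset.card_map Fin.valEmbedding, e, Nat.card_Ico]

/-- equal boxes -/
def box1 (m n : ℕ) (v : Fin n) : ℕ := v / m

lemma sz_box1 {m N n : ℕ} (hm : 0 < m) (hn : n = m * N) {B : ℕ} (hB : B < N) :
    sz (box1 m n) B = m := by
  unfold sz
  have hc : B * m + m ≤ n := by
    rw [hn]
    calc B * m + m = m * (B + 1) := by ring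
      _ ≤ m * N := Nat.mul_le_mul_left _ hB
  rw [card_fin_Ico _ (B * m) (B * m + m) hc]
  · omega
  · intro v
    unfold box1
    rw [Nat.div_eq_iff hm]
    constructor
    · rintro ⟨h1, h2⟩
      omega
    · rintro ⟨h1, h2⟩
      omega

/-- base with cyclic shifts -/
def b1 (k N : ℕ) (i : Fin k) (p : Fin N) : ℕ := ((p : ℕ) + i) % N

lemma b1_inj {k N : ℕ} {i : Fin k} {p q : Fin N} (h : b1 k N i p = b1 k N i q) : p = q := by
  have h1 : ((p : ℕ) + i) ≡ ((q : ℕ) + i) [MOD N] := h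
  have h2 : (p : ℕ) ≡ (q : ℕ) [MOD N] := Nat.ModEq.add_right_cancel' _ h1
  exact Fin.ext (Nat.ModEq.eq_of_lt_of_lt h2 p.2 q.2)

lemma b1_distinct {k N : ℕ} (hk : k ≤ N) {i j : Fin k} {p : Fin N} (h : b1 k N i p = b1 k N j p) :
    i = j := by
  have h1 : ((p : ℕ) + i) ≡ ((p : ℕ) + j) [MOD N] := h
  have h2 : (i : ℕ) ≡ (j : ℕ) [MOD N] := Nat.ModEq.add_left_cancel' _ h1
  exact Fin.ext (Nat.ModEq.eq_of_lt_of_lt h2 (by omega) (by omega))

lemma b1_surj {k N : ℕ} (i : Fin k) {B : ℕ} (hB : B < N) : ∃ q : Fin N, b1 k N i q = B := by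
  have hN : 0 < N := by omega
  have hinj : Function.Injective (fun q : Fin N => (⟨b1 k N i q, Nat.mod_lt _ hN⟩ : Fin N)) := by
    intro p q h
    exact b1_inj (Fin.mk.inj_iff.1 h)
  obtain ⟨q, hq⟩ := (Finite.surjective_of_injective hinj) ⟨B, hB⟩
  exact ⟨q, Fin.mk.inj_iff.1 hq⟩

lemma sum_b1 {k N : ℕ} (i : Fin k) (f : Fin N → ℝ) {B : ℕ} {q : Fin N} (hq : b1 k N i q = B) :
    (∑ q', if b1 k N i q' = B then f q' else 0) = f q := by
  rw [Finset.sum_eq_single q]
  · rw [if_pos hq]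
  · intro q' _ hne
    rw [if_neg]
    intro h
    exact hne (b1_inj (h.trans hq.symm))
  · intro h; exact absurd (mem_univ _) h

lemma good1 {k m N n : ℕ} (hk : 1 ≤ k) (hm : 2 ≤ m) (hn : n = m * N) (hkN : k ≤ N) :
    Good true (box1 m n) (b1 k N) (fun _ _ => 1 / (N : ℝ)) := by
  have hN : 0 < N := by omega
  have hN' : (0 : ℝ) < N := by exact_mod_cast hN
  have hm' : (0 : ℝ) < m := by exact_mod_cast (by omega : 0 < m)
  have hb : ∀ (i : Fin k) (p : Fin N), b1 k N i p < N := fun i p => Nat.mod_lt _ hN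
  refine ⟨fun i p => ?_, fun p i j h => b1_distinct hkN h, fun p q => by positivity, fun p => ?_,
    fun i p q _ => rfl, fun i p y => ?_⟩
  · rw [sz_box1 (by omega) hn (hb i p)]
    exact hm
  · simp
    field_simp
  · have hy : box1 m n y < N := by
      unfold box1
      have := y.2
      rw [Nat.div_lt_iff_lt_mul (by omega), mul_comm]
      omega
    obtain ⟨q, hq⟩ := b1_surj (k := k) i hy
    rw [sum_b1 i _ hq, if_pos rfl, sz_box1 (by omega) hn hy, Fintype.card_fin, hn]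
    push_cast
    field_simp

lemma good2 {k m N n : ℕ} (hk : 1 ≤ k) (hm : 2 ≤ m) (hn : n = m * N) (hkN : k ≤ N) :
    Good false (box1 m n) (b1 k N)
      (fun p q => if p = q then ((m : ℝ) - 1) / ((n : ℝ) - 1) else (m : ℝ) / ((n : ℝ) - 1)) := by
  have hN : 0 < N := by omega
  have hN' : (1 : ℝ) ≤ N := by exact_mod_cast hN
  have hm' : (2 : ℝ) ≤ m := by exact_mod_cast hm
  have hnr : (n : ℝ) = m * N := by rw [hn]; push_cast; ring
  have hn1 : (0 : ℝ) < (n : ℝ) - 1 := by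
    rw [hnr]
    nlinarith
  have hb : ∀ (i : Fin k) (p : Fin N), b1 k N i p < N := fun i p => Nat.mod_lt _ hN
  refine ⟨fun i p => ?_, fun p i j h => b1_distinct hkN h, fun p q => ?_, fun p => ?_,
    fun i p q h => ?_, fun i p y => ?_⟩
  · rw [sz_box1 (by omega) hn (hb i p)]
    exact hm
  · split_ifs
    · exact div_nonneg (by linarith) hn1.le
    · exact div_nonneg (by linarith) hn1.le
  · have e : ∀ q, (if p = q then ((m : ℝ) - 1) / ((n : ℝ) - 1) else (m : ℝ) / ((n : ℝ) - 1)) =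
        (m : ℝ) / ((n : ℝ) - 1) - (if p = q then 1 / ((n : ℝ) - 1) else 0) := by
      intro q
      split_ifs <;> ring
    simp only [e]
    rw [Finset.sum_sub_distrib, Finset.sum_const, Finset.sum_ite_eq]
    simp only [card_univ, Fintype.card_fin, nsmul_eq_mul, mem_univ, if_true]
    rw [← mul_div_assoc, ← sub_div, div_eq_one_iff_eq hn1.ne', hnr]
    ring
  · rw [b1_inj h]
  · have hy : box1 m n y < N := by
      unfold box1
      have := y.2
      rw [Nat.div_lt_iff_lt_mul (by omega), mul_comm]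
      omega
    obtain ⟨q, hq⟩ := b1_surj (k := k) i hy
    rw [sum_b1 i _ hq, sz_box1 (by omega) hn hy, Fintype.card_fin]
    simp only [Bool.false_eq_true, if_false]
    by_cases hpq : p = q
    · rw [if_pos hpq, if_pos (by rw [hpq]; exact hq)]
    · rw [if_neg hpq, if_neg]
      · ring
      · intro h'
        exact hpq (b1_inj (h'.trans hq.symm))

theorem coupling_loops_even {n k m : ℕ} (hk : 1 ≤ k) (hm : 2 ≤ m) (hmn : m ∣ n)
    (h : m * k ≤ n) : HasMarkovianCoupling true n k := by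
  obtain ⟨N, hN⟩ := hmn
  have hkN : k ≤ N := by
    rw [hN] at h
    exact Nat.le_of_mul_le_mul_left h (by omega)
  exact ⟨_, sys_coupling (good1 hk hm hN hkN) ⟨0, by omega⟩⟩

theorem coupling_noloops {n k m : ℕ} (hk : 1 ≤ k) (hm : 2 ≤ m) (hmn : m ∣ n)
    (h : m * k ≤ n) : HasMarkovianCoupling false n k := by
  obtain ⟨N, hN⟩ := hmn
  have hkN : k ≤ N := by
    rw [hN] at h
    exact Nat.le_of_mul_le_mul_left h (by omega)
  exact ⟨_, sys_coupling (good2 hk hm hN hkN) ⟨0, by omega⟩⟩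

/-- boxes for odd `n`: pairs and one triple -/
def box2 (n : ℕ) (v : Fin n) : ℕ := if (v : ℕ) < n - 3 then (v : ℕ) / 2 else (n - 3) / 2

lemma sz_box2 {n : ℕ} (hn3 : 3 ≤ n) (hodd : n % 2 = 1) (w : Fin n) : 2 ≤ sz (box2 n) (box2 n w) := by
  unfold sz
  by_cases hw : (w : ℕ) < n - 3
  · rw [card_fin_Ico _ (2 * ((w : ℕ) / 2)) (2 * ((w : ℕ) / 2) + 2) (by omega)]
    · omega
    · intro v
      unfold box2
      rw [if_pos hw]
      split_ifs <;> omega
  · rw [card_fin_Ico _ (n - 3) n (by omega)]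
    · omega
    · intro v
      have := v.2
      unfold box2
      rw [if_neg hw]
      split_ifs <;> omega

/-- boxes of the walkers: `3 i` steps after the base, cyclically -/
def b2 (n k : ℕ) (i : Fin k) (p : Fin n) : ℕ :=
  box2 n ⟨((p : ℕ) + 3 * i) % n, Nat.mod_lt _ (lt_of_le_of_lt (Nat.zero_le _) p.2)⟩

lemma mod_two {a n : ℕ} (h : a < 2 * n) : (a < n ∧ a % n = a) ∨ (n ≤ a ∧ a % n = a - n) := by
  by_cases h1 : a < n
  · exact Or.inl ⟨h1, Nat.mod_eq_of_lt h1⟩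
  · refine Or.inr ⟨by omega, ?_⟩
    rw [Nat.mod_eq_sub_mod (by omega), Nat.mod_eq_of_lt (by omega)]

lemma b2_distinct {n k : ℕ} (hn3 : 3 ≤ n) (hodd : n % 2 = 1) (hk : 3 * k ≤ n) (p : Fin n)
    (i j : Fin k) (h : b2 n k i p = b2 n k j p) : i = j := by
  have hp := p.2
  have hi := i.2
  have hj := j.2
  by_contra hne
  have hne' : (i : ℕ) ≠ j := fun h' => hne (Fin.ext h')
  unfold b2 box2 at h
  simp only at h
  rcases mod_two (show (p : ℕ) + 3 * i < 2 * n by omega) with ⟨h1, h2⟩ | ⟨h1, h2⟩ <;>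
  rcases mod_two (show (p : ℕ) + 3 * j < 2 * n by omega) with ⟨h3, h4⟩ | ⟨h3, h4⟩ <;>
  rw [h2, h4] at h <;> split_ifs at h <;> omega

lemma good3 {n k : ℕ} (hk : 1 ≤ k) (hodd : n % 2 = 1) (hkn : 3 * k ≤ n) :
    Good true (box2 n) (b2 n k) (fun _ _ => 1 / (n : ℝ)) := by
  have hn3 : 3 ≤ n := by omega
  have hn : (0 : ℝ) < n := by exact_mod_cast (by omega : 0 < n)
  refine ⟨fun i p => ?_, fun p i j h => b2_distinct hn3 hodd hkn p i j h,
    fun p q => by positivity, fun p => ?_, fun i p q _ => rfl, fun i p y => ?_⟩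
  · exact sz_box2 hn3 hodd _
  · simp
    field_simp
  · rw [if_pos rfl, Fintype.card_fin]
    have hn0 : 0 < n := by omega
    let f : Fin n → Fin n := fun q => ⟨((q : ℕ) + 3 * i) % n, Nat.mod_lt _ hn0⟩
    have hinj : Function.Injective f := by
      intro q q' h
      have h1 : ((q : ℕ) + 3 * i) ≡ ((q' : ℕ) + 3 * i) [MOD n] := Fin.mk.inj_iff.1 h
      have h2 : (q : ℕ) ≡ (q' : ℕ) [MOD n] := Nat.ModEq.add_right_cancel' _ h1
      exact Fin.ext (Nat.ModEq.eq_of_lt_of_lt h2 q.2 q'.2)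
    have hbij : Function.Bijective f := ⟨hinj, Finite.surjective_of_injective hinj⟩
    have e : (∑ q : Fin n, if b2 n k i q = box2 n y then 1 / (n : ℝ) else 0) =
        ∑ w : Fin n, if box2 n w = box2 n y then 1 / (n : ℝ) else 0 := by
      rw [← (Equiv.ofBijective f hbij).sum_comp (fun w => if box2 n w = box2 n y then 1 / (n : ℝ) else 0)]
      rfl
    rw [e, ← Finset.sum_filter, Finset.sum_const, nsmul_eq_mul]
    unfold sz
    ring

theorem coupling_loops_odd {n k : ℕ} (hk : 1 ≤ k) (hodd : n % 2 = 1) (h : 3 * k ≤ n) :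
    HasMarkovianCoupling true n k :=
  ⟨_, sys_coupling (good3 hk hodd h) ⟨0, by omega⟩⟩

theorem coupling_loops {n k : ℕ} (hk : 1 ≤ k) (h : (Even n ∧ 2 * k ≤ n) ∨ 3 * k ≤ n) :
    HasMarkovianCoupling true n k := by
  rcases h with ⟨he, h⟩ | h
  · exact coupling_loops_even hk le_rfl he.two_dvd h
  · rcases Nat.even_or_odd n with he | ho
    · exact coupling_loops_even hk le_rfl he.two_dvd (by omega)
    · exact coupling_loops_odd hk (Nat.odd_iff.1 ho) h

/-- `a` boxes of size 2 followed by boxes of size 3 -/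
def box3 (a n : ℕ) (v : Fin n) : ℕ := if (v : ℕ) < 2 * a then (v : ℕ) / 2 else a + ((v : ℕ) - 2 * a) / 3

/-- sizes of the boxes -/
def s3 (a B : ℕ) : ℕ := if B < a then 2 else 3

lemma box3_lt {a c n : ℕ} (hn : n = 2 * a + 3 * c) (v : Fin n) : box3 a n v < a + c := by
  have := v.2
  unfold box3
  split_ifs <;> omega

lemma sz_box3 {a c n : ℕ} (hn : n = 2 * a + 3 * c) {B : ℕ} (hB : B < a + c) :
    sz (box3 a n) B = s3 a B := by
  unfold sz s3
  split_ifs with h
  · rw [card_fin_Ico _ (2 * B) (2 * B + 2) (by omega)]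
    · omega
    · intro v
      have := v.2
      unfold box3
      split_ifs <;> omega
  · rw [card_fin_Ico _ (2 * a + 3 * (B - a)) (2 * a + 3 * (B - a) + 3) (by omega)]
    · omega
    · intro v
      have := v.2
      unfold box3
      split_ifs <;> omega

/-- bases: cyclic shifts inside each of the two families of boxes -/
def b3 (k a c : ℕ) (i : Fin k) (p : Fin (a + c)) : ℕ :=
  if (p : ℕ) < a then ((p : ℕ) + i) % a else a + ((p : ℕ) - a + i) % c

lemma b3_lt_iff {k a c : ℕ} (i : Fin k) (p : Fin (a + c)) : b3 k a c i p < a ↔ (p : ℕ) < a := by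
  unfold b3
  by_cases h : (p : ℕ) < a
  · rw [if_pos h]
    exact ⟨fun _ => h, fun _ => Nat.mod_lt _ (by omega)⟩
  · rw [if_neg h]
    omega

lemma b3_lt {k a c : ℕ} (i : Fin k) (p : Fin (a + c)) : b3 k a c i p < a + c := by
  unfold b3
  have := p.2
  by_cases h : (p : ℕ) < a
  · rw [if_pos h]
    have := Nat.mod_lt ((p : ℕ) + i) (show 0 < a by omega)
    omega
  · rw [if_neg h]
    have := Nat.mod_lt ((p : ℕ) - a + i) (show 0 < c by omega)
    omega

lemma b3_inj {k a c : ℕ} {i : Fin k} {p q : Fin (a + c)} (h : b3 k a c i p = b3 k a c i q) :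
    p = q := by
  have e := b3_lt_iff (k := k) i p
  have e' := b3_lt_iff (k := k) i q
  have hp := p.2
  have hq := q.2
  by_cases h1 : (p : ℕ) < a
  · have h2 : (q : ℕ) < a := e'.1 (h ▸ e.2 h1)
    unfold b3 at h
    rw [if_pos h1, if_pos h2] at h
    have h3 : ((p : ℕ) + i) ≡ ((q : ℕ) + i) [MOD a] := h
    have h4 : (p : ℕ) ≡ (q : ℕ) [MOD a] := Nat.ModEq.add_right_cancel' _ h3
    exact Fin.ext (Nat.ModEq.eq_of_lt_of_lt h4 h1 h2)
  · have h2 : ¬ (q : ℕ) < a := fun h2 => h1 (e.1 (h.symm ▸ e'.2 h2))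
    unfold b3 at h
    rw [if_neg h1, if_neg h2] at h
    have h3 : ((p : ℕ) - a + i) ≡ ((q : ℕ) - a + i) [MOD c] := by
      show ((p : ℕ) - a + i) % c = ((q : ℕ) - a + i) % c
      omega
    have h4 : (p : ℕ) - a ≡ (q : ℕ) - a [MOD c] := Nat.ModEq.add_right_cancel' _ h3
    have h5 := Nat.ModEq.eq_of_lt_of_lt h4 (by omega) (by omega)
    exact Fin.ext (by omega)

lemma b3_distinct {k a c : ℕ} (ha : a = 0 ∨ k ≤ a) (hc : c = 0 ∨ k ≤ c) {i j : Fin k}
    {p : Fin (a + c)} (h : b3 k a c i p = b3 k a c j p) : i = j := by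
  have hp := p.2
  have hi := i.2
  have hj := j.2
  unfold b3 at h
  by_cases h1 : (p : ℕ) < a
  · rw [if_pos h1, if_pos h1] at h
    have h3 : ((p : ℕ) + i) ≡ ((p : ℕ) + j) [MOD a] := h
    have h4 : (i : ℕ) ≡ (j : ℕ) [MOD a] := Nat.ModEq.add_left_cancel' _ h3
    exact Fin.ext (Nat.ModEq.eq_of_lt_of_lt h4 (by omega) (by omega))
  · rw [if_neg h1, if_neg h1] at h
    have h3 : ((p : ℕ) - a + i) ≡ ((p : ℕ) - a + j) [MOD c] := by
      show ((p : ℕ) - a + i) % c = ((p : ℕ) - a + j) % c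
      omega
    have h4 : (i : ℕ) ≡ (j : ℕ) [MOD c] := Nat.ModEq.add_left_cancel' _ h3
    exact Fin.ext (Nat.ModEq.eq_of_lt_of_lt h4 (by omega) (by omega))

lemma b3_surj {k a c : ℕ} (i : Fin k) {B : ℕ} (hB : B < a + c) :
    ∃ q : Fin (a + c), b3 k a c i q = B := by
  have hinj : Function.Injective (fun q : Fin (a + c) => (⟨b3 k a c i q, b3_lt i q⟩ : Fin (a + c))) := by
    intro p q h
    exact b3_inj (Fin.mk.inj_iff.1 h)
  obtain ⟨q, hq⟩ := (Finite.surjective_of_injective hinj) ⟨B, hB⟩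
  exact ⟨q, Fin.mk.inj_iff.1 hq⟩

lemma sum_b3 {k a c : ℕ} (i : Fin k) (f : Fin (a + c) → ℝ) {B : ℕ} {q : Fin (a + c)}
    (hq : b3 k a c i q = B) : (∑ q', if b3 k a c i q' = B then f q' else 0) = f q := by
  rw [Finset.sum_eq_single q]
  · rw [if_pos hq]
  · intro q' _ hne
    rw [if_neg]
    intro h
    exact hne (b3_inj (h.trans hq.symm))
  · intro h; exact absurd (mem_univ _) h

lemma sum_s3 (a c : ℕ) : ∑ q : Fin (a + c), (s3 a q : ℝ) = 2 * a + 3 * c := by
  rw [Fin.sum_univ_add]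
  have e1 : ∀ i : Fin a, ((s3 a (Fin.castAdd c i : Fin (a + c)) : ℕ) : ℝ) = 2 := by
    intro i
    unfold s3
    rw [if_pos (by simp)]
    norm_num
  have e2 : ∀ i : Fin c, ((s3 a (Fin.natAdd a i : Fin (a + c)) : ℕ) : ℝ) = 3 := by
    intro i
    unfold s3
    rw [if_neg (by simp)]
    norm_num
  simp only [e1, e2, Finset.sum_const, card_univ, Fintype.card_fin, nsmul_eq_mul]
  ring

lemma s3_b3 {k a c : ℕ} (i : Fin k) (q : Fin (a + c)) : s3 a (b3 k a c i q) = s3 a q := by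
  unfold s3
  exact if_congr (b3_lt_iff i q) rfl rfl

lemma good4 {k a c n : ℕ} (hk : 1 ≤ k) (hn : n = 2 * a + 3 * c) (hac : 0 < a + c)
    (ha : a = 0 ∨ k ≤ a) (hc : c = 0 ∨ k ≤ c) :
    Good false (box3 a n) (b3 k a c)
      (fun p q => ((s3 a q : ℝ) - if p = q then 1 else 0) / ((n : ℝ) - 1)) := by
  have hnr : (n : ℝ) = 2 * a + 3 * c := by rw [hn]; push_cast; ring
  have hn2 : 2 ≤ n := by omega
  have hn1 : (0 : ℝ) < (n : ℝ) - 1 := by
    have : (2 : ℝ) ≤ n := by exact_mod_cast hn2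
    linarith
  have hs2 : ∀ B, 2 ≤ s3 a B := by
    intro B
    unfold s3
    split_ifs <;> omega
  refine ⟨fun i p => ?_, fun p i j h => b3_distinct ha hc h, fun p q => ?_, fun p => ?_,
    fun i p q h => ?_, fun i p y => ?_⟩
  · rw [sz_box3 hn (b3_lt i p)]
    exact hs2 _
  · refine div_nonneg ?_ hn1.le
    have : (2 : ℝ) ≤ s3 a q := by exact_mod_cast hs2 q
    split_ifs <;> linarith
  · rw [← Finset.sum_div, Finset.sum_sub_distrib, sum_s3, Finset.sum_ite_eq]
    simp only [mem_univ, if_true]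
    rw [div_eq_one_iff_eq hn1.ne', hnr]
  · rw [b3_inj h]
  · have hy : box3 a n y < a + c := box3_lt hn y
    obtain ⟨q, hq⟩ := b3_surj (k := k) i hy
    rw [sum_b3 i _ hq, sz_box3 hn hy, Fintype.card_fin]
    simp only [Bool.false_eq_true, if_false]
    rw [← hq, s3_b3]
    congr 2
    refine if_congr ⟨fun h => by rw [h], fun h => b3_inj h⟩ rfl rfl

theorem coupling_noloops_two_three {n k a c : ℕ} (hk : 1 ≤ k) (hn : n = 2 * a + 3 * c)
    (hac : 0 < a + c) (ha : a = 0 ∨ k ≤ a) (hc : c = 0 ∨ k ≤ c) :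
    HasMarkovianCoupling false n k :=
  ⟨_, sys_coupling (good4 hk hn hac ha hc) ⟨0, hac⟩⟩

theorem coupling_noloops' {n k : ℕ} (hk : 1 ≤ k)
    (h : (Even n ∧ 2 * k ≤ n) ∨ (3 ∣ n ∧ 3 * k ≤ n) ∨ (Odd k ∧ 5 * k ≤ n) ∨ 5 * k + 3 ≤ n) :
    HasMarkovianCoupling false n k := by
  have main : ∀ c : ℕ, (c = 0 ∨ k ≤ c) → ∀ a : ℕ, (a = 0 ∨ k ≤ a) → n = 2 * a + 3 * c →
      HasMarkovianCoupling false n k := by
    intro c hc a ha hn
    refine coupling_noloops_two_three hk hn ?_ ha hc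
    rcases Nat.eq_zero_or_pos (a + c) with h0 | h0
    · exfalso
      have h1 : n = 0 := by omega
      omega
    · exact h0
  rcases Nat.even_or_odd n with he | ho
  · obtain ⟨a, ha⟩ := he
    by_cases h2 : 2 * k ≤ n
    · exact main 0 (Or.inl rfl) a (Or.inr (by omega)) (by omega)
    · exfalso
      omega
  · obtain ⟨t, ht⟩ := ho
    rcases h with ⟨he, _⟩ | ⟨⟨d, hd⟩, h3⟩ | ⟨⟨e, hk'⟩, h5⟩ | h5
    · obtain ⟨s, hs⟩ := he
      omega
    · exact main d (Or.inr (by omega)) 0 (Or.inl rfl) (by omega)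
    · exact main k (Or.inr le_rfl) ((n - 3 * k) / 2) (Or.inr (by omega)) (by omega)
    · rcases Nat.even_or_odd k with hke | hko
      · obtain ⟨e, hke⟩ := hke
        exact main (k + 1) (Or.inr (by omega)) ((n - 3 * (k + 1)) / 2) (Or.inr (by omega)) (by omega)
      · obtain ⟨e, hko⟩ := hko
        exact main k (Or.inr le_rfl) ((n - 3 * k) / 2) (Or.inr (by omega)) (by omega)

end Pool.Agent.H.MP_2d605f_pr
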