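import Pool.Agent.H.MP_2d605f_pr.CircFlow
import Pool.Agent.H.MP_2d605f_pr.CircSys
import Pool.Agent.H.MP_2d605f_pr.Instances

/-! Instances of flow schemes: all `n`, `k ≤ n / 3`. -/

open Finset

namespace Pool.Agent.H.MP_2d605f_pr

theorem coupling_third {n k : ℕ} (hk : 1 ≤ k) (h : 3 * k ≤ n) :
    HasMarkovianCoupling false n k := by
  obtain ⟨m, hm⟩ : ∃ m, n = 3 * m ∨ n = 3 * m + 1 ∨ n = 3 * m + 2 := ⟨n / 3, by omega⟩
  obtain ⟨k', rfl⟩ : ∃ k', k = k' + 1 := ⟨k - 1, by omega⟩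
  by_cases hm2 : 2 ≤ m
  · rcases hm with rfl | rfl | rfl
    · exact coupling_noloops hk (by norm_num) (dvd_mul_right 3 m) h
    · obtain ⟨box, L, th, F, harc⟩ := flow_one m hm2
      exact ⟨_, sysC_coupling F (fun p hp => no_short (by omega) L th harc p hp) 0⟩
    · obtain ⟨box, L, th, F, harc⟩ := flow_two m hm2
      exact ⟨_, sysC_coupling F (fun p hp => no_short (by omega) L th harc p hp) 0⟩
  · have hk1 : k' = 0 := by omega
    subst hk1
    exact coupling_noloops hk (show 2 ≤ n by omega) (dvd_refl n) (by omega)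

end Pool.Agent.H.MP_2d605f_pr
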