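import Pool.Agent.H.MP_2d605f_pr.CircBox

/-! Flow schemes: the round probabilities. -/

open Finset

namespace Pool.Agent.H.MP_2d605f_pr

section
variable {V I : Type} [Fintype V] [DecidableEq V] [Fintype I] [DecidableEq I]
  {box : V → I} {L : I → I → ℝ}

lemma CircRound_kb_zero {k : ℕ} (c : Fin (k + 1) → V) (C : I) :
    kb box L 0 c C = R1 box (box (c 0)) C := rfl

lemma CircRound_kb_succ {k : ℕ} (j : Fin k) (c : Fin (k + 1) → V) (C : I) :
    kb box L j.succ c C = KK box L (box (c j.castSucc)) (box (c j.succ)) C := rfl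

lemma CircRound_kb_nonneg (F : Flow box L) {k : ℕ} (i : Fin (k + 1)) (c : Fin (k + 1) → V)
    (C : I) : 0 ≤ kb box L i c C := by
  induction i using Fin.cases with
  | zero => rw [CircRound_kb_zero]; exact R1_nonneg F _ _
  | succ j => rw [CircRound_kb_succ]; exact KK_nonneg F _ _ _

lemma CircRound_kb_sum (F : Flow box L) {k : ℕ} (i : Fin (k + 1)) (c : Fin (k + 1) → V) :
    ∑ C, kb box L i c C = 1 := by
  induction i using Fin.cases with
  | zero => simp only [CircRound_kb_zero]; exact R1_sum F _
  | succ j => simp only [CircRound_kb_succ]; exact KK_sum F _ _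

lemma CircRound_raw_nonneg (F : Flow box L) {k : ℕ} (i : Fin (k + 1)) (c : Fin (k + 1) → V)
    (y : V) : 0 ≤ rawC box L i c y := by
  unfold rawC
  refine mul_nonneg (CircRound_kb_nonneg F _ _ _) ?_
  split_ifs <;> positivity

lemma stepC_nonneg (F : Flow box L) {k : ℕ} (i : Fin (k + 1)) (c : Fin (k + 1) → V) (y : V) :
    0 ≤ stepC box L i c y := by
  unfold stepC
  split_ifs
  · exact CircRound_raw_nonneg F _ _ _
  · norm_num
  · norm_num

lemma stepC_sum {k : ℕ} (i : Fin (k + 1)) (c : Fin (k + 1) → V) :
    ∑ y, stepC box L i c y = 1 := by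
  unfold stepC
  by_cases h : ∑ z, rawC box L i c z = 1
  · rw [Finset.sum_congr rfl (fun y _ => if_pos h)]
    exact h
  · rw [Finset.sum_congr rfl (fun y _ => if_neg h)]
    simp

lemma CircRound_prod_ph {k : ℕ} {p : Fin k → I} (hp : Function.Injective p) (q : Fin k → I)
    (j : Fin k) (σ : Fin k → V) (v : V) :
    (∏ m, ph false box ev p q j m (σ m) v = 1 ∧
      ∀ m, ¬ ((j < m ∨ (j = m ∧ false = false)) ∧ ev m p = ev j q)) ∨
    ∃ m, ((j < m ∨ (j = m ∧ false = false)) ∧ ev m p = ev j q) ∧
      ∏ m, ph false box ev p q j m (σ m) v =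
        if v = σ m then 0 else (sz box (ev j q) : ℝ) / (sz box (ev j q) - 1) := by
  by_cases h : ∃ m, (j < m ∨ (j = m ∧ false = false)) ∧ ev m p = ev j q
  · right
    obtain ⟨m, hm⟩ := h
    refine ⟨m, hm, ?_⟩
    rw [Finset.prod_eq_single m]
    · unfold ph; rw [if_pos hm]
    · intro m' _ hne
      unfold ph
      rw [if_neg]
      rintro ⟨_, h2⟩
      exact hne (hp (h2.trans hm.2.symm))
    · intro h; exact absurd (mem_univ _) h
  · left
    push Not at h
    refine ⟨Finset.prod_eq_one fun m _ => ?_, fun m hm => h m hm.1 hm.2⟩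
    unfold ph
    rw [if_neg]
    rintro ⟨h1, h2⟩
    exact h m h1 h2

lemma CircRound_u_sum (F : Flow box L) {k : ℕ} {p : Fin k → I} (hp : Function.Injective p)
    (q : Fin k → I) (j : Fin k) {σ : Fin k → V} (hσ : ∀ m, box (σ m) = ev m p) :
    ∑ v, u false box ev p q j σ v = 1 := by
  have h2 := F.two (ev j q)
  by_cases h : ∃ m, (j < m ∨ (j = m ∧ false = false)) ∧ ev m p = ev j q
  · obtain ⟨m, hm⟩ := h
    rw [← sum_box_ne (ev j q) (σ m) (by rw [hσ m, hm.2]) h2]
    refine Finset.sum_congr rfl fun v _ => ?_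
    unfold u
    by_cases h1 : box v = ev j q
    · rw [if_pos h1, if_pos h1]
      congr 1
      rcases CircRound_prod_ph (box := box) hp q j σ v with h3 | ⟨m', hm', h3⟩
      · exact absurd hm (h3.2 m)
      · have e : m = m' := hp (hm.2.trans hm'.2.symm)
        subst e
        exact h3
    · rw [if_neg h1, if_neg h1]
  · have h0 : sz box (ev j q) ≠ 0 := by omega
    rw [← sum_box (ev j q) h0]
    refine Finset.sum_congr rfl fun v _ => ?_
    unfold u
    by_cases h1 : box v = ev j q
    · rw [if_pos h1, if_pos h1]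
      rcases CircRound_prod_ph (box := box) hp q j σ v with h3 | ⟨m', hm', h3⟩
      · rw [h3.1, mul_one]
      · exact absurd ⟨m', hm'⟩ h
    · rw [if_neg h1, if_neg h1]

lemma CircRound_u_eq_av (F : Flow box L) {k : ℕ} {p : Fin k → I} (hp : Function.Injective p)
    {q : Fin k → I} (j : Fin k) {σ : Fin k → V} (hσ : ∀ m, box (σ m) = ev m p) {y : V}
    (hy : box y = ev j q) :
    (if y ∈ av false box j σ (box y) then 1 / ((av false box j σ (box y)).card : ℝ) else 0) =
      u false box ev p q j σ y := by
  have h2 := F.two (ev j q)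
  unfold u
  rw [if_pos hy, hy]
  rcases CircRound_prod_ph (box := box) hp q j σ y with ⟨h3, h4⟩ | ⟨m, hm, h3⟩
  · have hav : av false box j σ (ev j q) = univ.filter (fun v => box v = ev j q) := by
      unfold av
      ext v
      simp only [mem_filter, mem_univ, true_and]
      constructor
      · exact fun h => h.1
      · intro hv
        refine ⟨hv, fun m hjm hvm => ?_, Or.inr fun hvj => ?_⟩
        · refine h4 m ⟨Or.inl hjm, ?_⟩
          rw [← hσ m, ← hvm, hv]
        · refine h4 j ⟨Or.inr ⟨rfl, rfl⟩, ?_⟩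
          rw [← hσ j, ← hvj, hv]
    rw [h3, mul_one, hav, if_pos (by simp [hy])]
    rfl
  · have hbm : box (σ m) = ev j q := by rw [hσ m, hm.2]
    have hav : av false box j σ (ev j q) =
        (univ.filter (fun v => box v = ev j q)).erase (σ m) := by
      unfold av
      ext v
      simp only [mem_filter, mem_univ, true_and, mem_erase]
      constructor
      · rintro ⟨h5, h6, h7⟩
        refine ⟨?_, h5⟩
        rcases hm.1 with h8 | ⟨h8, h9⟩
        · exact h6 m h8
        · subst h8
          rcases h7 with h7 | h7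
          · exact absurd h7 (by decide)
          · exact h7
      · rintro ⟨h5, h6⟩
        refine ⟨h6, fun m' hjm hvm => ?_, Or.inr fun hvj => ?_⟩
        · have : m' = m := hp (by
            have e1 : ev m' p = ev j q := by rw [← hσ m', ← hvm, h6]
            exact e1.trans hm.2.symm)
          subst this; exact h5 hvm
        · have : j = m := hp (by
            have e1 : ev j p = ev j q := by rw [← hσ j, ← hvj, h6]
            exact e1.trans hm.2.symm)
          subst this; exact h5 hvj
    have hcard : (av false box j σ (ev j q)).card = sz box (ev j q) - 1 := by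
      rw [hav, Finset.card_erase_of_mem (by simp [hbm])]
      rfl
    have hc : ((sz box (ev j q) - 1 : ℕ) : ℝ) = (sz box (ev j q) : ℝ) - 1 := by
      rw [Nat.cast_sub (by omega)]; simp
    have h2' : (2 : ℝ) ≤ sz box (ev j q) := by exact_mod_cast h2
    rw [h3, hcard, hc]
    have hne : (sz box (ev j q) : ℝ) ≠ 0 := by linarith
    have hne1 : (sz box (ev j q) : ℝ) - 1 ≠ 0 := by linarith
    by_cases hys : y = σ m
    · rw [if_neg, if_pos hys, mul_zero]
      rw [hav, hys]; simp
    · rw [if_pos, if_neg hys]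
      · field_simp
      · rw [hav]; simp [hy, hys]

lemma CircRound_raw_mid (F : Flow box L) {k : ℕ} {σ : Fin (k + 1) → V}
    (hσ : Function.Injective (fun j => box (σ j))) (τ : Fin (k + 1) → V) (i : Fin (k + 1))
    {q : Fin (k + 1) → I} {y : V} (hy : box y = q i) :
    rawC box L i (mid σ τ i) y = kb box L i (mid σ τ i) (q i) *
      u false box ev (fun j => box (σ j)) q i σ y := by
  unfold rawC
  rw [av_mid, CircRound_u_eq_av F hσ i (fun m => rfl) hy, hy]

lemma CircRound_raw_sum (F : Flow box L) {k : ℕ} {σ : Fin (k + 1) → V}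
    (hσ : Function.Injective (fun j => box (σ j))) (τ : Fin (k + 1) → V) (i : Fin (k + 1)) :
    ∑ y, rawC box L i (mid σ τ i) y = 1 := by
  have e1 : ∀ y, rawC box L i (mid σ τ i) y = ∑ C, kb box L i (mid σ τ i) C *
      u false box ev (fun j => box (σ j)) (fun _ => C) i σ y := by
    intro y
    rw [Finset.sum_eq_single (box y)]
    · exact CircRound_raw_mid F hσ τ i (q := fun _ => box y) rfl
    · intro C _ hC
      have h1 : u false box ev (fun j => box (σ j)) (fun _ => C) i σ y = 0 := u_ne hC
      rw [h1, mul_zero]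
    · intro h; exact absurd (mem_univ _) h
  simp only [e1]
  rw [Finset.sum_comm]
  simp only [← Finset.mul_sum]
  have e2 : ∀ C, ∑ y, u false box ev (fun j => box (σ j)) (fun _ => C) i σ y = 1 :=
    fun C => CircRound_u_sum F hσ _ i fun m => rfl
  simp only [e2, mul_one]
  exact CircRound_kb_sum F _ _

lemma CircRound_step_mid (F : Flow box L) {k : ℕ} {σ : Fin (k + 1) → V}
    (hσ : Function.Injective (fun j => box (σ j))) (τ : Fin (k + 1) → V) (i : Fin (k + 1)) :
    stepC box L i (mid σ τ i) (τ i) = kb box L i (mid σ τ i) (box (τ i)) *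
      u false box ev (fun j => box (σ j)) (fun j => box (τ j)) i σ (τ i) := by
  unfold stepC
  rw [if_pos (CircRound_raw_sum F hσ τ i)]
  exact CircRound_raw_mid F hσ τ i (q := fun j => box (τ j)) rfl

/-- The round probability. -/
lemma round_eqC (F : Flow box L) {k : ℕ} {σ : Fin (k + 1) → V}
    (hσ : Function.Injective (fun j => box (σ j))) (τ : Fin (k + 1) → V) :
    rpC box L σ τ = RR box L (fun j => box (σ j)) (fun j => box (τ j)) *
      ∏ j, u false box ev (fun j => box (σ j)) (fun j => box (τ j)) j σ (τ j) := by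
  unfold rpC
  rw [Finset.prod_congr rfl fun i _ => CircRound_step_mid F hσ τ i, Finset.prod_mul_distrib]
  congr 1
  rw [Fin.prod_univ_succ]
  unfold RR
  refine congrArg₂ _ ?_ (Finset.prod_congr rfl fun j _ => ?_)
  · rw [CircRound_kb_zero]
    have h1 : mid σ τ 0 0 = σ 0 := by unfold mid; simp
    rw [h1]
  · rw [CircRound_kb_succ]
    have h1 : mid σ τ j.succ j.succ = σ j.succ := by unfold mid; simp
    have h2 : mid σ τ j.succ j.castSucc = τ j.castSucc := by
      unfold mid
      rw [if_pos Fin.castSucc_lt_succ]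
    rw [h1, h2]

end

end Pool.Agent.H.MP_2d605f_pr
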