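import Pool.Agent.H.MP_2d605f_pr.Circ

/-! Flow schemes: boxes of given sizes, no short closed walks. -/

open Finset

namespace Pool.Agent.H.MP_2d605f_pr

lemma exists_box {I : Type} [Fintype I] [DecidableEq I] {n : ℕ} (s : I → ℕ)
    (hs : ∑ i, s i = n) : ∃ box : Fin n → I, ∀ B, sz box B = s B := by
  have hc : Fintype.card (Σ i : I, Fin (s i)) = n := by
    rw [Fintype.card_sigma, ← hs]
    exact Finset.sum_congr rfl fun i _ => Fintype.card_fin _
  obtain ⟨e⟩ : Nonempty ((Σ i : I, Fin (s i)) ≃ Fin n) := ⟨Fintype.equivFinOfCardEq hc⟩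
  refine ⟨fun v => (e.symm v).1, fun B => ?_⟩
  have h1 : (Finset.univ.filter (fun v : Fin n => (e.symm v).1 = B)) =
      (Finset.univ : Finset (Fin (s B))).image (fun x => e ⟨B, x⟩) := by
    ext v
    simp only [Finset.mem_filter, Finset.mem_univ, true_and, Finset.mem_image]
    constructor
    · intro hv
      obtain ⟨y, hy⟩ : ∃ y, y = e.symm v := ⟨_, rfl⟩
      rw [← hy] at hv
      obtain ⟨i, x⟩ := y
      simp only at hv
      subst hv
      exact ⟨x, by rw [hy, Equiv.apply_symm_apply]⟩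
    · rintro ⟨x, hx⟩
      rw [← hx, Equiv.symm_apply_apply]
  have h2 : Function.Injective (fun x : Fin (s B) => e ⟨B, x⟩) := by
    intro x y hxy
    have h3 := e.injective hxy
    simpa using h3
  show (Finset.univ.filter (fun v : Fin n => (e.symm v).1 = B)).card = s B
  rw [h1, Finset.card_image_of_injective _ h2, Finset.card_univ, Fintype.card_fin]

lemma CircShort_step {m k : ℕ} (L : Fin (m + 1) → Fin (m + 1) → ℝ)
    (th : Fin (m + 1) → ZMod m)
    (harc : ∀ b c, L b c ≠ 0 → th c = th b + 1 ∨ (b.val = 0 ∧ c.val = 1 ∧ th c = th b))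
    (p : Fin (k + 1) → Fin (m + 1)) (hp : Sup L p) (a : ℕ) :
    ∀ d : ℕ, ∀ h : a + d < k + 1, ∃ N : ℕ, N ≤ d ∧
      th (p ⟨a, by omega⟩) = th (p ⟨a + d, h⟩) + (N : ZMod m) ∧
      (N = 0 → d = 0 ∨ ((p ⟨a + d, h⟩).val = 0 ∧ (p ⟨a, by omega⟩).val = 1)) := by
  intro d
  induction d with
  | zero =>
    intro h
    exact ⟨0, le_rfl, by simp, fun _ => Or.inl rfl⟩
  | succ d ih =>
    intro h
    obtain ⟨N, hN, hth, h0⟩ := ih (by omega)
    have hL := hp ⟨a + d, by omega⟩
    have e1 : (⟨a + d, by omega⟩ : Fin k).succ = (⟨a + (d + 1), h⟩ : Fin (k + 1)) := rfl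
    have e2 : (⟨a + d, by omega⟩ : Fin k).castSucc = (⟨a + d, by omega⟩ : Fin (k + 1)) := rfl
    rw [e1, e2] at hL
    rcases harc _ _ hL with h1 | ⟨h1, h2, h3⟩
    · refine ⟨N + 1, by omega, ?_, fun h' => absurd h' (Nat.succ_ne_zero N)⟩
      rw [hth, h1]
      push_cast
      ring
    · refine ⟨N, by omega, ?_, fun h' => Or.inr ?_⟩
      · rw [hth, h3]
      · rcases h0 h' with h4 | ⟨h4, -⟩
        · subst h4
          exact ⟨h1, h2⟩
        · omega

/-- no short closed walks -/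
lemma no_short {m k : ℕ} (hk : k + 1 ≤ m) (L : Fin (m + 1) → Fin (m + 1) → ℝ)
    (th : Fin (m + 1) → ZMod m)
    (harc : ∀ b c, L b c ≠ 0 → th c = th b + 1 ∨ (b.val = 0 ∧ c.val = 1 ∧ th c = th b))
    (p : Fin (k + 1) → Fin (m + 1)) (hp : Sup L p) : Function.Injective p := by
  have key : ∀ a b : Fin (k + 1), a.val < b.val → p a ≠ p b := by
    intro a b hab hpe
    obtain ⟨N, hN, hth, h0⟩ := CircShort_step L th harc p hp a.val (b.val - a.val)
      (by have := b.isLt; omega)
    have e1 : (⟨a.val + (b.val - a.val), by have := b.isLt; omega⟩ : Fin (k + 1)) = b :=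
      Fin.ext (by show a.val + (b.val - a.val) = b.val; omega)
    have e2 : (⟨a.val, by have := b.isLt; omega⟩ : Fin (k + 1)) = a := rfl
    rw [e1, e2, hpe] at hth h0
    have h1 : ((N : ℕ) : ZMod m) = 0 := by
      have h2 : th (p b) + 0 = th (p b) + (N : ZMod m) := by rw [add_zero]; exact hth
      exact (add_left_cancel h2).symm
    rw [ZMod.natCast_eq_zero_iff] at h1
    have hb := b.isLt
    have h2 : N = 0 := Nat.eq_zero_of_dvd_of_lt h1 (by omega)
    rcases h0 h2 with h3 | ⟨h3, h4⟩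
    · omega
    · omega
  intro a b hab
  rcases lt_trichotomy a.val b.val with h | h | h
  · exact absurd hab (key a b h)
  · exact Fin.ext h
  · exact absurd hab.symm (key b a h)

end Pool.Agent.H.MP_2d605f_pr
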