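import Mathlib

/-! # Markovian avoidance couplings on complete graphs: definitions -/

open Finset

namespace Pool.Agent.H.MP_2d605f_pr

/-- The positions at the moment when walker `i` is about to move, in a round which takes the
positions from `σ` (before the round) to `τ` (after the round): the walkers before `i` have already
moved, the others have not. -/
def mid {V : Type} {k : ℕ} (σ τ : Fin k → V) (i : Fin k) : Fin k → V :=
  fun j => if j < i then τ j else σ j

/-- A Markovian system of `k` walkers on the vertex set `V`: the law of the initial positions, and
for every walker `i` and all current positions `c` of the `k` walkers, the law `step i c` of the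
new position of walker `i`, when it is its turn to move. -/
structure MarkovSystem (V : Type) [Fintype V] (k : ℕ) where
  init : (Fin k → V) → ℝ
  step : Fin k → (Fin k → V) → V → ℝ
  init_nonneg : ∀ c, 0 ≤ init c
  init_sum : ∑ c, init c = 1
  step_nonneg : ∀ i c y, 0 ≤ step i c y
  step_sum : ∀ i c, ∑ y, step i c y = 1

section
variable {V : Type} [Fintype V] {k : ℕ}

/-- The probability that one round (each walker moves once, in the order `0, 1, ..., k-1`) takes the
positions from `σ` to `τ`. -/
def MarkovSystem.roundProb (S : MarkovSystem V k) (σ τ : Fin k → V) : ℝ :=
  ∏ i, S.step i (mid σ τ i) (τ i)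

/-- The probability that the positions after `0, 1, ..., T` rounds are `ω 0, ω 1, ..., ω T`. -/
def MarkovSystem.pathProb (S : MarkovSystem V k) (T : ℕ) (ω : Fin (T + 1) → Fin k → V) : ℝ :=
  S.init (ω 0) * ∏ t : Fin T, S.roundProb (ω t.castSucc) (ω t.succ)

/-- Transition probabilities of simple random walk on the complete graph on the vertex set `V`, with
a loop at every vertex (`loops = true`) or without loops (`loops = false`). -/
noncomputable def srw [DecidableEq V] (loops : Bool) (x y : V) : ℝ :=
  if loops = true then 1 / (Fintype.card V : ℝ)
  else if x = y then 0 else 1 / ((Fintype.card V : ℝ) - 1)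

/-- The Markovian system `S` is an avoidance coupling of simple random walks on the complete graph
on `V` with or without loops: the trajectory of every single walker is a simple random walk, and
almost surely the positions of the walkers are distinct initially and after every individual
move. -/
structure IsAvoidanceCoupling [DecidableEq V] (loops : Bool) (S : MarkovSystem V k) : Prop where
  marginal : ∀ (i : Fin k) (T : ℕ) (x : Fin (T + 1) → V),
    (∑ ω : Fin (T + 1) → Fin k → V, if (∀ t, ω t i = x t) then S.pathProb T ω else 0) =
      (∑ c, if c i = x 0 then S.init c else 0) *
        ∏ t : Fin T, srw loops (x t.castSucc) (x t.succ)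
  avoid : ∀ (T : ℕ) (ω : Fin (T + 1) → Fin k → V), S.pathProb T ω ≠ 0 →
    (∀ t, Function.Injective (ω t)) ∧
      ∀ (t : Fin T) (i : Fin k), Function.Injective (mid (ω t.castSucc) (ω t.succ) i)

end

/-- There is a Markovian avoidance coupling of `k` walkers on the complete graph on `n` vertices,
with loops (`loops = true`) or without loops (`loops = false`). -/
def HasMarkovianCoupling (loops : Bool) (n k : ℕ) : Prop :=
  ∃ S : MarkovSystem (Fin n) k, IsAvoidanceCoupling loops S

end Pool.Agent.H.MP_2d605f_pr
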