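import Pool.Agent.H.MP_2d605f_pr.LgDef

/-! Holes and runs: easy facts.

`run_mono`: `Hp f s = Hp f t` means that there is no hole in `[s, t)`; induction on `t`.
`ret_lt`: otherwise no hole in `[p.1, p.2)`, so `f (p.1 + 1) = some b`, `a ≤ b ≤ a` by `run_mono` twice
(`f p.1 = f p.2 = some a`), contradiction with the last condition for `u = p.1 + 1`.
`run_card_le`: all elements of `Run f N v` lie in `Ioo p.1 p.2` by `Hp_mono`.
`start_card_le`, `end_card_le`: the first (second) component is injective on `Ret f N` (two first returns with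
the same start: the smaller end contradicts the last condition of the larger; the same for the ends).
-/

open Finset

namespace Pool.Agent.H.MP_2d605f_pr

lemma Hp_mono (f : ℕ → Option ℕ) {s t : ℕ} (h : s ≤ t) : Hp f s ≤ Hp f t := by
  unfold Hp
  refine Finset.card_le_card (Finset.filter_subset_filter _ ?_)
  intro u hu
  rw [Finset.mem_range] at hu ⊢
  omega

lemma Hp_succ_none {f : ℕ → Option ℕ} {s : ℕ} (h : f s = none) : Hp f (s + 1) = Hp f s + 1 := by
  unfold Hp
  rw [Finset.range_add_one, Finset.filter_insert, if_pos h, Finset.card_insert_of_notMem]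
  intro h1
  have h2 := (Finset.mem_filter.1 h1).1
  rw [Finset.mem_range] at h2
  omega

lemma run_mono {f : ℕ → Option ℕ} {N : ℕ} (h : Mono f N) {s t : ℕ} (hst : s ≤ t) (ht : t < N)
    (hH : Hp f s = Hp f t) {a b : ℕ} (ha : f s = some a) (hb : f t = some b) : a ≤ b := by
  induction t, hst using Nat.le_induction generalizing b with
  | base =>
    rw [ha] at hb
    exact (Option.some.inj hb).le
  | succ t hst ih =>
    have h1 := Hp_mono f hst
    have h2 := Hp_mono f (show t ≤ t + 1 by omega)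
    have h3 : Hp f s = Hp f t := by omega
    have h4 : f t ≠ none := by
      intro h5
      have h6 := Hp_succ_none h5
      omega
    obtain ⟨c, hc⟩ := Option.ne_none_iff_exists'.1 h4
    exact (ih (by omega) h3 hc).trans (h t ht c b hc hb)

lemma LgA1_mem {f : ℕ → Option ℕ} {N : ℕ} {p : ℕ × ℕ} (hp : p ∈ Ret f N) :
    p.1 < N ∧ p.2 < N ∧ p.1 + 2 ≤ p.2 ∧ f p.1 ≠ none ∧ f p.2 = f p.1 ∧
      ∀ u, p.1 < u → u < p.2 → f u ≠ f p.1 := by
  unfold Ret at hp
  rw [Finset.mem_filter, Finset.mem_product, Finset.mem_range, Finset.mem_range] at hp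
  obtain ⟨⟨h1, h2⟩, h3, h4, h5, h6⟩ := hp
  exact ⟨h1, h2, h3, h4, h5, fun u hu hu' => h6 u (Finset.mem_Ioo.2 ⟨hu, hu'⟩)⟩

lemma ret_lt {f : ℕ → Option ℕ} {N : ℕ} (h : Mono f N) {p : ℕ × ℕ} (hp : p ∈ Ret f N) :
    Hp f p.1 < Hp f p.2 := by
  obtain ⟨h1, h2, h3, h4, h5, h6⟩ := LgA1_mem hp
  by_contra hcon
  have e1 := Hp_mono f (show p.1 ≤ p.1 + 1 by omega)
  have e2 := Hp_mono f (show p.1 + 1 ≤ p.2 by omega)
  have e3 := Hp_mono f (show p.1 + 1 + 1 ≤ p.2 by omega)
  have h7 : f (p.1 + 1) ≠ none := by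
    intro h8
    have h9 := Hp_succ_none h8
    omega
  obtain ⟨b, hb⟩ := Option.ne_none_iff_exists'.1 h7
  obtain ⟨a, ha⟩ := Option.ne_none_iff_exists'.1 h4
  have g1 : a ≤ b := run_mono h (show p.1 ≤ p.1 + 1 by omega) (by omega) (by omega) ha hb
  have g2 : b ≤ a := run_mono h (show p.1 + 1 ≤ p.2 by omega) h2 (by omega) hb (h5.trans ha)
  apply h6 (p.1 + 1) (by omega) (by omega)
  rw [hb, ha, le_antisymm g1 g2]

lemma run_card_le {f : ℕ → Option ℕ} {N : ℕ} {p : ℕ × ℕ} {v : ℕ} (h1 : Hp f p.1 < v)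
    (h2 : v < Hp f p.2) : (Run f N v).card ≤ p.2 - p.1 := by
  have hsub : Run f N v ⊆ Ioo p.1 p.2 := by
    intro s hs
    unfold Run at hs
    have h3 := (Finset.mem_filter.1 hs).2.2
    rw [Finset.mem_Ioo]
    constructor
    · by_contra hc
      have h4 := Hp_mono f (not_lt.1 hc)
      omega
    · by_contra hc
      have h4 := Hp_mono f (not_lt.1 hc)
      omega
  have h3 := Finset.card_le_card hsub
  rw [Nat.card_Ioo] at h3
  omega

lemma start_card_le (f : ℕ → Option ℕ) (N a : ℕ) :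
    ((Ret f N).filter (fun p => Hp f p.1 = a)).card ≤ (Run f N a).card := by
  refine Finset.card_le_card_of_injOn Prod.fst ?_ ?_
  · intro p hp
    obtain ⟨hp1, hp2⟩ := Finset.mem_filter.1 (Finset.mem_coe.1 hp)
    obtain ⟨h1, h2, h3, h4, h5, h6⟩ := LgA1_mem hp1
    unfold Run
    exact Finset.mem_coe.2 (Finset.mem_filter.2 ⟨Finset.mem_range.2 h1, h4, hp2⟩)
  · intro p hp q hq hpq
    obtain ⟨hp1, hp2⟩ := Finset.mem_filter.1 (Finset.mem_coe.1 hp)
    obtain ⟨hq1, hq2⟩ := Finset.mem_filter.1 (Finset.mem_coe.1 hq)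
    obtain ⟨h1, h2, h3, h4, h5, h6⟩ := LgA1_mem hp1
    obtain ⟨g1, g2, g3, g4, g5, g6⟩ := LgA1_mem hq1
    refine Prod.ext hpq ?_
    rcases lt_trichotomy p.2 q.2 with hlt | heq | hgt
    · exact absurd (h5.trans (by rw [hpq])) (g6 p.2 (by rw [← hpq]; omega) hlt)
    · exact heq
    · exact absurd (g5.trans (by rw [hpq])) (h6 q.2 (by rw [hpq]; omega) hgt)

lemma end_card_le (f : ℕ → Option ℕ) (N b : ℕ) :
    ((Ret f N).filter (fun p => Hp f p.2 = b)).card ≤ (Run f N b).card := by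
  refine Finset.card_le_card_of_injOn Prod.snd ?_ ?_
  · intro p hp
    obtain ⟨hp1, hp2⟩ := Finset.mem_filter.1 (Finset.mem_coe.1 hp)
    obtain ⟨h1, h2, h3, h4, h5, h6⟩ := LgA1_mem hp1
    unfold Run
    exact Finset.mem_coe.2 (Finset.mem_filter.2
      ⟨Finset.mem_range.2 h2, by rw [h5]; exact h4, hp2⟩)
  · intro p hp q hq hpq
    obtain ⟨hp1, hp2⟩ := Finset.mem_filter.1 (Finset.mem_coe.1 hp)
    obtain ⟨hq1, hq2⟩ := Finset.mem_filter.1 (Finset.mem_coe.1 hq)
    obtain ⟨h1, h2, h3, h4, h5, h6⟩ := LgA1_mem hp1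
    obtain ⟨g1, g2, g3, g4, g5, g6⟩ := LgA1_mem hq1
    have e : f p.1 = f q.1 := by rw [← h5, ← g5, hpq]
    refine Prod.ext ?_ hpq
    rcases lt_trichotomy p.1 q.1 with hlt | heq | hgt
    · exact absurd e.symm (h6 q.1 hlt (by rw [hpq]; omega))
    · exact heq
    · exact absurd e (g6 p.1 hgt (by rw [← hpq]; omega))

end Pool.Agent.H.MP_2d605f_pr
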