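import Pool.Agent.H.MP_2d605f_pr.LgA1

/-! First returns between two given runs.

Let `Q` be the filtered set and `f p.1 = some c`. Two members of `Q` with the same value are equal (both start at
the last occurrence of the value in the run of `p.1`). Map `q ∈ Q`, `q ≠ p`, with value `d` to `q.1` if `d > c` and
to `q.2` if `d < c`: `d > c` implies `p.1 < q.1` (`run_mono`), and `q.1 < p.2` by `Hp`; `d < c` implies `q.2 < p.2`
(`run_mono`) and `p.1 < q.2` by `Hp`. The map is injective into `Ioo p.1 p.2`: `q.1` and `q.2` lie in different runs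
and determine `q`. So `Q.card - 1 ≤ p.2 - p.1 - 1`.
-/

open Finset

namespace Pool.Agent.H.MP_2d605f_pr

lemma LgA2_mem {f : ℕ → Option ℕ} {N : ℕ} {q : ℕ × ℕ} (hq : q ∈ Ret f N) :
    q.1 < N ∧ q.2 < N ∧ q.1 + 2 ≤ q.2 ∧ (∃ d, f q.1 = some d) ∧ f q.2 = f q.1 ∧
      ∀ u ∈ Ioo q.1 q.2, f u ≠ f q.1 := by
  unfold Ret at hq
  rw [mem_filter, mem_product, mem_range, mem_range] at hq
  obtain ⟨⟨h1, h2⟩, h3, h4, h5, h6⟩ := hq
  exact ⟨h1, h2, h3, Option.ne_none_iff_exists'.1 h4, h5, h6⟩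

lemma LgA2_not_lt {f : ℕ → Option ℕ} {N : ℕ} (h : Mono f N) {q q' : ℕ × ℕ} (hq : q ∈ Ret f N)
    (hv : f q.1 = f q'.1) (hH : Hp f q.1 = Hp f q'.1) : ¬ q.1 < q'.1 := by
  intro hlt
  obtain ⟨_, _, _, _, _, h6⟩ := LgA2_mem hq
  have h7 := ret_lt h hq
  have h8 : q'.1 < q.2 := by
    by_contra hc
    have := Hp_mono f (not_lt.1 hc)
    omega
  exact h6 q'.1 (mem_Ioo.2 ⟨hlt, h8⟩) hv.symm

lemma LgA2_same {f : ℕ → Option ℕ} {N : ℕ} (h : Mono f N) {q q' : ℕ × ℕ} (hq : q ∈ Ret f N)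
    (hq' : q' ∈ Ret f N) (hv : f q.1 = f q'.1) (hH : Hp f q.1 = Hp f q'.1) : q = q' := by
  have h1 := LgA2_not_lt h hq hv hH
  have h2 := LgA2_not_lt h hq' hv.symm hH.symm
  have h3 : q.1 = q'.1 := by omega
  obtain ⟨_, _, g3, _, g5, g6⟩ := LgA2_mem hq
  obtain ⟨_, _, k3, _, k5, k6⟩ := LgA2_mem hq'
  refine Prod.ext h3 ?_
  by_contra hne
  rcases Nat.lt_or_gt_of_ne hne with hlt | hlt
  · refine k6 q.2 (mem_Ioo.2 ⟨by omega, hlt⟩) ?_
    rw [g5, hv]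
  · refine g6 q'.2 (mem_Ioo.2 ⟨by omega, hlt⟩) ?_
    rw [k5, hv]

lemma pair_card_le {f : ℕ → Option ℕ} {N : ℕ} (h : Mono f N) {p : ℕ × ℕ} (hp : p ∈ Ret f N) :
    ((Ret f N).filter (fun q => Hp f q.1 = Hp f p.1 ∧ Hp f q.2 = Hp f p.2)).card ≤ p.2 - p.1 := by
  classical
  obtain ⟨Q, hQ⟩ : ∃ Q, Q = (Ret f N).filter
      (fun q => Hp f q.1 = Hp f p.1 ∧ Hp f q.2 = Hp f p.2) := ⟨_, rfl⟩
  rw [← hQ]
  obtain ⟨p1, p2, p3, ⟨c, pc⟩, p5, p6⟩ := LgA2_mem hp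
  have plt := ret_lt h hp
  have hpQ : p ∈ Q := by
    rw [hQ, mem_filter]
    exact ⟨hp, rfl, rfl⟩
  have hval : ∀ q ∈ Q, q ≠ p → ∀ d, f q.1 = some d → d ≠ c := by
    intro q hq hne d hd hdc
    rw [hQ, mem_filter] at hq
    refine hne (LgA2_same h hq.1 hp ?_ hq.2.1)
    rw [hd, pc, hdc]
  obtain ⟨φ, hφ⟩ : ∃ φ : ℕ × ℕ → ℕ, ∀ q, φ q = if c < (f q.1).getD 0 then q.1 else q.2 :=
    ⟨_, fun _ => rfl⟩
  have hmaps : ∀ q ∈ Q.erase p, φ q ∈ Ioo p.1 p.2 := by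
    intro q hq
    obtain ⟨hne, hqQ⟩ := mem_erase.1 hq
    have hq' := hqQ
    rw [hQ, mem_filter] at hq'
    obtain ⟨hqR, hH1, hH2⟩ := hq'
    obtain ⟨q1, q2, q3, ⟨d, qd⟩, q5, _⟩ := LgA2_mem hqR
    have hdc := hval q hqQ hne d qd
    rw [hφ, qd, Option.getD_some]
    by_cases hcd : c < d
    · rw [if_pos hcd]
      refine mem_Ioo.2 ⟨?_, ?_⟩
      · by_contra hc
        have := run_mono h (not_lt.1 hc) p1 hH1 qd pc
        omega
      · by_contra hc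
        have := Hp_mono f (not_lt.1 hc)
        omega
    · rw [if_neg hcd]
      refine mem_Ioo.2 ⟨?_, ?_⟩
      · by_contra hc
        have := Hp_mono f (not_lt.1 hc)
        omega
      · by_contra hc
        have := run_mono h (not_lt.1 hc) q2 hH2.symm (p5.trans pc) (q5.trans qd)
        omega
  have hinj : Set.InjOn φ (Q.erase p : Finset (ℕ × ℕ)) := by
    intro q hq q' hq' he
    rw [mem_coe] at hq hq'
    have hqQ := (mem_erase.1 hq).2
    have hqQ' := (mem_erase.1 hq').2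
    rw [hQ, mem_filter] at hqQ hqQ'
    obtain ⟨hqR, hH1, hH2⟩ := hqQ
    obtain ⟨hqR', hH1', hH2'⟩ := hqQ'
    obtain ⟨_, _, _, _, q5, _⟩ := LgA2_mem hqR
    obtain ⟨_, _, _, _, q5', _⟩ := LgA2_mem hqR'
    have hH : Hp f q.1 = Hp f q'.1 := hH1.trans hH1'.symm
    rw [hφ, hφ] at he
    by_cases h1 : c < (f q.1).getD 0
    · by_cases h2 : c < (f q'.1).getD 0
      · rw [if_pos h1, if_pos h2] at he
        exact LgA2_same h hqR hqR' (by rw [he]) hH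
      · rw [if_pos h1, if_neg h2] at he
        rw [he] at hH1
        omega
    · by_cases h2 : c < (f q'.1).getD 0
      · rw [if_neg h1, if_pos h2] at he
        rw [← he] at hH1'
        omega
      · rw [if_neg h1, if_neg h2] at he
        refine LgA2_same h hqR hqR' ?_ hH
        rw [← q5, ← q5', he]
  have hcard := Finset.card_le_card_of_injOn φ hmaps hinj
  rw [Nat.card_Ioo, card_erase_of_mem hpQ] at hcard
  omega

end Pool.Agent.H.MP_2d605f_pr
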