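import Pool.Agent.H.MP_2d605f_pr.LgA2

/-! The weighted number of first returns is at most four times the number of runs.

`one_le`: generic. `ret_sum`: write `n v = (Run f N v).card`. Every `p ∈ Ret f N`, `a = Hp f p.1 < b = Hp f p.2`, is in one of four classes:
(1) some `v` in `(a, b)` has `n a ≤ n v`; (2) some `v` in `(a, b)` has `n b ≤ n v`; (3) all `v` in `(a, b)` have `n v < n a`,
`n v < n b`, and `n a ≤ n b`; (4) the same with `n b < n a`. For fixed `a` the classes (1), (3) and for fixed `b` the classes (2), (4)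
satisfy the hypothesis of `one_le` with `r p = p.2 - p.1`: (1), (2) by `start_card_le`, `end_card_le`, `run_card_le`; in
(3) `b` is determined by `a`, in (4) `a` by `b`, so `pair_card_le` applies. `a, b ≤ Hp f N`.
-/

open Finset

namespace Pool.Agent.H.MP_2d605f_pr

lemma one_le {α : Type} (s : Finset α) (r : α → ℝ) (h : ∀ p ∈ s, (s.card : ℝ) ≤ r p) :
    ∑ p ∈ s, 1 / r p ≤ 1 := by
  rcases s.eq_empty_or_nonempty with rfl | hs
  · simp
  · have hc : (0 : ℝ) < s.card := by exact_mod_cast hs.card_pos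
    calc ∑ p ∈ s, 1 / r p ≤ ∑ _p ∈ s, 1 / (s.card : ℝ) :=
          Finset.sum_le_sum fun p hp => one_div_le_one_div_of_le hc (h p hp)
      _ = 1 := by
          rw [Finset.sum_const, nsmul_eq_mul]
          field_simp

lemma LgA3_lt {f : ℕ → Option ℕ} {N : ℕ} {p : ℕ × ℕ} (hp : p ∈ Ret f N) :
    p.1 + 2 ≤ p.2 ∧ p.1 < N ∧ p.2 < N := by
  unfold Ret at hp
  rw [mem_filter, mem_product, mem_range, mem_range] at hp
  exact ⟨hp.2.1, hp.1.1, hp.1.2⟩

lemma LgA3_class {f : ℕ → Option ℕ} {N : ℕ} (C : ℕ × ℕ → Prop) [DecidablePred C]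
    (g : ℕ × ℕ → ℕ) (hg : ∀ p ∈ Ret f N, g p ∈ range (Hp f N + 1))
    (hC : ∀ p ∈ (Ret f N).filter C,
      ((((Ret f N).filter C).filter (fun q => g q = g p)).card) ≤ p.2 - p.1) :
    ∑ p ∈ (Ret f N).filter C, 1 / ((p.2 : ℝ) - p.1) ≤ (Hp f N : ℝ) + 1 := by
  rw [← Finset.sum_fiberwise_of_maps_to (g := g) (t := range (Hp f N + 1))
    (fun p hp => hg p (mem_filter.1 hp).1)]
  refine (Finset.sum_le_sum (g := fun _ => (1 : ℝ)) fun a _ => ?_).trans (le_of_eq ?_)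
  · refine one_le _ (fun p : ℕ × ℕ => (p.2 : ℝ) - p.1) fun p hp => ?_
    have h1 := hC p (mem_filter.1 hp).1
    rw [(mem_filter.1 hp).2] at h1
    have h2 := LgA3_lt (mem_filter.1 (mem_filter.1 hp).1).1
    have h3 : ((p.2 - p.1 : ℕ) : ℝ) = (p.2 : ℝ) - p.1 := by
      rw [Nat.cast_sub (by omega)]
    rw [← h3]
    exact_mod_cast h1
  · rw [Finset.sum_const, card_range, nsmul_eq_mul, mul_one]
    push_cast
    rfl

open Classical in
theorem ret_sum {f : ℕ → Option ℕ} {N : ℕ} (h : Mono f N) :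
    ∑ p ∈ Ret f N, 1 / ((p.2 : ℝ) - p.1) ≤ 4 * ((Hp f N : ℝ) + 1) := by
  set n : ℕ → ℕ := fun v => (Run f N v).card with hn
  let A : ℕ × ℕ → Prop := fun p => ∀ v, Hp f p.1 < v → v < Hp f p.2 →
    n v < n (Hp f p.1) ∧ n v < n (Hp f p.2)
  let C1 : ℕ × ℕ → Prop := fun p => ∃ v, Hp f p.1 < v ∧ v < Hp f p.2 ∧ n (Hp f p.1) ≤ n v
  let C2 : ℕ × ℕ → Prop := fun p => ∃ v, Hp f p.1 < v ∧ v < Hp f p.2 ∧ n (Hp f p.2) ≤ n v
  let C3 : ℕ × ℕ → Prop := fun p => A p ∧ n (Hp f p.1) ≤ n (Hp f p.2)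
  let C4 : ℕ × ℕ → Prop := fun p => A p ∧ n (Hp f p.2) < n (Hp f p.1)
  have hg1 : ∀ p ∈ Ret f N, Hp f p.1 ∈ range (Hp f N + 1) := fun p hp => by
    rw [mem_range]
    have := Hp_mono f (LgA3_lt hp).2.1.le
    omega
  have hg2 : ∀ p ∈ Ret f N, Hp f p.2 ∈ range (Hp f N + 1) := fun p hp => by
    rw [mem_range]
    have := Hp_mono f (LgA3_lt hp).2.2.le
    omega
  have b1 : ∑ p ∈ (Ret f N).filter C1, 1 / ((p.2 : ℝ) - p.1) ≤ (Hp f N : ℝ) + 1 := by
    refine LgA3_class C1 (fun p => Hp f p.1) hg1 fun p hp => ?_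
    obtain ⟨v, h1, h2, h3⟩ := (mem_filter.1 hp).2
    calc _ ≤ ((Ret f N).filter (fun q => Hp f q.1 = Hp f p.1)).card :=
          card_le_card (filter_subset_filter _ (filter_subset _ _))
      _ ≤ n (Hp f p.1) := start_card_le f N _
      _ ≤ n v := h3
      _ ≤ p.2 - p.1 := run_card_le h1 h2
  have b2 : ∑ p ∈ (Ret f N).filter C2, 1 / ((p.2 : ℝ) - p.1) ≤ (Hp f N : ℝ) + 1 := by
    refine LgA3_class C2 (fun p => Hp f p.2) hg2 fun p hp => ?_
    obtain ⟨v, h1, h2, h3⟩ := (mem_filter.1 hp).2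
    calc _ ≤ ((Ret f N).filter (fun q => Hp f q.2 = Hp f p.2)).card :=
          card_le_card (filter_subset_filter _ (filter_subset _ _))
      _ ≤ n (Hp f p.2) := end_card_le f N _
      _ ≤ n v := h3
      _ ≤ p.2 - p.1 := run_card_le h1 h2
  have b3 : ∑ p ∈ (Ret f N).filter C3, 1 / ((p.2 : ℝ) - p.1) ≤ (Hp f N : ℝ) + 1 := by
    refine LgA3_class C3 (fun p => Hp f p.1) hg1 fun p hp => ?_
    obtain ⟨hpR, hpA, hpn⟩ := mem_filter.1 hp
    refine (card_le_card ?_).trans (pair_card_le h hpR)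
    intro q hq
    obtain ⟨hq1, hqa⟩ := mem_filter.1 hq
    obtain ⟨hqR, hqA, hqn⟩ := mem_filter.1 hq1
    refine mem_filter.2 ⟨hqR, hqa, ?_⟩
    have l1 := ret_lt h hpR
    have l2 := ret_lt h hqR
    change Hp f _ = Hp f _ at hqa
    rcases lt_trichotomy (Hp f q.2) (Hp f p.2) with h5 | h5 | h5
    · have h6 := (hpA (Hp f q.2) (by omega) h5).1
      rw [hqa] at hqn
      omega
    · exact h5
    · have h6 := (hqA (Hp f p.2) (by omega) h5).1
      rw [hqa] at h6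
      omega
  have b4 : ∑ p ∈ (Ret f N).filter C4, 1 / ((p.2 : ℝ) - p.1) ≤ (Hp f N : ℝ) + 1 := by
    refine LgA3_class C4 (fun p => Hp f p.2) hg2 fun p hp => ?_
    obtain ⟨hpR, hpA, hpn⟩ := mem_filter.1 hp
    refine (card_le_card ?_).trans (pair_card_le h hpR)
    intro q hq
    obtain ⟨hq1, hqa⟩ := mem_filter.1 hq
    obtain ⟨hqR, hqA, hqn⟩ := mem_filter.1 hq1
    refine mem_filter.2 ⟨hqR, ?_, hqa⟩
    have l1 := ret_lt h hpR
    have l2 := ret_lt h hqR
    change Hp f _ = Hp f _ at hqa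
    rcases lt_trichotomy (Hp f q.1) (Hp f p.1) with h5 | h5 | h5
    · have h6 := (hqA (Hp f p.1) h5 (by omega)).2
      rw [hqa] at h6
      omega
    · exact h5
    · have h6 := (hpA (Hp f q.1) h5 (by omega)).2
      rw [hqa] at hqn
      omega
  have hcov : ∀ p ∈ Ret f N, 1 / ((p.2 : ℝ) - p.1) ≤
      ((if C1 p then 1 / ((p.2 : ℝ) - p.1) else 0) + (if C2 p then 1 / ((p.2 : ℝ) - p.1) else 0)) +
      ((if C3 p then 1 / ((p.2 : ℝ) - p.1) else 0) +
        (if C4 p then 1 / ((p.2 : ℝ) - p.1) else 0)) := by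
    intro p hp
    have h0 : (0 : ℝ) ≤ 1 / ((p.2 : ℝ) - p.1) := by
      have h1 := (LgA3_lt hp).1
      have h2 : (p.1 : ℝ) ≤ p.2 := by exact_mod_cast (by omega : p.1 ≤ p.2)
      exact div_nonneg zero_le_one (sub_nonneg.2 h2)
    have hA : C1 p ∨ C2 p ∨ C3 p ∨ C4 p := by
      by_cases c1 : C1 p
      · exact Or.inl c1
      by_cases c2 : C2 p
      · exact Or.inr (Or.inl c2)
      have hA : A p := by
        intro v h1 h2
        refine ⟨?_, ?_⟩
        · by_contra hcon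
          exact c1 ⟨v, h1, h2, not_lt.1 hcon⟩
        · by_contra hcon
          exact c2 ⟨v, h1, h2, not_lt.1 hcon⟩
      rcases Nat.lt_or_ge (n (Hp f p.2)) (n (Hp f p.1)) with h5 | h5
      · exact Or.inr (Or.inr (Or.inr ⟨hA, h5⟩))
      · exact Or.inr (Or.inr (Or.inl ⟨hA, h5⟩))
    generalize 1 / ((p.2 : ℝ) - p.1) = x at h0 ⊢
    rcases hA with c | c | c | c
    · rw [if_pos c]
      split_ifs <;> linarith
    · rw [if_pos c]
      split_ifs <;> linarith
    · rw [if_pos c]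
      split_ifs <;> linarith
    · rw [if_pos c]
      split_ifs <;> linarith
  refine (Finset.sum_le_sum hcov).trans ?_
  rw [Finset.sum_add_distrib, Finset.sum_add_distrib, Finset.sum_add_distrib,
    ← Finset.sum_filter, ← Finset.sum_filter, ← Finset.sum_filter, ← Finset.sum_filter]
  linarith

end Pool.Agent.H.MP_2d605f_pr
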