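import Pool.Agent.H.MP_2d605f_pr.LgA3

/-! The bound for paths.

`occ_mono`: `hcross`. `sum_holes`: exchange the sums; in round `s` exactly `n - k` vertices are empty (`hinj`).
`sum_ret`: the left side is a sum over `(i, p)`, map it injectively to `(y p.1 i, p)`, which is in the right side
(`occ_some`). `path_log`: `sum_ret`, `ret_sum` for all `a`, `sum_holes`.
-/

open Finset

namespace Pool.Agent.H.MP_2d605f_pr

section
variable {V : Type} [Fintype V] [DecidableEq V] {k : ℕ}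


omit [Fintype V] in
lemma LgB_ex {y : ℕ → Fin k → V} {a : V} {s b : ℕ} (h : occ y a s = some b) :
    ∃ i : Fin k, (i : ℕ) = b ∧ y s i = a := by
  unfold occ at h
  by_cases h' : ∃ i, y s i = a
  · rw [dif_pos h'] at h
    exact ⟨h'.choose, Option.some_inj.1 h, h'.choose_spec⟩
  · rw [dif_neg h'] at h
    exact absurd h (by simp)

lemma occ_some {y : ℕ → Fin k → V} {a : V} {s : ℕ} (h : Function.Injective (y s)) (i : Fin k) :
    occ y a s = some (i : ℕ) ↔ y s i = a := by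
  constructor
  · intro h1
    obtain ⟨j, hj, hj'⟩ := LgB_ex h1
    rw [← Fin.ext hj]
    exact hj'
  · intro h1
    have h' : ∃ i, y s i = a := ⟨i, h1⟩
    unfold occ
    rw [dif_pos h']
    have h2 : h'.choose = i := h (h'.choose_spec.trans h1.symm)
    rw [h2]


lemma occ_none {y : ℕ → Fin k → V} {a : V} {s : ℕ} : occ y a s = none ↔ ∀ i, y s i ≠ a := by
  unfold occ
  by_cases h' : ∃ i, y s i = a
  · rw [dif_pos h']
    constructor
    · intro h
      exact absurd h (by simp)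
    · intro h
      exact absurd h'.choose_spec (h _)
  · rw [dif_neg h']
    exact ⟨fun _ i hi => h' ⟨i, hi⟩, fun _ => rfl⟩


lemma occ_mono {y : ℕ → Fin k → V} {N : ℕ} (hinj : ∀ s < N, Function.Injective (y s))
    (hcross : ∀ s, s + 1 < N → ∀ a c : Fin k, a < c → y (s + 1) a ≠ y s c) (a : V) :
    Mono (occ y a) N := by
  intro s hs b c hb hc
  obtain ⟨i, hi, hi'⟩ := LgB_ex hb
  obtain ⟨j, hj, hj'⟩ := LgB_ex hc
  by_contra hcon
  have hlt : j < i := by
    show (j : ℕ) < (i : ℕ)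
    omega
  exact hcross s hs j i hlt (hj'.trans hi'.symm)

lemma sum_holes {y : ℕ → Fin k → V} {N : ℕ} (hinj : ∀ s < N, Function.Injective (y s)) :
    ∑ a, (Hp (occ y a) N : ℝ) = N * ((Fintype.card V : ℝ) - k) := by
  have e1 : ∀ a, (Hp (occ y a) N : ℝ) = ∑ u ∈ range N, if occ y a u = none then (1 : ℝ) else 0 := by
    intro a
    unfold Hp
    rw [Finset.card_filter]
    push_cast
    rfl
  rw [Finset.sum_congr rfl fun a _ => e1 a, Finset.sum_comm]
  have e2 : ∀ u ∈ range N, (∑ a, if occ y a u = none then (1 : ℝ) else 0) =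
      (Fintype.card V : ℝ) - k := by
    intro u hu
    have hu' := hinj u (mem_range.1 hu)
    rw [Finset.sum_boole]
    have e3 : (univ.filter fun a => occ y a u = none) = (univ.image (y u))ᶜ := by
      ext a
      rw [Finset.mem_filter, Finset.mem_compl, Finset.mem_image, occ_none]
      constructor
      · rintro ⟨-, h⟩ ⟨i, -, hi⟩
        exact h i hi
      · intro h
        exact ⟨mem_univ a, fun i hi => h ⟨i, mem_univ i, hi⟩⟩
    have hle : k ≤ Fintype.card V := by
      have h := Fintype.card_le_of_injective _ hu'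
      rwa [Fintype.card_fin] at h
    rw [e3, Finset.card_compl, Finset.card_image_of_injective _ hu', Finset.card_univ,
      Fintype.card_fin, Nat.cast_sub hle]
  rw [Finset.sum_congr rfl e2, Finset.sum_const, Finset.card_range, nsmul_eq_mul]

lemma sum_ret {y : ℕ → Fin k → V} {N : ℕ} (hinj : ∀ s < N, Function.Injective (y s)) :
    ∑ i, ∑ p ∈ (range N ×ˢ range N).filter (FR y i), 1 / ((p.2 : ℝ) - p.1) ≤
      ∑ a, ∑ p ∈ Ret (occ y a) N, 1 / ((p.2 : ℝ) - p.1) := by
  classical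
  rw [Finset.sum_sigma', Finset.sum_sigma']
  have hmem : ∀ x ∈ univ.sigma (fun i : Fin k => (range N ×ˢ range N).filter (FR y i)),
      x.2.1 < N ∧ x.2.2 < N ∧ FR y x.1 x.2 := by
    intro x hx
    have h1 := Finset.mem_filter.1 (Finset.mem_sigma.1 hx).2
    have h2 := Finset.mem_product.1 h1.1
    exact ⟨mem_range.1 h2.1, mem_range.1 h2.2, h1.2⟩
  have hinj' : Set.InjOn (fun x : (Σ _ : Fin k, ℕ × ℕ) => (⟨y x.2.1 x.1, x.2⟩ : Σ _ : V, ℕ × ℕ))
      (univ.sigma (fun i : Fin k => (range N ×ˢ range N).filter (FR y i)) :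
        Finset (Σ _ : Fin k, ℕ × ℕ)) := by
    rintro ⟨i, p⟩ hx ⟨j, q⟩ hx' heq
    obtain ⟨h1, -, -⟩ := hmem _ (Finset.mem_coe.1 hx)
    simp only [Sigma.mk.injEq, heq_eq_eq] at heq
    obtain ⟨h2, h3⟩ := heq
    subst h3
    rw [hinj p.1 h1 h2]
  have hsum := Finset.sum_image (f := fun x : (Σ _ : V, ℕ × ℕ) => 1 / ((x.2.2 : ℝ) - x.2.1)) hinj'
  refine le_trans (le_of_eq hsum.symm) ?_
  refine Finset.sum_le_sum_of_subset_of_nonneg ?_ ?_
  · intro z hz
    obtain ⟨⟨i, p⟩, hx, rfl⟩ := Finset.mem_image.1 hz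
    obtain ⟨h1, h2, h3, h4, h5⟩ := hmem _ hx
    have o1 : occ y (y p.1 i) p.1 = some (i : ℕ) := (occ_some (hinj _ h1) i).2 rfl
    have o2 : occ y (y p.1 i) p.2 = some (i : ℕ) := (occ_some (hinj _ h2) i).2 h4
    refine Finset.mem_sigma.2 ⟨mem_univ _, ?_⟩
    refine Finset.mem_filter.2 ⟨Finset.mem_product.2 ⟨mem_range.2 h1, mem_range.2 h2⟩, h3, ?_, ?_, ?_⟩
    · show occ y (y p.1 i) p.1 ≠ none
      rw [o1]
      simp
    · show occ y (y p.1 i) p.2 = occ y (y p.1 i) p.1
      rw [o1, o2]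
    · intro u hu
      show occ y (y p.1 i) u ≠ occ y (y p.1 i) p.1
      rw [o1]
      intro h6
      exact h5 u hu ((occ_some (hinj u ((Finset.mem_Ioo.1 hu).2.trans h2)) i).1 h6)
  · rintro ⟨a, p⟩ hz -
    have h1 := (Finset.mem_filter.1 (Finset.mem_sigma.1 hz).2).2.1
    have h2 : ((p.1 + 2 : ℕ) : ℝ) ≤ (p.2 : ℝ) := Nat.cast_le.2 h1
    push_cast at h2
    refine one_div_nonneg.2 ?_
    show (0 : ℝ) ≤ (p.2 : ℝ) - p.1
    linarith

theorem path_log {y : ℕ → Fin k → V} {N : ℕ} (hinj : ∀ s < N, Function.Injective (y s))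
    (hcross : ∀ s, s + 1 < N → ∀ a c : Fin k, a < c → y (s + 1) a ≠ y s c) :
    ∑ i, ∑ p ∈ (range N ×ˢ range N).filter (FR y i), 1 / ((p.2 : ℝ) - p.1) ≤
      4 * (N * ((Fintype.card V : ℝ) - k) + Fintype.card V) := by
  refine (sum_ret hinj).trans ?_
  refine (Finset.sum_le_sum fun a _ => ret_sum (occ_mono hinj hcross a)).trans ?_
  rw [← Finset.mul_sum, Finset.sum_add_distrib, sum_holes hinj, Finset.sum_const, Finset.card_univ,
    nsmul_eq_mul, mul_one]

end

end Pool.Agent.H.MP_2d605f_pr
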