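import Pool.Agent.H.MP_2d605f_pr.LgC1

/-! The probability of a first return.

`first_return`: `prob_event` with `E x = (exx x (s+r) = exx x s ∧ ∀ u ∈ Ioo s (s+r), exx x u ≠ exx x s)` and `LgE_ret` with
`K = srw loops`, `f = ini S i` (`ini_sum`): `(p, q) = (1/n, 1/n)` with loops and `(1/(n-1), 0)` without.
With loops `(1 - 1/n) * (1/n * (1 - 1/n)^(r-2)) = 1/n * (1 - 1/n)^(r-1)`. `srw_sum`: as `srw_sum_one` in TwP.lean and `hsum` in
`prob_stay` of Upper.lean. `total_one`: `prob_event` with `E = True` and `LgE_const`.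
-/

open Finset

namespace Pool.Agent.H.MP_2d605f_pr

section
variable {V : Type} [Fintype V] [DecidableEq V] {k : ℕ} {loops : Bool} {S : MarkovSystem V k}

lemma srw_sum (loops : Bool) (hn : 2 ≤ Fintype.card V) (a : V) : ∑ b, srw loops a b = 1 := by
  have hc : (2 : ℝ) ≤ Fintype.card V := by exact_mod_cast hn
  unfold srw
  cases loops
  · simp only [Bool.false_eq_true, if_false]
    have e : ∀ c, (if a = c then (0 : ℝ) else 1 / ((Fintype.card V : ℝ) - 1)) =
        1 / ((Fintype.card V : ℝ) - 1) - (if a = c then 1 / ((Fintype.card V : ℝ) - 1) else 0) := by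
      intro c
      split_ifs <;> ring
    simp only [e]
    rw [Finset.sum_sub_distrib, Finset.sum_ite_eq]
    simp only [Finset.sum_const, card_univ, nsmul_eq_mul, mem_univ, if_true]
    have h1 : (Fintype.card V : ℝ) - 1 ≠ 0 := by linarith
    field_simp
  · simp only [if_true, Finset.sum_const, card_univ, nsmul_eq_mul]
    have h1 : (Fintype.card V : ℝ) ≠ 0 := by linarith
    field_simp

lemma LgC_event (H : IsAvoidanceCoupling loops S) (i : Fin k) (T : ℕ)
    (E : (Fin (T + 1) → V) → Prop) [DecidablePred E] :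
    (∑ ω : Fin (T + 1) → Fin k → V, if E (fun t => ω t i) then S.pathProb T ω else 0) =
      LgE (srw loops) T (ini S i) (fun x => if E x then 1 else 0) := by
  rw [prob_event H i T E]
  unfold LgE
  refine Finset.sum_congr rfl fun x _ => ?_
  by_cases hx : E x
  · simp only [if_pos hx, mul_one]
  · simp only [if_neg hx, mul_zero]

lemma first_return (H : IsAvoidanceCoupling loops S) (hn : 2 ≤ Fintype.card V) (i : Fin k)
    (T s r : ℕ) (hr : 2 ≤ r) (h : s + r ≤ T) :
    (∑ ω : Fin (T + 1) → Fin k → V, if FR (ex ω) i (s, s + r) then S.pathProb T ω else 0) =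
      pr loops (Fintype.card V) r := by
  have h1 := LgC_event H i T (fun x => exx x (s + r) = exx x s ∧
    ∀ u ∈ Ioo s (s + r), exx x u ≠ exx x s)
  have h2 : (∑ ω : Fin (T + 1) → Fin k → V, if FR (ex ω) i (s, s + r) then S.pathProb T ω else 0) =
      ∑ ω : Fin (T + 1) → Fin k → V, if (exx (fun t => ω t i) (s + r) = exx (fun t => ω t i) s ∧
        ∀ u ∈ Ioo s (s + r), exx (fun t => ω t i) u ≠ exx (fun t => ω t i) s)
        then S.pathProb T ω else 0 := by
    refine Finset.sum_congr rfl fun ω _ => if_congr ?_ rfl rfl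
    constructor
    · intro h3
      exact ⟨h3.2.1, h3.2.2⟩
    · intro h3
      exact ⟨by show s + 2 ≤ s + r; omega, h3.1, h3.2⟩
  rw [h2]
  refine h1.trans ?_
  cases loops with
  | false =>
    rw [LgE_ret (K := srw false) (srw_sum false hn) (p := 1 / ((Fintype.card V : ℝ) - 1)) (q := 0)
      (fun a b hab => by unfold srw; simp [hab]) (fun a => by unfold srw; simp) r hr s T
      (ini S i) (ini_sum S i) h]
    unfold pr
    simp
  | true =>
    rw [LgE_ret (K := srw true) (srw_sum true hn) (p := 1 / (Fintype.card V : ℝ))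
      (q := 1 / (Fintype.card V : ℝ))
      (fun a b hab => by unfold srw; simp) (fun a => by unfold srw; simp) r hr s T
      (ini S i) (ini_sum S i) h]
    unfold pr
    rw [if_pos rfl]
    obtain ⟨m, rfl⟩ : ∃ m, r = m + 2 := ⟨r - 2, by omega⟩
    rw [show m + 2 - 2 = m by omega, show m + 2 - 1 = m + 1 by omega, pow_succ]
    ring

lemma total_one (H : IsAvoidanceCoupling loops S) (hn : 2 ≤ Fintype.card V) (i : Fin k) (T : ℕ) :
    ∑ ω : Fin (T + 1) → Fin k → V, S.pathProb T ω = 1 := by
  have h1 := LgC_event H i T (fun _ => True)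
  simp only [if_true] at h1
  rw [h1, LgE_const (srw_sum loops hn), ini_sum, mul_one]

end

end Pool.Agent.H.MP_2d605f_pr
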