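import Pool.Agent.H.MP_2d605f_pr.LgDef

/-! First return of a Markov chain with a kernel `K`, as a sum over paths.

`LgE`, `LgE_succ`, `LgE_const` are `TwP_E`, `TwP_succ`, `TwP_const` of TwP.lean (copy the proofs). `LgE_hit`: first visit of `a`
in exactly `j` rounds from a start with law `f` off `a`: induction on `j`; `LgE_ret`: peel off the position at round `s`.
Both by `LgE_succ`; the rest of the path after the event is summed by `LgE_const`.
-/

open Finset

namespace Pool.Agent.H.MP_2d605f_pr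

/-- sums over paths -/
noncomputable def LgE {V : Type} [Fintype V] (K : V → V → ℝ) (T : ℕ) (f : V → ℝ)
    (G : (Fin (T + 1) → V) → ℝ) : ℝ :=
  ∑ x : Fin (T + 1) → V, f (x 0) * (∏ s : Fin T, K (x s.castSucc) (x s.succ)) * G x

lemma LgE_succ {V : Type} [Fintype V] (K : V → V → ℝ) (T : ℕ) (f : V → ℝ)
    (G : (Fin (T + 1 + 1) → V) → ℝ) :
    LgE K (T + 1) f G = ∑ a, f a * LgE K T (K a) (fun y => G (Fin.cons a y)) := by
  unfold LgE
  rw [← (Fin.consEquiv (fun _ : Fin (T + 2) => V)).sum_comp, Fintype.sum_prod_type]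
  refine Finset.sum_congr rfl fun a _ => ?_
  rw [Finset.mul_sum]
  refine Finset.sum_congr rfl fun y _ => ?_
  simp only [Fin.consEquiv_apply, Fin.cons_zero]
  rw [Fin.prod_univ_succ]
  simp only [Fin.cons_zero, Fin.cons_succ, Fin.castSucc_zero, ← Fin.succ_castSucc]
  have e : (Fin.consEquiv fun _ : Fin (T + 2) => V) (a, y) = (Fin.cons a y : Fin (T + 2) → V) := rfl
  rw [e]
  ring

lemma LgE_const {V : Type} [Fintype V] {K : V → V → ℝ} (hK : ∀ a, ∑ b, K a b = 1)
    (T : ℕ) (f : V → ℝ) (C : ℝ) : LgE K T f (fun _ => C) = (∑ a, f a) * C := by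
  induction T generalizing f with
  | zero =>
    unfold LgE
    rw [← (Equiv.funUnique (Fin 1) V).symm.sum_comp, Finset.sum_mul]
    refine Finset.sum_congr rfl fun a _ => ?_
    simp [Equiv.funUnique]
  | succ T ih =>
    rw [LgE_succ, Finset.sum_mul]
    refine Finset.sum_congr rfl fun a _ => ?_
    rw [ih, hK, one_mul]

/-- `x` as a function on all rounds -/
def exx {V : Type} {T : ℕ} (x : Fin (T + 1) → V) (s : ℕ) : V := x ⟨min s T, by omega⟩

private lemma LgC1_head {V : Type} [Fintype V] {K : V → V → ℝ} (hK : ∀ a, ∑ b, K a b = 1)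
    (T : ℕ) (f φ : V → ℝ) : LgE K T f (fun y => φ (exx y 0)) = ∑ a, f a * φ a := by
  have h := LgE_const hK T (fun a => f a * φ a) 1
  rw [mul_one] at h
  rw [← h]
  unfold LgE
  refine Finset.sum_congr rfl fun y _ => ?_
  have e0 : (⟨min 0 T, by omega⟩ : Fin (T + 1)) = 0 := Fin.ext (Nat.zero_min T)
  have e : exx y 0 = y 0 := congrArg y e0
  change f (y 0) * _ * φ (exx y 0) = f (y 0) * φ (y 0) * _ * 1
  rw [e]
  ring

private lemma LgC1_congr {V : Type} [Fintype V] {K : V → V → ℝ} {T : ℕ} {f : V → ℝ}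
    {G G' : (Fin (T + 1) → V) → ℝ} (h : ∀ y, G y = G' y) : LgE K T f G = LgE K T f G' :=
  congrArg (LgE K T f) (funext h)

private lemma LgC1_zero {V : Type} {T : ℕ} (a : V) (y : Fin (T + 1) → V) :
    exx (Fin.cons a y : Fin (T + 1 + 1) → V) 0 = a := by
  unfold exx
  have e : (⟨min 0 (T + 1), by omega⟩ : Fin (T + 1 + 1)) = 0 := Fin.ext (Nat.zero_min _)
  rw [e, Fin.cons_zero]

private lemma LgC1_succ {V : Type} {T : ℕ} (a : V) (y : Fin (T + 1) → V) (s : ℕ) :
    exx (Fin.cons a y : Fin (T + 1 + 1) → V) (s + 1) = exx y s := by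
  unfold exx
  have e : (⟨min (s + 1) (T + 1), by omega⟩ : Fin (T + 1 + 1)) =
      Fin.succ ⟨min s T, by omega⟩ := by
    apply Fin.ext
    rw [Fin.val_succ]
    change min (s + 1) (T + 1) = min s T + 1
    omega
  rw [e, Fin.cons_succ]

private lemma LgC1_off {V : Type} [Fintype V] [DecidableEq V] {K : V → V → ℝ}
    (hK : ∀ a, ∑ b, K a b = 1) (a b : V) : ∑ c, (if c = a then 0 else K b c) = 1 - K b a := by
  have h1 : ∀ c, (if c = a then 0 else K b c) = K b c - (if c = a then K b c else 0) := by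
    intro c
    split_ifs <;> ring
  rw [Finset.sum_congr rfl fun c _ => h1 c, Finset.sum_sub_distrib, hK, Finset.sum_ite_eq',
    if_pos (mem_univ a)]

/-- first visit of `a` at round `j ≤ T`, for the starting law `f` -/
lemma LgE_hit {V : Type} [Fintype V] [DecidableEq V] {K : V → V → ℝ} (hK : ∀ a, ∑ b, K a b = 1)
    {a : V} {p : ℝ} (hp : ∀ b, b ≠ a → K b a = p) (j : ℕ) : ∀ (T : ℕ) (f : V → ℝ), j ≤ T →
    LgE K T f (fun x => if exx x j = a ∧ ∀ u < j, exx x u ≠ a then 1 else 0) =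
      if j = 0 then f a else (∑ b, (if b = a then 0 else f b)) * (p * (1 - p) ^ (j - 1)) := by
  induction j with
  | zero =>
    intro T f _
    rw [if_pos rfl]
    refine (LgC1_congr (G' := fun x => (fun b => if b = a then (1 : ℝ) else 0) (exx x 0))
      fun y => ?_).trans ?_
    · refine if_congr ?_ rfl rfl
      constructor
      · exact fun h => h.1
      · exact fun h => ⟨h, fun u hu => absurd hu (Nat.not_lt_zero u)⟩
    · refine (LgC1_head hK T f (fun b => if b = a then (1 : ℝ) else 0)).trans ?_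
      simp
  | succ j ih =>
    intro T f hT
    obtain ⟨r, rfl⟩ : ∃ r, T = r + 1 := ⟨T - 1, by omega⟩
    rw [if_neg (Nat.succ_ne_zero j), LgE_succ, Finset.sum_mul]
    refine Finset.sum_congr rfl fun b _ => ?_
    by_cases hb : b = a
    · rw [if_pos hb, zero_mul]
      have h1 : LgE K r (K b) (fun y => if exx (Fin.cons b y : Fin (r + 1 + 1) → V) (j + 1) = a ∧
          ∀ u < j + 1, exx (Fin.cons b y : Fin (r + 1 + 1) → V) u ≠ a then 1 else 0) =
          LgE K r (K b) (fun _ => 0) := by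
        refine LgC1_congr fun y => ?_
        rw [if_neg]
        rintro ⟨-, h2⟩
        exact h2 0 (Nat.succ_pos j) (by rw [LgC1_zero, hb])
      rw [h1, LgE_const hK, mul_zero, mul_zero]
    · rw [if_neg hb]
      have h1 : LgE K r (K b) (fun y => if exx (Fin.cons b y : Fin (r + 1 + 1) → V) (j + 1) = a ∧
          ∀ u < j + 1, exx (Fin.cons b y : Fin (r + 1 + 1) → V) u ≠ a then 1 else 0) =
          LgE K r (K b) (fun y => if exx y j = a ∧ ∀ u < j, exx y u ≠ a then 1 else 0) := by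
        refine LgC1_congr fun y => ?_
        refine if_congr ?_ rfl rfl
        rw [LgC1_succ]
        constructor
        · rintro ⟨h2, h3⟩
          refine ⟨h2, fun u hu => ?_⟩
          have h4 := h3 (u + 1) (Nat.succ_lt_succ hu)
          rwa [LgC1_succ] at h4
        · rintro ⟨h2, h3⟩
          refine ⟨h2, fun u hu => ?_⟩
          cases u with
          | zero =>
            rw [LgC1_zero]
            exact hb
          | succ u =>
            rw [LgC1_succ]
            exact h3 u (Nat.lt_of_succ_lt_succ hu)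
      rw [h1, ih r (K b) (by omega)]
      congr 1
      by_cases hj : j = 0
      · rw [if_pos hj, hp b hb, hj]
        simp
      · rw [if_neg hj, LgC1_off hK, hp b hb]
        obtain ⟨i, rfl⟩ : ∃ i, j = i + 1 := ⟨j - 1, by omega⟩
        simp only [Nat.add_sub_cancel]
        rw [pow_succ]
        ring

/-- first return to the position at round `s`, after `r ≥ 2` rounds -/
lemma LgE_ret {V : Type} [Fintype V] [DecidableEq V] {K : V → V → ℝ} (hK : ∀ a, ∑ b, K a b = 1)
    {p q : ℝ} (hp : ∀ a b, b ≠ a → K b a = p) (hq : ∀ a, K a a = q) (r : ℕ) (hr : 2 ≤ r) (s : ℕ) :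
    ∀ (T : ℕ) (f : V → ℝ), ∑ v, f v = 1 → s + r ≤ T →
    LgE K T f (fun x => if exx x (s + r) = exx x s ∧ ∀ u ∈ Ioo s (s + r), exx x u ≠ exx x s
      then 1 else 0) = (1 - q) * (p * (1 - p) ^ (r - 2)) := by
  have key : ∀ (f : V → ℝ), ∑ v, f v = 1 → ∀ (g : V → ℝ) (C : ℝ), (∀ a, g a = C) →
      ∑ a, f a * g a = C := by
    intro f hf g C hg
    rw [Finset.sum_congr rfl fun a _ => by rw [hg a], ← Finset.sum_mul, hf, one_mul]
  induction s with
  | zero =>
    intro T f hf hT
    obtain ⟨m, rfl⟩ : ∃ m, T = m + 1 := ⟨T - 1, by omega⟩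
    obtain ⟨l, rfl⟩ : ∃ l, r = l + 1 := ⟨r - 1, by omega⟩
    rw [LgE_succ]
    refine key f hf _ _ fun a => ?_
    refine (LgC1_congr (G' := fun y => if exx y l = a ∧ ∀ u < l, exx y u ≠ a then 1 else 0)
      fun y => ?_).trans ?_
    · refine if_congr ?_ rfl rfl
      rw [Nat.zero_add, LgC1_succ, LgC1_zero]
      constructor
      · rintro ⟨h2, h3⟩
        refine ⟨h2, fun u hu => ?_⟩
        have h4 := h3 (u + 1) (mem_Ioo.2 ⟨Nat.succ_pos u, Nat.succ_lt_succ hu⟩)
        rwa [LgC1_succ] at h4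
      · rintro ⟨h2, h3⟩
        refine ⟨h2, fun u hu => ?_⟩
        rw [mem_Ioo] at hu
        obtain ⟨w, rfl⟩ : ∃ w, u = w + 1 := ⟨u - 1, by omega⟩
        rw [LgC1_succ]
        exact h3 w (by omega)
    · rw [LgE_hit hK (hp a) l m (K a) (by omega), if_neg (by omega), LgC1_off hK, hq]
      have h5 : l - 1 = l + 1 - 2 := by omega
      rw [h5]
  | succ s ih =>
    intro T f hf hT
    obtain ⟨m, rfl⟩ : ∃ m, T = m + 1 := ⟨T - 1, by omega⟩
    rw [LgE_succ]
    refine key f hf _ _ fun a => ?_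
    rw [← ih m (K a) (hK a) (by omega)]
    refine LgC1_congr fun y => ?_
    refine if_congr ?_ rfl rfl
    have e1 : s + 1 + r = (s + r) + 1 := by omega
    rw [e1, LgC1_succ, LgC1_succ]
    constructor
    · rintro ⟨h2, h3⟩
      refine ⟨h2, fun u hu => ?_⟩
      rw [mem_Ioo] at hu
      have h4 := h3 (u + 1) (mem_Ioo.2 ⟨by omega, by omega⟩)
      rwa [LgC1_succ] at h4
    · rintro ⟨h2, h3⟩
      refine ⟨h2, fun u hu => ?_⟩
      rw [mem_Ioo] at hu
      obtain ⟨w, rfl⟩ : ∃ w, u = w + 1 := ⟨u - 1, by omega⟩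
      rw [LgC1_succ]
      exact h3 w (mem_Ioo.2 ⟨by omega, by omega⟩)

end Pool.Agent.H.MP_2d605f_pr
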