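import Pool.Agent.H.MP_2d605f_pr.LgB
import Pool.Agent.H.MP_2d605f_pr.LgC

/-! The inequality for the return probabilities.

`log_T`: multiply `path_log` for `y = ex ω`, `N = T + 1` by `pathProb` (if it is not 0 the hypotheses hold by `avoid` and `cross`),
sum over `ω` (`total_one` on the right, needs `k ≥ 1`), exchange sums and use `first_return`; on the left keep only the pairs `(s, s + r)`,
`s < T + 1 - R`, `2 ≤ r ≤ R`. `log_ineq`: divide by `T`, `T → ∞` (all terms are nonnegative, or: if `k Σ > 4 (n - k)` take `T` large).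
-/

open Finset

namespace Pool.Agent.H.MP_2d605f_pr

section
variable {V : Type} [Fintype V] [DecidableEq V] {k : ℕ} {loops : Bool} {S : MarkovSystem V k}

/-- the sum over first returns after at most `R` rounds is part of the sum in `path_log` -/
lemma LgD_low (y : ℕ → Fin k → V) (i : Fin k) (R T : ℕ) (hT : R ≤ T) :
    ∑ q ∈ range (T + 1 - R) ×ˢ Icc 2 R,
      (if FR y i (q.1, q.1 + q.2) then 1 / (q.2 : ℝ) else 0) ≤
    ∑ p ∈ (range (T + 1) ×ˢ range (T + 1)).filter (FR y i), 1 / ((p.2 : ℝ) - p.1) := by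
  rw [← Finset.sum_filter]
  have hinj : Set.InjOn (fun q : ℕ × ℕ => (q.1, q.1 + q.2))
      ((range (T + 1 - R) ×ˢ Icc 2 R).filter (fun q => FR y i (q.1, q.1 + q.2)) :
        Finset (ℕ × ℕ)) := by
    rintro ⟨a, b⟩ _ ⟨c, d⟩ _ h
    simp only [Prod.mk.injEq] at h ⊢
    omega
  have e : ∑ q ∈ (range (T + 1 - R) ×ˢ Icc 2 R).filter (fun q => FR y i (q.1, q.1 + q.2)),
      1 / (q.2 : ℝ) =
      ∑ p ∈ ((range (T + 1 - R) ×ˢ Icc 2 R).filter
        (fun q => FR y i (q.1, q.1 + q.2))).image (fun q : ℕ × ℕ => (q.1, q.1 + q.2)),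
        1 / ((p.2 : ℝ) - p.1) := by
    rw [Finset.sum_image hinj]
    refine Finset.sum_congr rfl fun q _ => ?_
    push_cast
    rw [add_sub_cancel_left]
  rw [e]
  refine Finset.sum_le_sum_of_subset_of_nonneg ?_ ?_
  · intro p hp
    rw [Finset.mem_image] at hp
    obtain ⟨q, hq, rfl⟩ := hp
    rw [Finset.mem_filter, Finset.mem_product, Finset.mem_range, Finset.mem_Icc] at hq
    rw [Finset.mem_filter, Finset.mem_product, Finset.mem_range, Finset.mem_range]
    refine ⟨⟨?_, ?_⟩, hq.2⟩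
    · have := hq.1.1
      show q.1 < T + 1
      omega
    · have h1 := hq.1.1
      have h2 := hq.1.2
      show q.1 + q.2 < T + 1
      omega
  · intro p hp _
    rw [Finset.mem_filter] at hp
    have h1 := hp.2.1
    have h2 : (p.1 : ℝ) + 2 ≤ p.2 := by exact_mod_cast h1
    have h3 : (0 : ℝ) ≤ (p.2 : ℝ) - p.1 := by linarith
    exact div_nonneg zero_le_one h3

/-- `path_log` for a possible path -/
lemma LgD_path (H : IsAvoidanceCoupling loops S) (T : ℕ) (ω : Fin (T + 1) → Fin k → V)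
    (h : S.pathProb T ω ≠ 0) :
    ∑ i, ∑ p ∈ (range (T + 1) ×ˢ range (T + 1)).filter (FR (ex ω) i), 1 / ((p.2 : ℝ) - p.1) ≤
      4 * (((T : ℝ) + 1) * ((Fintype.card V : ℝ) - k) + Fintype.card V) := by
  have h1 := path_log (y := ex ω) (N := T + 1)
    (fun s _ => (H.avoid T ω h).1 ⟨min s T, by omega⟩)
    (by
      intro s hs a c hac
      have h2 := cross H h (⟨s, by omega⟩ : Fin T) hac
      have e1 : ex ω (s + 1) = ω (⟨s, by omega⟩ : Fin T).succ := by
        unfold ex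
        congr 1
        apply Fin.ext
        show min (s + 1) T = s + 1
        omega
      have e2 : ex ω s = ω (⟨s, by omega⟩ : Fin T).castSucc := by
        unfold ex
        congr 1
        apply Fin.ext
        show min s T = s
        omega
      rw [e1, e2]
      exact h2)
  refine h1.trans (le_of_eq ?_)
  push_cast
  ring

lemma log_T (H : IsAvoidanceCoupling loops S) (hn : 2 ≤ Fintype.card V) (hk : 1 ≤ k) (R T : ℕ)
    (hT : R ≤ T) : (k : ℝ) * ((T : ℝ) + 1 - R) * ∑ r ∈ Icc 2 R, pr loops (Fintype.card V) r / r ≤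
      4 * (((T : ℝ) + 1) * ((Fintype.card V : ℝ) - k) + Fintype.card V) := by
  have key : ∀ ω : Fin (T + 1) → Fin k → V, S.pathProb T ω *
      (∑ i : Fin k, ∑ q ∈ range (T + 1 - R) ×ˢ Icc 2 R,
        (if FR (ex ω) i (q.1, q.1 + q.2) then 1 / (q.2 : ℝ) else 0)) ≤
      S.pathProb T ω * (4 * (((T : ℝ) + 1) * ((Fintype.card V : ℝ) - k) + Fintype.card V)) := by
    intro ω
    by_cases h : S.pathProb T ω = 0
    · rw [h, zero_mul, zero_mul]
    · refine mul_le_mul_of_nonneg_left ?_ (path_nonneg S T ω)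
      exact (Finset.sum_le_sum fun i _ => LgD_low (ex ω) i R T hT).trans (LgD_path H T ω h)
  have h1 := Finset.sum_le_sum fun (ω : Fin (T + 1) → Fin k → V) (_ : ω ∈ univ) => key ω
  rw [← Finset.sum_mul, total_one H hn ⟨0, hk⟩ T, one_mul] at h1
  refine le_trans (le_of_eq ?_) h1
  have e0 : ∀ ω : Fin (T + 1) → Fin k → V, S.pathProb T ω *
      (∑ i : Fin k, ∑ q ∈ range (T + 1 - R) ×ˢ Icc 2 R,
        (if FR (ex ω) i (q.1, q.1 + q.2) then 1 / (q.2 : ℝ) else 0)) =
      ∑ i : Fin k, ∑ q ∈ range (T + 1 - R) ×ˢ Icc 2 R,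
        (1 / (q.2 : ℝ)) * (if FR (ex ω) i (q.1, q.1 + q.2) then S.pathProb T ω else 0) := by
    intro ω
    rw [Finset.mul_sum]
    refine Finset.sum_congr rfl fun i _ => ?_
    rw [Finset.mul_sum]
    refine Finset.sum_congr rfl fun q _ => ?_
    split_ifs <;> ring
  rw [Finset.sum_congr rfl fun ω _ => e0 ω, Finset.sum_comm]
  have e1 : ∀ i : Fin k, (∑ ω : Fin (T + 1) → Fin k → V,
      ∑ q ∈ range (T + 1 - R) ×ˢ Icc 2 R,
        (1 / (q.2 : ℝ)) * (if FR (ex ω) i (q.1, q.1 + q.2) then S.pathProb T ω else 0)) =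
      ((T : ℝ) + 1 - R) * ∑ r ∈ Icc 2 R, pr loops (Fintype.card V) r / r := by
    intro i
    rw [Finset.sum_comm]
    have e2 : ∀ q ∈ range (T + 1 - R) ×ˢ Icc 2 R, (∑ ω : Fin (T + 1) → Fin k → V,
        (1 / (q.2 : ℝ)) * (if FR (ex ω) i (q.1, q.1 + q.2) then S.pathProb T ω else 0)) =
        pr loops (Fintype.card V) q.2 / q.2 := by
      intro q hq
      rw [Finset.mem_product, Finset.mem_range, Finset.mem_Icc] at hq
      rw [← Finset.mul_sum, first_return H hn i T q.1 q.2 hq.2.1 (by omega)]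
      ring
    rw [Finset.sum_congr rfl e2, Finset.sum_product]
    simp only
    rw [Finset.sum_const, Finset.card_range, nsmul_eq_mul]
    congr 1
    rw [Nat.cast_sub (by omega)]
    push_cast
    ring
  rw [Finset.sum_congr rfl fun i _ => e1 i, Finset.sum_const, Finset.card_univ, Fintype.card_fin,
    nsmul_eq_mul]
  ring

theorem log_ineq (H : IsAvoidanceCoupling loops S) (hn : 2 ≤ Fintype.card V) (hk : 1 ≤ k)
    (R : ℕ) : (k : ℝ) * ∑ r ∈ Icc 2 R, pr loops (Fintype.card V) r / r ≤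
      4 * ((Fintype.card V : ℝ) - k) := by
  by_contra hc
  rw [not_le] at hc
  obtain ⟨x, hx⟩ : ∃ x : ℝ, x = ∑ r ∈ Icc 2 R, pr loops (Fintype.card V) r / r := ⟨_, rfl⟩
  rw [← hx] at hc
  have hd : 0 < (k : ℝ) * x - 4 * ((Fintype.card V : ℝ) - k) := by linarith
  obtain ⟨N, hN⟩ := exists_nat_gt ((4 * ((R : ℝ) * ((Fintype.card V : ℝ) - k) + Fintype.card V)) /
    ((k : ℝ) * x - 4 * ((Fintype.card V : ℝ) - k)))
  rw [div_lt_iff₀ hd] at hN
  have h1 := log_T H hn hk R (R + N) (by omega)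
  rw [← hx] at h1
  push_cast at h1
  nlinarith

end

end Pool.Agent.H.MP_2d605f_pr
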