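import Pool.Agent.H.MP_2d605f_pr.Upper

/-! Holes and returns: definitions. -/

open Finset

namespace Pool.Agent.H.MP_2d605f_pr

/-- the number of holes (`none`) before `s` -/
def Hp (f : ℕ → Option ℕ) (s : ℕ) : ℕ := ((range s).filter (fun u => f u = none)).card

/-- first returns `(s, t)`, `t ≥ s + 2`, before `N` -/
def Ret (f : ℕ → Option ℕ) (N : ℕ) : Finset (ℕ × ℕ) :=
  (range N ×ˢ range N).filter (fun p => p.1 + 2 ≤ p.2 ∧ f p.1 ≠ none ∧ f p.2 = f p.1 ∧
    ∀ u ∈ Ioo p.1 p.2, f u ≠ f p.1)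

/-- the elements of run `v` -/
def Run (f : ℕ → Option ℕ) (N v : ℕ) : Finset ℕ :=
  (range N).filter (fun s => f s ≠ none ∧ Hp f s = v)

/-- `f` is nondecreasing between the holes -/
def Mono (f : ℕ → Option ℕ) (N : ℕ) : Prop :=
  ∀ s, s + 1 < N → ∀ a b, f s = some a → f (s + 1) = some b → a ≤ b

section
variable {V : Type} [Fintype V] [DecidableEq V] {k : ℕ}

open Classical in
/-- the index of the walker at `a` in round `s` -/
noncomputable def occ (y : ℕ → Fin k → V) (a : V) (s : ℕ) : Option ℕ :=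
  if h : ∃ i, y s i = a then some ((h.choose : Fin k) : ℕ) else none

/-- walker `i` returns for the first time, after at least two rounds -/
def FR (y : ℕ → Fin k → V) (i : Fin k) (p : ℕ × ℕ) : Prop :=
  p.1 + 2 ≤ p.2 ∧ y p.2 i = y p.1 i ∧ ∀ u ∈ Ioo p.1 p.2, y u i ≠ y p.1 i

instance (y : ℕ → Fin k → V) (i : Fin k) : DecidablePred (FR y i) := fun p => by
  unfold FR; infer_instance

/-- a path as a function on all rounds -/
def ex {T : ℕ} (ω : Fin (T + 1) → Fin k → V) (s : ℕ) : Fin k → V := ω ⟨min s T, by omega⟩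

/-- the probability of a first return after `r ≥ 2` rounds -/
noncomputable def pr (loops : Bool) (n r : ℕ) : ℝ :=
  if loops = true then 1 / (n : ℝ) * (1 - 1 / (n : ℝ)) ^ (r - 1)
  else 1 / ((n : ℝ) - 1) * (1 - 1 / ((n : ℝ) - 1)) ^ (r - 2)

end

end Pool.Agent.H.MP_2d605f_pr
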