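import Pool.Agent.H.MP_2d605f_pr.LgD

/-! The logarithmic bound.

`pr_ge`: Bernoulli, `(1 - x)^m ≥ 1 - m x` (`one_add_mul_le_pow`), `r ≤ n / 2`. `log_bound`: if `2 k ≤ n` use `log n ≤ n`. Otherwise
`n - k ≥ 1` (`no_coupling_full`), `R = n / 2`: `Σ_{r=2}^R 1/r ≥ log (R + 1) - 1 ≥ log (n / 2) - 1` (`log_add_one_le_harmonic`), so
`(log (n / 2) - 1) / 4 ≤ k Σ pr r / r ≤ 4 (n - k)`, `log n ≤ 16 (n - k) + 1 + log 2`.
-/

open Finset

namespace Pool.Agent.H.MP_2d605f_pr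

lemma LgF_bern {x : ℝ} (hx : 0 < x) (m : ℕ) (h : 2 * (m : ℝ) ≤ x) (h1 : 1 ≤ x) :
    1 / 2 ≤ (1 - 1 / x) ^ m := by
  have h2 : 1 / x ≤ 1 := by
    rw [div_le_one hx]
    exact h1
  have h3 := one_add_mul_le_pow (a := -(1 / x)) (by linarith) m
  have h4 : (m : ℝ) * (1 / x) ≤ 1 / 2 := by
    rw [mul_one_div, div_le_div_iff₀ hx (by norm_num)]
    linarith
  have h5 : 1 + -(1 / x) = 1 - 1 / x := by ring
  rw [h5] at h3
  linarith

lemma pr_ge (loops : Bool) {n r : ℕ} (hn : 2 ≤ n) (hr : 2 ≤ r) (h : 2 * r ≤ n) :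
    1 / (2 * (n : ℝ)) ≤ pr loops n r := by
  have hn4 : (4 : ℝ) ≤ n := by exact_mod_cast (by omega : 4 ≤ n)
  have hrn : 2 * (r : ℝ) ≤ n := by exact_mod_cast h
  have hr2 : (2 : ℝ) ≤ r := by exact_mod_cast hr
  unfold pr
  by_cases hl : loops = true
  · rw [if_pos hl]
    have h1 := LgF_bern (x := n) (by linarith) (r - 1)
      (by rw [Nat.cast_sub (by omega)]; push_cast; linarith) (by linarith)
    calc 1 / (2 * (n : ℝ)) = 1 / n * (1 / 2) := by ring
      _ ≤ _ := mul_le_mul_of_nonneg_left h1 (by positivity)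
  · rw [if_neg hl]
    have h0 : (0 : ℝ) < n - 1 := by linarith
    have h1 := LgF_bern (x := (n : ℝ) - 1) h0 (r - 2)
      (by rw [Nat.cast_sub (by omega)]; push_cast; linarith) (by linarith)
    have h2 : 1 / (n : ℝ) ≤ 1 / ((n : ℝ) - 1) :=
      one_div_le_one_div_of_le h0 (by linarith)
    calc 1 / (2 * (n : ℝ)) = 1 / n * (1 / 2) := by ring
      _ ≤ 1 / ((n : ℝ) - 1) * (1 / 2) := mul_le_mul_of_nonneg_right h2 (by norm_num)
      _ ≤ _ := mul_le_mul_of_nonneg_left h1 (by positivity)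

lemma LgF_harm {R : ℕ} (hR : 1 ≤ R) :
    Real.log ((R : ℝ) + 1) - 1 ≤ ∑ r ∈ Icc 2 R, 1 / (r : ℝ) := by
  have h1 := log_add_one_le_harmonic R
  rw [harmonic_eq_sum_Icc] at h1
  push_cast at h1
  have h2 : ∑ r ∈ Icc 1 R, ((r : ℝ))⁻¹ = 1 + ∑ r ∈ Icc 2 R, 1 / (r : ℝ) := by
    rw [← Finset.add_sum_Ioc_eq_sum_Icc hR]
    have h3 : Ioc 1 R = Icc 2 R := by
      ext r
      simp only [Finset.mem_Ioc, Finset.mem_Icc]
      omega
    rw [h3]
    simp only [Nat.cast_one, inv_one, one_div]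
  rw [h2] at h1
  linarith

theorem log_bound (loops : Bool) (n k : ℕ) (hn : 2 ≤ n) (h : HasMarkovianCoupling loops n k) :
    Real.log n ≤ 18 * ((n : ℝ) - k) := by
  obtain ⟨S, H⟩ := h
  have hcard : Fintype.card (Fin n) = n := Fintype.card_fin n
  have hn2 : (2 : ℝ) ≤ n := by exact_mod_cast hn
  have hkn : k + 1 ≤ n := by
    by_contra hc
    exact no_coupling_full H (by rw [hcard]; omega) (by rw [hcard]; exact hn)
  have hkr : (k : ℝ) + 1 ≤ n := by exact_mod_cast hkn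
  by_cases h2 : 2 * k ≤ n
  · have h3 : 2 * (k : ℝ) ≤ n := by exact_mod_cast h2
    have h4 := Real.log_le_self (by linarith : (0 : ℝ) ≤ n)
    linarith
  · have hk : 1 ≤ k := by omega
    have h3 : (n : ℝ) ≤ 2 * k := by exact_mod_cast (by omega : n ≤ 2 * k)
    have hR : 1 ≤ n / 2 := by omega
    have h4 := log_ineq H (by rw [hcard]; exact hn) hk (n / 2)
    rw [hcard] at h4
    have h5 : (1 / 4) * ∑ r ∈ Icc 2 (n / 2), 1 / (r : ℝ) ≤
        (k : ℝ) * ∑ r ∈ Icc 2 (n / 2), pr loops n r / r := by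
      rw [Finset.mul_sum, Finset.mul_sum]
      refine Finset.sum_le_sum fun r hr => ?_
      rw [Finset.mem_Icc] at hr
      have h6 := pr_ge loops hn hr.1 (by omega)
      have h7 : (1 : ℝ) / 4 ≤ k * pr loops n r := by
        calc (1 : ℝ) / 4 = (n / 2) * (1 / (2 * (n : ℝ))) := by
              field_simp
              norm_num
          _ ≤ k * pr loops n r := by
              refine mul_le_mul (by linarith) h6 (by positivity) (by positivity)
      have hr0 : (0 : ℝ) ≤ r := Nat.cast_nonneg r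
      calc (1 / 4) * (1 / (r : ℝ)) ≤ (k * pr loops n r) * (1 / (r : ℝ)) :=
            mul_le_mul_of_nonneg_right h7 (by positivity)
        _ = (k : ℝ) * (pr loops n r / r) := by ring
    have h6 := LgF_harm hR
    have h7 : Real.log n - Real.log 2 ≤ Real.log (((n / 2 : ℕ) : ℝ) + 1) := by
      rw [← Real.log_div (by linarith) (by norm_num)]
      refine Real.log_le_log (by linarith) ?_
      have h8 : n ≤ 2 * (n / 2) + 1 := by omega
      have h9 : (n : ℝ) ≤ 2 * ((n / 2 : ℕ) : ℝ) + 1 := by exact_mod_cast h8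
      linarith
    have h8 := Real.log_two_lt_d9
    linarith

end Pool.Agent.H.MP_2d605f_pr
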