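import Pool.Agent.H.MP_2d605f_pr.Scheme

/-! The marginal property of the box scheme. -/

open Finset

namespace Pool.Agent.H.MP_2d605f_pr

section lower
variable {V I : Type} [Fintype V] [DecidableEq V] {k : ℕ}

/-- sum over configurations of a product -/
lemma sum_pi_prod (f : Fin k → V → ℝ) : ∑ τ : Fin k → V, ∏ j, f j (τ j) = ∏ j, ∑ v, f j v := by
  rw [Finset.prod_univ_sum, Fintype.piFinset_univ]

/-- Replacing factors at the lower coordinates. -/
lemma sum_lower (box : V → I) (i : Fin k) (B : Fin k → I) (ψ : (Fin k → V) → ℝ)
    (g g' : Fin k → V → ℝ) (r : Fin k → V) (hr : ∀ j, box (r j) = B j)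
    (hψ : ∀ τ τ' : Fin k → V, (∀ j, box (τ j) = B j) → (∀ j, box (τ' j) = B j) →
      (∀ j, i ≤ j → τ j = τ' j) → ψ τ = ψ τ')
    (hg : ∀ j v, box v ≠ B j → g j v = 0) (hg' : ∀ j v, box v ≠ B j → g' j v = 0)
    (hup : ∀ j, i ≤ j → g j = g' j) (hs : ∀ j, j < i → ∑ v, g j v = ∑ v, g' j v) :
    ∑ τ : Fin k → V, (∏ j, g j (τ j)) * ψ τ = ∑ τ : Fin k → V, (∏ j, g' j (τ j)) * ψ τ := by
  have key : ∀ f : Fin k → V → ℝ, (∀ j v, box v ≠ B j → f j v = 0) →
      ∑ τ : Fin k → V, (∏ j, f j (τ j)) * ψ τ =
        ∑ ρ : Fin k → V, ψ ρ * ∏ j, ∑ v, f j v * (if j < i then (if ρ j = r j then 1 else 0)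
          else (if ρ j = v then 1 else 0)) := by
    intro f hf
    have e1 : ∀ ρ : Fin k → V, (∏ j, ∑ v, f j v * (if j < i then (if ρ j = r j then 1 else 0)
          else (if ρ j = v then 1 else 0))) = ∑ τ : Fin k → V, ∏ j, (f j (τ j) *
            (if j < i then (if ρ j = r j then 1 else 0)
              else (if ρ j = τ j then 1 else 0))) := by
      intro ρ
      rw [← sum_pi_prod]
    simp only [e1, Finset.mul_sum]
    rw [Finset.sum_comm]
    refine Finset.sum_congr rfl fun τ _ => ?_
    simp only [Finset.prod_mul_distrib]
    by_cases h : ∀ j, box (τ j) = B j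
    · -- the unique ρ
      let ρ0 : Fin k → V := fun j => if j < i then r j else τ j
      rw [Finset.sum_eq_single ρ0]
      · have h1 : ψ τ = ψ ρ0 := by
          refine hψ τ ρ0 h ?_ ?_
          · intro j
            show box (if j < i then r j else τ j) = B j
            split_ifs
            · exact hr j
            · exact h j
          · intro j hj
            show τ j = if j < i then r j else τ j
            rw [if_neg (not_lt.2 hj)]
        have h2 : ∏ j, (if j < i then (if ρ0 j = r j then (1 : ℝ) else 0)
              else (if ρ0 j = τ j then 1 else 0)) = 1 := by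
          refine Finset.prod_eq_one fun j _ => ?_
          by_cases hj : j < i
          · simp [ρ0, hj]
          · simp [ρ0, hj]
        rw [h1, h2]
        ring
      · intro ρ _ hne
        have h3 : ∃ j, ρ j ≠ ρ0 j := by
          by_contra hcon
          push Not at hcon
          exact hne (funext hcon)
        obtain ⟨j, hj⟩ := h3
        have h2 : ∏ j, (if j < i then (if ρ j = r j then (1 : ℝ) else 0)
              else (if ρ j = τ j then 1 else 0)) = 0 := by
          refine Finset.prod_eq_zero (mem_univ j) ?_
          by_cases hji : j < i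
          · have : ρ j ≠ r j := by simpa [ρ0, hji] using hj
            simp [hji, this]
          · have : ρ j ≠ τ j := by simpa [ρ0, hji] using hj
            simp [hji, this]
        rw [h2]; ring
      · intro h; exact absurd (mem_univ _) h
    · push Not at h
      obtain ⟨j, hj⟩ := h
      have h0 : ∏ j, f j (τ j) = 0 := Finset.prod_eq_zero (mem_univ j) (hf j _ hj)
      rw [h0]
      simp
  rw [key g hg, key g' hg']
  refine Finset.sum_congr rfl fun ρ _ => ?_
  congr 1
  refine Finset.prod_congr rfl fun j _ => ?_
  by_cases hj : j < i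
  · simp only [if_pos hj]
    rw [← Finset.sum_mul, ← Finset.sum_mul, hs j hj]
  · simp only [if_neg hj]
    rw [hup j (not_lt.1 hj)]

end lower

section weights
variable {V : Type} [Fintype V] [DecidableEq V] {k : ℕ}

/-- backward weights -/
noncomputable def W (rp : (Fin k → V) → (Fin k → V) → ℝ) (i : Fin k) :
    (T : ℕ) → (Fin (T + 1) → V) → (Fin k → V) → ℝ
  | 0, x, σ => if σ i = x 0 then 1 else 0
  | T + 1, x, σ => if σ i = x 0 then ∑ τ, rp σ τ * W rp i T (Fin.tail x) τ else 0

lemma path_sum (rp : (Fin k → V) → (Fin k → V) → ℝ) (i : Fin k) :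
    ∀ (T : ℕ) (x : Fin (T + 1) → V) (f : (Fin k → V) → ℝ),
    (∑ ω : Fin (T + 1) → Fin k → V, if (∀ t, ω t i = x t) then
      f (ω 0) * ∏ t : Fin T, rp (ω t.castSucc) (ω t.succ) else 0) =
      ∑ σ, f σ * W rp i T x σ := by
  intro T
  induction T with
  | zero =>
    intro x f
    rw [← (Equiv.funUnique (Fin 1) (Fin k → V)).symm.sum_comp]
    refine Finset.sum_congr rfl fun σ _ => ?_
    simp [W, Fin.forall_fin_one, Equiv.funUnique]
  | succ T ih =>
    intro x f
    rw [← (Fin.consEquiv (fun _ : Fin (T + 2) => (Fin k → V))).sum_comp, Fintype.sum_prod_type]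
    refine Finset.sum_congr rfl fun σ _ => ?_
    simp only [Fin.consEquiv_apply, Fin.cons_zero]
    have e1 : ∀ ω : Fin (T + 1) → Fin k → V,
        (if (∀ t : Fin (T + 2), (Fin.cons σ ω : Fin (T + 2) → Fin k → V) t i = x t) then
          f σ * ∏ t : Fin (T + 1), rp ((Fin.cons σ ω : Fin (T + 2) → Fin k → V) t.castSucc)
            ((Fin.cons σ ω : Fin (T + 2) → Fin k → V) t.succ) else 0) =
        (if σ i = x 0 then f σ else 0) * (if (∀ t, ω t i = Fin.tail x t) then
          rp σ (ω 0) * ∏ t : Fin T, rp (ω t.castSucc) (ω t.succ) else 0) := by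
      intro ω
      rw [Fin.prod_univ_succ]
      simp only [Fin.forall_fin_succ (n := T + 1), Fin.cons_zero, Fin.cons_succ, Fin.castSucc_zero,
        ← Fin.succ_castSucc]
      by_cases h1 : σ i = x 0
      · by_cases h2 : ∀ t, ω t i = x t.succ
        · have h3 : ∀ t, ω t i = Fin.tail x t := h2
          rw [if_pos ⟨h1, h2⟩, if_pos h1, if_pos h3]
        · have h3 : ¬ ∀ t, ω t i = Fin.tail x t := h2
          rw [if_neg (fun h => h2 h.2), if_pos h1, if_neg h3]
          ring
      · rw [if_neg (fun h => h1 h.1), if_neg h1]
        ring
    simp only [e1]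
    rw [← Finset.mul_sum, ih (Fin.tail x) (rp σ)]
    simp only [W]
    split_ifs <;> ring

end weights

section main
variable {V I P : Type} [Fintype V] [DecidableEq V] [DecidableEq I] [Fintype P]
  {k : ℕ} {loops : Bool} {box : V → I} {b : Fin k → P → I} {R : P → P → ℝ}

/-- round probabilities of the scheme -/
noncomputable def rp (loops : Bool) (box : V → I) (b : Fin k → P → I) (R : P → P → ℝ)
    (σ τ : Fin k → V) : ℝ := ∏ i, stepK loops box b R i (mid σ τ i) (τ i)

/-- the uniform law on the box of walker `j` -/
noncomputable def un (box : V → I) (b : Fin k → P → I) (p : P) (j : Fin k) (v : V) : ℝ :=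
  if box v = b j p then 1 / (sz box (b j p) : ℝ) else 0

lemma un_sum (H : Good loops box b R) (p : P) (j : Fin k) : ∑ v, un box b p j v = 1 := by
  have h2 := H.two j p
  exact sum_box (b j p) (by omega)

lemma u_eq_un (p q : P) (j : Fin k) (σ : Fin k → V) (v : V) :
    u loops box b p q j σ v = un box b q j v * ∏ m, ph loops box b p q j m (σ m) v := by
  unfold u un
  split_ifs
  · rfl
  · rw [zero_mul]

lemma exists_rep (H : Good loops box b R) (p : P) : ∃ r : Fin k → V, ∀ j, box (r j) = b j p := by
  have h : ∀ j, ∃ v, box v = b j p := by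
    intro j
    have h2 := H.two j p
    have h3 : 0 < sz box (b j p) := by omega
    obtain ⟨v, hv⟩ := Finset.card_pos.1 h3
    exact ⟨v, (mem_filter.1 hv).2⟩
  choose r hr using h
  exact ⟨r, hr⟩

lemma W_dep (H : Good loops box b R) (i : Fin k) :
    ∀ (T : ℕ) (x : Fin (T + 1) → V) (p : P) (σ σ' : Fin k → V),
    (∀ m, box (σ m) = b m p) → (∀ m, box (σ' m) = b m p) → (∀ m, i ≤ m → σ m = σ' m) →
    W (rp loops box b R) i T x σ = W (rp loops box b R) i T x σ' := by
  intro T
  induction T with
  | zero =>
    intro x p σ σ' _ _ h
    simp only [W]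
    rw [h i le_rfl]
  | succ T ih =>
    intro x p σ σ' hσ hσ' h
    simp only [W]
    rw [h i le_rfl]
    split_ifs with hx
    · have e1 : ∀ (ρ : Fin k → V), (∀ m, box (ρ m) = b m p) →
          ∑ τ, rp loops box b R ρ τ * W (rp loops box b R) i T (Fin.tail x) τ =
          ∑ q, R p q * ∑ τ : Fin k → V, (∏ j, u loops box b p q j ρ (τ j)) *
            W (rp loops box b R) i T (Fin.tail x) τ := by
        intro ρ hρ
        simp only [Finset.mul_sum]
        rw [Finset.sum_comm]
        refine Finset.sum_congr rfl fun τ _ => ?_
        unfold rp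
        rw [round_eq H hρ τ, Finset.sum_mul]
        refine Finset.sum_congr rfl fun q _ => ?_
        ring
      rw [e1 σ hσ, e1 σ' hσ']
      refine Finset.sum_congr rfl fun q _ => ?_
      congr 1
      obtain ⟨r, hr⟩ := exists_rep H q
      refine sum_lower box i (fun j => b j q) _ _ _ r hr ?_ ?_ ?_ ?_ ?_
      · intro τ τ' h1 h2 h3
        exact ih (Fin.tail x) q τ τ' h1 h2 h3
      · intro j v hv
        exact u_ne (fun h' => hv h'.symm)
      · intro j v hv
        exact u_ne (fun h' => hv h'.symm)
      · intro j hj
        funext v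
        rw [u_eq_un, u_eq_un]
        congr 1
        refine Finset.prod_congr rfl fun m _ => ?_
        unfold ph
        by_cases hm : (j < m ∨ (j = m ∧ loops = false)) ∧ b m p = b j q
        · have him : i ≤ m := by
            rcases hm.1 with h4 | h4
            · exact hj.trans h4.le
            · rw [← h4.1]; exact hj
          rw [h m him]
        · rw [if_neg hm, if_neg hm]
      · intro j _
        rw [u_sum H q j hσ, u_sum H q j hσ']
    · rfl

/-- the law of the new position of walker `i` given the new base -/
noncomputable def hh (loops : Bool) (box : V → I) (b : Fin k → P → I) (p q : P) (i : Fin k)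
    (s : V) (j : Fin k) (v : V) : ℝ := un box b q j v * ph loops box b p q j i s v

lemma hh_sum (H : Good loops box b R) (p q : P) (i : Fin k) {s : V} (hs : box s = b i p)
    (j : Fin k) : ∑ v, hh loops box b p q i s j v = 1 := by
  by_cases h : (j < i ∨ (j = i ∧ loops = false)) ∧ b i p = b j q
  · rw [← sum_box_ne (b j q) s (by rw [hs, h.2]) (H.two j q)]
    refine Finset.sum_congr rfl fun v _ => ?_
    unfold hh un ph
    rw [if_pos h]
    by_cases h1 : box v = b j q
    · rw [if_pos h1, if_pos h1]
    · rw [if_neg h1, if_neg h1, zero_mul]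
  · rw [← un_sum H q j]
    refine Finset.sum_congr rfl fun v _ => ?_
    unfold hh ph
    rw [if_neg h, mul_one]

/-- averaging over the position of walker `m` -/
lemma avg_un (H : Good loops box b R) (p q : P) (m : Fin k) {τ : Fin k → V}
    (hτ : ∀ j, box (τ j) = b j q) :
    ∑ s, un box b p m s * ∏ j, ph loops box b p q j m s (τ j) = 1 := by
  by_cases h : ∃ j, (j < m ∨ (j = m ∧ loops = false)) ∧ b m p = b j q
  · obtain ⟨j, hj⟩ := h
    rw [← sum_box_ne (b m p) (τ j) (by rw [hτ j, hj.2]) (H.two m p)]
    refine Finset.sum_congr rfl fun s _ => ?_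
    have e : ∏ j, ph loops box b p q j m s (τ j) =
        if s = τ j then 0 else (sz box (b m p) : ℝ) / (sz box (b m p) - 1) := by
      rw [Finset.prod_eq_single j]
      · unfold ph
        rw [if_pos hj, hj.2]
        refine if_congr eq_comm rfl rfl
      · intro j' _ hne
        unfold ph
        rw [if_neg]
        rintro ⟨_, h2⟩
        exact hne (H.distinct q _ _ (h2.symm.trans hj.2))
      · intro h; exact absurd (mem_univ _) h
    rw [e]
    unfold un
    split_ifs <;> simp
  · push Not at h
    rw [← un_sum H p m]
    refine Finset.sum_congr rfl fun s _ => ?_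
    rw [Finset.prod_eq_one, mul_one]
    intro j _
    unfold ph
    rw [if_neg]
    rintro ⟨h1, h2⟩
    exact h j h1 h2

lemma marg_hh (H : Good loops box b R) (p : P) (i : Fin k) {s : V} (hs : box s = b i p) (y : V) :
    ∑ q, R p q * hh loops box b p q i s i y = srw loops s y := by
  have hy0 : (0 : ℝ) < sz box (box y) := by
    have : 0 < sz box (box y) := Finset.card_pos.2 ⟨y, by simp⟩
    exact_mod_cast this
  have e1 : ∀ q, R p q * hh loops box b p q i s i y =
      (if b i q = box y then R p q else 0) * ((1 / (sz box (box y) : ℝ)) *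
        (if loops = false ∧ b i p = box y then
          (if y = s then 0 else (sz box (box y) : ℝ) / (sz box (box y) - 1)) else 1)) := by
    intro q
    unfold hh un ph
    by_cases h : b i q = box y
    · rw [if_pos h.symm, if_pos h, h]
      congr 2
      refine if_congr ?_ rfl rfl
      constructor
      · rintro ⟨h1 | h1, h2⟩
        · exact absurd h1 (lt_irrefl _)
        · exact ⟨h1.2, h2⟩
      · rintro ⟨h1, h2⟩
        exact ⟨Or.inr ⟨rfl, h1⟩, h2⟩
    · rw [if_neg (fun h' => h h'.symm), if_neg h]
      ring
  simp only [e1]
  rw [← Finset.sum_mul, H.marg i p y]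
  unfold srw
  cases loops with
  | true =>
    simp only [if_true]
    rw [if_neg (by simp)]
    field_simp
  | false =>
    simp only [Bool.false_eq_true, if_false, true_and]
    by_cases h : b i p = box y
    · rw [if_pos h, if_pos h]
      have h1 : (0 : ℝ) < sz box (box y) - 1 := by rw [← h]; exact sz_sub_pos H i p
      by_cases hys : y = s
      · rw [if_pos hys, if_pos hys.symm]; ring
      · rw [if_neg hys, if_neg (fun h' => hys h'.symm)]
        field_simp
    · rw [if_neg h, if_neg h]
      have hys : s ≠ y := by
        intro h'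
        exact h (by rw [← hs, h'])
      rw [if_neg hys]
      field_simp
      ring

/-- the average claim -/
lemma avg_W (H : Good loops box b R) (i : Fin k) :
    ∀ (T : ℕ) (x : Fin (T + 1) → V) (p : P) (g : V → ℝ), (∀ v, box v ≠ b i p → g v = 0) →
    ∑ σ : Fin k → V, (∏ j, Function.update (un box b p) i g j (σ j)) *
      W (rp loops box b R) i T x σ = g (x 0) * ∏ t : Fin T, srw loops (x t.castSucc) (x t.succ) := by
  intro T
  induction T with
  | zero =>
    intro x p g hg
    simp only [W, Finset.univ_eq_empty, Finset.prod_empty, mul_one]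
    have e1 : ∀ σ : Fin k → V, (∏ j, Function.update (un box b p) i g j (σ j)) *
        (if σ i = x 0 then (1 : ℝ) else 0) =
        ∏ j, (Function.update (un box b p) i g j (σ j) *
          (if j = i then (if σ j = x 0 then 1 else 0) else 1)) := by
      intro σ
      rw [Finset.prod_mul_distrib]
      congr 1
      rw [Finset.prod_ite_eq' univ i (fun j => if σ j = x 0 then (1 : ℝ) else 0)]
      simp
    simp only [e1]
    rw [sum_pi_prod (fun j v => Function.update (un box b p) i g j v *
          (if j = i then (if v = x 0 then 1 else 0) else 1))]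
    rw [Finset.prod_eq_single i]
    · simp
    · intro j _ hj
      simp only [if_neg hj, mul_one, Function.update_of_ne hj]
      exact un_sum H p j
    · intro h; exact absurd (mem_univ _) h
  | succ T ih =>
    intro x p g hg
    -- notation
    set G : Fin k → V → ℝ := Function.update (un box b p) i g with hG
    have hGi : G i = g := by rw [hG, Function.update_self]
    have hGj : ∀ j, j ≠ i → G j = un box b p j := fun j hj => by
      rw [hG, Function.update_of_ne hj]
    have hG0 : ∀ j v, box v ≠ b j p → G j v = 0 := by
      intro j v hv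
      by_cases hj : j = i
      · rw [hj, hGi]; exact hg v (by rw [← hj]; exact hv)
      · rw [hGj j hj]; unfold un; rw [if_neg hv]
    -- step 1: expand
    have e1 : ∀ σ : Fin k → V, (∏ j, G j (σ j)) * W (rp loops box b R) i (T + 1) x σ =
        ∑ q, R p q * ∑ τ : Fin k → V, W (rp loops box b R) i T (Fin.tail x) τ *
          ((∏ j, un box b q j (τ j)) * ∏ m, (G m (σ m) * (if m = i then (if σ m = x 0 then 1 else 0)
            else 1) * ∏ j, ph loops box b p q j m (σ m) (τ j))) := by
      intro σ
      by_cases hσ : ∀ m, box (σ m) = b m p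
      · have h2 : ∏ m, (if m = i then (if σ m = x 0 then (1 : ℝ) else 0) else 1) =
            if σ i = x 0 then 1 else 0 := by
          rw [Finset.prod_ite_eq' univ i (fun j => if σ j = x 0 then (1 : ℝ) else 0)]
          simp
        simp only [Finset.prod_mul_distrib, h2, W]
        by_cases hx : σ i = x 0
        · have hrp : ∀ τ, rp loops box b R σ τ =
              ∑ q, R p q * ∏ j, u loops box b p q j σ (τ j) := fun τ => round_eq H hσ τ
          have hu : ∀ (q : P) (τ : Fin k → V), ∏ j, u loops box b p q j σ (τ j) =
              (∏ j, un box b q j (τ j)) * ∏ m, ∏ j, ph loops box b p q j m (σ m) (τ j) := by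
            intro q τ
            rw [Finset.prod_comm, ← Finset.prod_mul_distrib]
            exact Finset.prod_congr rfl fun j _ => u_eq_un p q j σ (τ j)
          simp only [if_pos hx, mul_one, hrp, hu]
          generalize W (rp loops box b R) i T (Fin.tail x) = Wt
          calc (∏ j, G j (σ j)) * ∑ τ : Fin k → V, (∑ q, R p q * ((∏ j, un box b q j (τ j)) *
                ∏ m, ∏ j, ph loops box b p q j m (σ m) (τ j))) * Wt τ
              = ∑ τ : Fin k → V, ∑ q, R p q * (Wt τ * ((∏ j, un box b q j (τ j)) *
                ((∏ j, G j (σ j)) * ∏ m, ∏ j, ph loops box b p q j m (σ m) (τ j)))) := by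
                rw [Finset.mul_sum]
                refine Finset.sum_congr rfl fun τ _ => ?_
                rw [Finset.sum_mul, Finset.mul_sum]
                refine Finset.sum_congr rfl fun q _ => ?_
                ring
            _ = _ := by
                rw [Finset.sum_comm]
                refine Finset.sum_congr rfl fun q _ => ?_
                rw [Finset.mul_sum]
        · rw [if_neg hx]
          simp [if_neg hx]
      · push Not at hσ
        obtain ⟨m, hm⟩ := hσ
        have h0 : ∏ j, G j (σ j) = 0 := Finset.prod_eq_zero (mem_univ m) (hG0 m _ hm)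
        simp only [Finset.prod_mul_distrib, h0]
        simp
    have hsucc : ∏ t : Fin (T + 1), srw loops (x t.castSucc) (x t.succ) =
        srw loops (x 0) (x 1) *
          ∏ t : Fin T, srw loops (Fin.tail x t.castSucc) (Fin.tail x t.succ) := by
      rw [Fin.prod_univ_succ]
      rfl
    rw [hsucc]
    -- step 2: average over σ
    have e2 : ∀ (q : P) (τ : Fin k → V), (∏ j, un box b q j (τ j)) *
        ∑ σ : Fin k → V, ∏ m, (G m (σ m) * (if m = i then (if σ m = x 0 then 1 else 0) else 1) *
          ∏ j, ph loops box b p q j m (σ m) (τ j)) =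
        g (x 0) * ∏ j, hh loops box b p q i (x 0) j (τ j) := by
      intro q τ
      rw [sum_pi_prod (fun m s => G m s * (if m = i then (if s = x 0 then 1 else 0) else 1) *
          ∏ j, ph loops box b p q j m s (τ j))]
      unfold hh
      rw [Finset.prod_mul_distrib]
      by_cases hτ : ∀ j, box (τ j) = b j q
      · have h5 : ∏ m, ∑ s, G m s * (if m = i then (if s = x 0 then (1 : ℝ) else 0) else 1) *
            ∏ j, ph loops box b p q j m s (τ j) =
            g (x 0) * ∏ j, ph loops box b p q j i (x 0) (τ j) := by
          rw [Finset.prod_eq_single i]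
          · simp only [if_true, hGi]
            rw [Finset.sum_eq_single (x 0)]
            · simp only [if_true]
              ring
            · intro s _ hs
              rw [if_neg hs]; ring
            · intro h; exact absurd (mem_univ _) h
          · intro m _ hm
            simp only [if_neg hm, mul_one, hGj m hm]
            exact avg_un H p q m hτ
          · intro h; exact absurd (mem_univ _) h
        rw [h5]
        ring
      · push Not at hτ
        obtain ⟨j, hj⟩ := hτ
        have h0 : ∏ j, un box b q j (τ j) = 0 := by
          refine Finset.prod_eq_zero (mem_univ j) ?_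
          unfold un
          rw [if_neg hj]
        rw [h0]
        simp
    have e3 : ∑ σ : Fin k → V, (∏ j, G j (σ j)) * W (rp loops box b R) i (T + 1) x σ =
        ∑ q, R p q * (g (x 0) * ∑ τ : Fin k → V, (∏ j, hh loops box b p q i (x 0) j (τ j)) *
          W (rp loops box b R) i T (Fin.tail x) τ) := by
      rw [Finset.sum_congr rfl fun σ _ => e1 σ, Finset.sum_comm]
      refine Finset.sum_congr rfl fun q _ => ?_
      rw [← Finset.mul_sum]
      congr 1
      rw [Finset.sum_comm, Finset.mul_sum]
      refine Finset.sum_congr rfl fun τ _ => ?_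
      rw [← Finset.mul_sum, ← Finset.mul_sum, e2 q τ]
      ring
    rw [e3]
    by_cases hg0 : g (x 0) = 0
    · simp [hg0]
    · have hx0 : box (x 0) = b i p := by
        by_contra hcon
        exact hg0 (hg _ hcon)
      have e4 : ∀ q, ∑ τ : Fin k → V, (∏ j, hh loops box b p q i (x 0) j (τ j)) *
          W (rp loops box b R) i T (Fin.tail x) τ =
          hh loops box b p q i (x 0) i (x 1) *
            ∏ t : Fin T, srw loops (Fin.tail x t.castSucc) (Fin.tail x t.succ) := by
        intro q
        have hh0 : ∀ j v, box v ≠ b j q → hh loops box b p q i (x 0) j v = 0 := by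
          intro j v hv
          unfold hh un
          rw [if_neg hv, zero_mul]
        obtain ⟨r, hr⟩ := exists_rep H q
        have e5 := ih (Fin.tail x) q (hh loops box b p q i (x 0) i) (hh0 i)
        rw [sum_lower box i (fun j => b j q) (W (rp loops box b R) i T (Fin.tail x))
          (fun j => hh loops box b p q i (x 0) j)
          (Function.update (un box b q) i (hh loops box b p q i (x 0) i)) r hr, e5]
        · rfl
        · intro τ τ' h1 h2 h3
          exact W_dep H i T (Fin.tail x) q τ τ' h1 h2 h3
        · exact hh0
        · intro j v hv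
          by_cases hj : j = i
          · subst hj
            rw [Function.update_self]
            exact hh0 _ v hv
          · rw [Function.update_of_ne hj]
            unfold un
            rw [if_neg hv]
        · intro j hj
          by_cases hji : j = i
          · subst hji
            rw [Function.update_self]
          · rw [Function.update_of_ne hji]
            funext v
            unfold hh ph
            rw [if_neg, mul_one]
            rintro ⟨h1 | h1, _⟩
            · exact absurd h1 (not_lt.2 hj)
            · exact hji h1.1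
        · intro j hj
          rw [hh_sum H p q i hx0 j, Function.update_of_ne (ne_of_lt hj), un_sum H q j]
      simp only [e4]
      rw [← marg_hh H p i hx0 (x 1), Finset.sum_mul, Finset.mul_sum]
      refine Finset.sum_congr rfl fun q _ => ?_
      ring

end main

end Pool.Agent.H.MP_2d605f_pr
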