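import Pool.Agent.H.MP_2d605f_pr.Defs

/-! The box scheme: kernels and round probabilities. -/

open Finset

namespace Pool.Agent.H.MP_2d605f_pr

section
variable {V I P : Type} [Fintype V] [DecidableEq V] [DecidableEq I] [Fintype P]
  {k : ℕ}

/-- Size of a box. -/
def sz (box : V → I) (B : I) : ℕ := (univ.filter (fun v => box v = B)).card

/-- A scheme: boxes, hidden base, boxes of the walkers, transition law of the base. -/
structure Good (loops : Bool) (box : V → I) (b : Fin k → P → I) (R : P → P → ℝ) : Prop where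
  two : ∀ i p, 2 ≤ sz box (b i p)
  distinct : ∀ p i j, b i p = b j p → i = j
  nn : ∀ p q, 0 ≤ R p q
  sum : ∀ p, ∑ q, R p q = 1
  vis : ∀ i p q, b i p = b i q → R p = R q
  marg : ∀ i p y, (∑ q, if b i q = box y then R p q else 0) =
    if loops = true then (sz box (box y) : ℝ) / Fintype.card V
    else ((sz box (box y) : ℝ) - if b i p = box y then 1 else 0) / (Fintype.card V - 1)

/-- Interaction factor: old position `s` of walker `m`, new position `v` of walker `j`. -/
noncomputable def ph (loops : Bool) (box : V → I) (b : Fin k → P → I) (p q : P) (j m : Fin k)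
    (s v : V) : ℝ :=
  if (j < m ∨ (j = m ∧ loops = false)) ∧ b m p = b j q then
    (if v = s then 0 else (sz box (b j q) : ℝ) / (sz box (b j q) - 1)) else 1

/-- Law of the new position `v` of walker `j` given the old positions `σ` and bases `p`, `q`. -/
noncomputable def u (loops : Bool) (box : V → I) (b : Fin k → P → I) (p q : P) (j : Fin k)
    (σ : Fin k → V) (v : V) : ℝ :=
  if box v = b j q then (1 / (sz box (b j q) : ℝ)) * ∏ m, ph loops box b p q j m (σ m) v else 0

/-- Available positions. -/
def av (loops : Bool) (box : V → I) (i : Fin k) (c : Fin k → V) (B : I) : Finset V :=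
  univ.filter (fun v => box v = B ∧ (∀ m, i < m → v ≠ c m) ∧ (loops = true ∨ v ≠ c i))

open Classical in
/-- Weight of a new base. -/
noncomputable def wt (box : V → I) (b : Fin k → P → I) (R : P → P → ℝ) (i : Fin k)
    (c : Fin k → V) (q : P) : ℝ :=
  (if h : ∃ p, b i p = box (c i) then R h.choose q else 0) *
    (if ∀ j, j < i → b j q = box (c j) then 1 else 0)

noncomputable def raw (loops : Bool) (box : V → I) (b : Fin k → P → I) (R : P → P → ℝ)
    (i : Fin k) (c : Fin k → V) (y : V) : ℝ :=
  (∑ q, if b i q = box y then wt box b R i c q else 0) / (∑ q, wt box b R i c q) *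
    (if y ∈ av loops box i c (box y) then 1 / ((av loops box i c (box y)).card : ℝ) else 0)

open Classical in
/-- The kernel. -/
noncomputable def stepK (loops : Bool) (box : V → I) (b : Fin k → P → I) (R : P → P → ℝ)
    (i : Fin k) (c : Fin k → V) (y : V) : ℝ :=
  if ∑ z, raw loops box b R i c z = 1 then raw loops box b R i c y
  else if y = c i then 1 else 0

variable {loops : Bool} {box : V → I} {b : Fin k → P → I} {R : P → P → ℝ}

lemma wt_nonneg (H : Good loops box b R) (i : Fin k) (c : Fin k → V) (q : P) :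
    0 ≤ wt box b R i c q := by
  unfold wt
  refine mul_nonneg ?_ ?_
  · split_ifs
    · exact H.nn _ _
    · exact le_rfl
  · split_ifs <;> norm_num

lemma raw_nonneg (H : Good loops box b R) (i : Fin k) (c : Fin k → V) (y : V) :
    0 ≤ raw loops box b R i c y := by
  unfold raw
  refine mul_nonneg (div_nonneg (sum_nonneg fun q _ => ?_) (sum_nonneg fun q _ => wt_nonneg H _ _ _)) ?_
  · split_ifs
    · exact wt_nonneg H _ _ _
    · exact le_rfl
  · split_ifs <;> positivity

lemma stepK_nonneg (H : Good loops box b R) (i : Fin k) (c : Fin k → V) (y : V) :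
    0 ≤ stepK loops box b R i c y := by
  unfold stepK
  split_ifs
  · exact raw_nonneg H _ _ _
  · norm_num
  · norm_num

lemma stepK_sum (i : Fin k) (c : Fin k → V) :
    ∑ y, stepK loops box b R i c y = 1 := by
  unfold stepK
  by_cases h : ∑ z, raw loops box b R i c z = 1
  · rw [Finset.sum_congr rfl (fun y _ => if_pos h)]
    exact h
  · rw [Finset.sum_congr rfl (fun y _ => if_neg h)]
    simp

lemma sz_pos (H : Good loops box b R) (i : Fin k) (p : P) : (0 : ℝ) < sz box (b i p) := by
  have := H.two i p
  exact_mod_cast (by omega : 0 < sz box (b i p))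

lemma sz_sub_pos (H : Good loops box b R) (i : Fin k) (p : P) : (0 : ℝ) < sz box (b i p) - 1 := by
  have := H.two i p
  have h : (2 : ℝ) ≤ sz box (b i p) := by exact_mod_cast this
  linarith

/-- The relevant index for `j`. -/
lemma rel_unique (H : Good loops box b R) {p q : P} {j m m' : Fin k}
    (h : b m p = b j q) (h' : b m' p = b j q) : m = m' :=
  H.distinct p m m' (h.trans h'.symm)

/-- The product of the interaction factors has at most one nontrivial factor. -/
lemma prod_ph (H : Good loops box b R) (p q : P) (j : Fin k) (σ : Fin k → V) (v : V) :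
    (∏ m, ph loops box b p q j m (σ m) v = 1 ∧
      ∀ m, ¬ ((j < m ∨ (j = m ∧ loops = false)) ∧ b m p = b j q)) ∨
    ∃ m, ((j < m ∨ (j = m ∧ loops = false)) ∧ b m p = b j q) ∧
      ∏ m, ph loops box b p q j m (σ m) v =
        if v = σ m then 0 else (sz box (b j q) : ℝ) / (sz box (b j q) - 1) := by
  by_cases h : ∃ m, (j < m ∨ (j = m ∧ loops = false)) ∧ b m p = b j q
  · right
    obtain ⟨m, hm⟩ := h
    refine ⟨m, hm, ?_⟩
    rw [Finset.prod_eq_single m]
    · unfold ph; rw [if_pos hm]
    · intro m' _ hne
      unfold ph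
      rw [if_neg]
      rintro ⟨_, h2⟩
      exact hne (rel_unique H h2 hm.2)
    · intro h; exact absurd (mem_univ _) h
  · left
    push Not at h
    refine ⟨Finset.prod_eq_one fun m _ => ?_, fun m hm => h m hm.1 hm.2⟩
    unfold ph
    rw [if_neg]
    rintro ⟨h1, h2⟩
    exact h m h1 h2

/-- Sum over a box of the nontrivial factor. -/
lemma sum_box_ne (B : I) (s : V) (hs : box s = B) (h2 : 2 ≤ sz box B) :
    ∑ v, (if box v = B then (1 / (sz box B : ℝ)) *
      (if v = s then 0 else (sz box B : ℝ) / (sz box B - 1)) else 0) = 1 := by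
  have hc : (2 : ℝ) ≤ sz box B := by exact_mod_cast h2
  have hc0 : (sz box B : ℝ) ≠ 0 := by linarith
  have hc1 : (sz box B : ℝ) - 1 ≠ 0 := by linarith
  have e1 : ∀ v, (if box v = B then (1 / (sz box B : ℝ)) *
      (if v = s then 0 else (sz box B : ℝ) / (sz box B - 1)) else 0) =
      (if box v = B then 1 / ((sz box B : ℝ) - 1) else 0) -
        (if v = s then 1 / ((sz box B : ℝ) - 1) else 0) := by
    intro v
    by_cases h1 : v = s
    · subst h1; simp [hs]
    · simp only [if_neg h1, sub_zero]
      split_ifs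
      · field_simp
      · rfl
  simp only [e1]
  rw [Finset.sum_sub_distrib, ← Finset.sum_filter, Finset.sum_const, Finset.sum_ite_eq']
  simp only [mem_univ, if_true, nsmul_eq_mul]
  change (sz box B : ℝ) * (1 / ((sz box B : ℝ) - 1)) - 1 / ((sz box B : ℝ) - 1) = 1
  field_simp

lemma sum_box (B : I) (h2 : sz box B ≠ 0) :
    ∑ v, (if box v = B then (1 / (sz box B : ℝ)) else 0) = 1 := by
  have hc0 : (sz box B : ℝ) ≠ 0 := by exact_mod_cast h2
  rw [← Finset.sum_filter, Finset.sum_const, nsmul_eq_mul]
  change (sz box B : ℝ) * (1 / (sz box B : ℝ)) = 1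
  field_simp

lemma u_sum (H : Good loops box b R) {p : P} (q : P) (j : Fin k) {σ : Fin k → V}
    (hσ : ∀ m, box (σ m) = b m p) : ∑ v, u loops box b p q j σ v = 1 := by
  have h2 := H.two j q
  by_cases h : ∃ m, (j < m ∨ (j = m ∧ loops = false)) ∧ b m p = b j q
  · obtain ⟨m, hm⟩ := h
    rw [← sum_box_ne (b j q) (σ m) (by rw [hσ m, hm.2]) h2]
    refine Finset.sum_congr rfl fun v _ => ?_
    unfold u
    by_cases h1 : box v = b j q
    · rw [if_pos h1, if_pos h1]
      congr 1
      rcases prod_ph H p q j σ v with h3 | ⟨m', hm', h3⟩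
      · exact absurd hm (h3.2 m)
      · have e : m = m' := rel_unique H hm.2 hm'.2
        subst e
        exact h3
    · rw [if_neg h1, if_neg h1]
  · have h0 : sz box (b j q) ≠ 0 := by omega
    rw [← sum_box (b j q) h0]
    refine Finset.sum_congr rfl fun v _ => ?_
    unfold u
    by_cases h1 : box v = b j q
    · rw [if_pos h1, if_pos h1]
      rcases prod_ph H p q j σ v with h3 | ⟨m', hm', h3⟩
      · rw [h3.1, mul_one]
      · exact absurd ⟨m', hm'⟩ h
    · rw [if_neg h1, if_neg h1]

lemma u_ne {p q : P} {j : Fin k} {σ : Fin k → V} {v : V} (h : ¬ b j q = box v) :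
    u loops box b p q j σ v = 0 := by
  unfold u
  rw [if_neg (fun h' => h h'.symm)]

/-- The conditional law on the available set equals `u`. -/
lemma u_eq_av (H : Good loops box b R) {p q : P} (j : Fin k) {σ : Fin k → V}
    (hσ : ∀ m, box (σ m) = b m p) {y : V} (hy : box y = b j q) :
    (if y ∈ av loops box j σ (box y) then 1 / ((av loops box j σ (box y)).card : ℝ) else 0) =
      u loops box b p q j σ y := by
  have h2 := H.two j q
  unfold u
  rw [if_pos hy, hy]
  rcases prod_ph H p q j σ y with ⟨h3, h4⟩ | ⟨m, hm, h3⟩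
  · have hav : av loops box j σ (b j q) = univ.filter (fun v => box v = b j q) := by
      unfold av
      ext v
      simp only [mem_filter, mem_univ, true_and]
      constructor
      · exact fun h => h.1
      · intro hv
        refine ⟨hv, fun m hjm hvm => ?_, ?_⟩
        · refine h4 m ⟨Or.inl hjm, ?_⟩
          rw [← hσ m, ← hvm, hv]
        · by_contra hcon
          push Not at hcon
          have hl : loops = false := by
            cases loops
            · rfl
            · exact absurd rfl hcon.1
          refine h4 j ⟨Or.inr ⟨rfl, hl⟩, ?_⟩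
          rw [← hσ j, ← hcon.2, hv]
    rw [h3, mul_one, hav, if_pos (by simp [hy])]
    rfl
  · have hbm : box (σ m) = b j q := by rw [hσ m, hm.2]
    have hav : av loops box j σ (b j q) = (univ.filter (fun v => box v = b j q)).erase (σ m) := by
      unfold av
      ext v
      simp only [mem_filter, mem_univ, true_and, mem_erase]
      constructor
      · rintro ⟨h5, h6, h7⟩
        refine ⟨?_, h5⟩
        rcases hm.1 with h8 | ⟨h8, h9⟩
        · exact h6 m h8
        · subst h8
          rcases h7 with h7 | h7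
          · rw [h9] at h7; exact absurd h7 (by decide)
          · exact h7
      · rintro ⟨h5, h6⟩
        refine ⟨h6, fun m' hjm hvm => ?_, ?_⟩
        · have : m' = m := rel_unique H (by rw [← hσ m', ← hvm, h6]) hm.2
          subst this; exact h5 hvm
        · by_cases hl : loops = true
          · exact Or.inl hl
          · right
            intro hvj
            have : j = m := rel_unique H (by rw [← hσ j, ← hvj, h6]) hm.2
            subst this; exact h5 hvj
    have hcard : (av loops box j σ (b j q)).card = sz box (b j q) - 1 := by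
      rw [hav, Finset.card_erase_of_mem (by simp [hbm])]
      rfl
    have hc : ((sz box (b j q) - 1 : ℕ) : ℝ) = (sz box (b j q) : ℝ) - 1 := by
      rw [Nat.cast_sub (by omega)]; simp
    rw [h3, hcard, hc]
    have hne : (sz box (b j q) : ℝ) ≠ 0 := (sz_pos H j q).ne'
    have hne1 : (sz box (b j q) : ℝ) - 1 ≠ 0 := (sz_sub_pos H j q).ne'
    by_cases hys : y = σ m
    · rw [if_neg, if_pos hys, mul_zero]
      rw [hav, hys]; simp
    · rw [if_pos, if_neg hys]
      · field_simp
      · rw [hav]; simp [hy, hys]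

/-- total weight of the bases compatible with the new boxes of the walkers before `n` -/
noncomputable def Zn (box : V → I) (b : Fin k → P → I) (R : P → P → ℝ) (p : P) (τ : Fin k → V)
    (n : ℕ) : ℝ :=
  ∑ q, R p q * (if ∀ j : Fin k, (j : ℕ) < n → b j q = box (τ j) then 1 else 0)

lemma wt_mid (H : Good loops box b R) {p : P} {σ : Fin k → V} (hσ : ∀ m, box (σ m) = b m p)
    (τ : Fin k → V) (i : Fin k) (q : P) :
    wt box b R i (mid σ τ i) q =
      R p q * (if ∀ j : Fin k, (j : ℕ) < (i : ℕ) → b j q = box (τ j) then 1 else 0) := by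
  unfold wt
  have h1 : mid σ τ i i = σ i := by unfold mid; simp
  have h2 : ∃ p', b i p' = box (mid σ τ i i) := ⟨p, by rw [h1, hσ i]⟩
  rw [dif_pos h2]
  have h3 : R h2.choose = R p := by
    refine H.vis i _ _ ?_
    rw [h2.choose_spec, h1, hσ i]
  rw [h3]
  congr 1
  refine if_congr ?_ rfl rfl
  constructor
  · intro h j hj
    have h4 : j < i := hj
    have := h j h4
    rw [this]
    unfold mid
    rw [if_pos h4]
  · intro h j hj
    rw [h j hj]
    unfold mid
    rw [if_pos hj]

lemma sum_wt_mid (H : Good loops box b R) {p : P} {σ : Fin k → V} (hσ : ∀ m, box (σ m) = b m p)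
    (τ : Fin k → V) (i : Fin k) : ∑ q, wt box b R i (mid σ τ i) q = Zn box b R p τ i := by
  unfold Zn
  exact Finset.sum_congr rfl fun q _ => wt_mid H hσ τ i q

lemma sum_wt_mid' (H : Good loops box b R) {p : P} {σ : Fin k → V} (hσ : ∀ m, box (σ m) = b m p)
    (τ : Fin k → V) (i : Fin k) :
    (∑ q, if b i q = box (τ i) then wt box b R i (mid σ τ i) q else 0) =
      Zn box b R p τ (i + 1) := by
  unfold Zn
  refine Finset.sum_congr rfl fun q _ => ?_
  rw [wt_mid H hσ τ i q]
  by_cases h : b i q = box (τ i)
  · rw [if_pos h]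
    congr 1
    refine if_congr ?_ rfl rfl
    constructor
    · intro h1 j hj
      rcases Nat.lt_succ_iff_lt_or_eq.1 hj with h2 | h2
      · exact h1 j h2
      · have : j = i := Fin.ext h2
        rw [this, h]
    · intro h1 j hj
      exact h1 j (by omega)
  · rw [if_neg h, if_neg, mul_zero]
    intro h1
    exact h (h1 i (by omega))

lemma av_mid (σ τ : Fin k → V) (i : Fin k) (B : I) :
    av loops box i (mid σ τ i) B = av loops box i σ B := by
  unfold av
  ext v
  simp only [mem_filter, mem_univ, true_and]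
  have h1 : ∀ m, i ≤ m → mid σ τ i m = σ m := by
    intro m hm; unfold mid; rw [if_neg (not_lt.2 hm)]
  rw [h1 i le_rfl]
  constructor
  · rintro ⟨h2, h3, h4⟩
    exact ⟨h2, fun m hm => by rw [← h1 m hm.le]; exact h3 m hm, h4⟩
  · rintro ⟨h2, h3, h4⟩
    exact ⟨h2, fun m hm => by rw [h1 m hm.le]; exact h3 m hm, h4⟩

lemma Zn_nonneg (H : Good loops box b R) (p : P) (τ : Fin k → V) (n : ℕ) :
    0 ≤ Zn box b R p τ n := by
  unfold Zn
  refine sum_nonneg fun q _ => mul_nonneg (H.nn _ _) ?_
  split_ifs <;> norm_num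

lemma Zn_anti (H : Good loops box b R) (p : P) (τ : Fin k → V) (n : ℕ) :
    Zn box b R p τ (n + 1) ≤ Zn box b R p τ n := by
  unfold Zn
  refine sum_le_sum fun q _ => mul_le_mul_of_nonneg_left ?_ (H.nn _ _)
  by_cases h : ∀ j : Fin k, (j : ℕ) < n + 1 → b j q = box (τ j)
  · rw [if_pos h, if_pos (fun j hj => h j (by omega))]
  · rw [if_neg h]; split_ifs <;> norm_num

/-- the vertex factor -/
noncomputable def uu (loops : Bool) (box : V → I) (σ : Fin k → V) (i : Fin k) (y : V) : ℝ :=
  if y ∈ av loops box i σ (box y) then 1 / ((av loops box i σ (box y)).card : ℝ) else 0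

lemma raw_mid (H : Good loops box b R) {p : P} {σ : Fin k → V} (hσ : ∀ m, box (σ m) = b m p)
    (τ : Fin k → V) (i : Fin k) :
    raw loops box b R i (mid σ τ i) (τ i) =
      Zn box b R p τ (i + 1) / Zn box b R p τ i * uu loops box σ i (τ i) := by
  unfold raw uu
  rw [sum_wt_mid H hσ, sum_wt_mid' H hσ, av_mid]

lemma raw_sum_mid (H : Good loops box b R) {p : P} {σ : Fin k → V} (hσ : ∀ m, box (σ m) = b m p)
    (τ : Fin k → V) (i : Fin k) (hZ : Zn box b R p τ i ≠ 0) :
    ∑ z, raw loops box b R i (mid σ τ i) z = 1 := by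
  have e1 : ∀ z, raw loops box b R i (mid σ τ i) z =
      ∑ q, (wt box b R i (mid σ τ i) q / Zn box b R p τ i) * u loops box b p q i σ z := by
    intro z
    unfold raw
    rw [sum_wt_mid H hσ, av_mid, Finset.sum_div, Finset.sum_mul]
    refine Finset.sum_congr rfl fun q _ => ?_
    by_cases h : b i q = box z
    · rw [if_pos h, u_eq_av H i hσ h.symm]
    · rw [if_neg h, u_ne h]
      simp
  simp only [e1]
  rw [Finset.sum_comm]
  simp only [← Finset.mul_sum]
  have e2 : ∀ q, ∑ z, u loops box b p q i σ z = 1 := fun q => u_sum H q i hσ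
  simp only [e2, mul_one]
  rw [← Finset.sum_div, sum_wt_mid H hσ, div_self hZ]

lemma step_mid (H : Good loops box b R) {p : P} {σ : Fin k → V} (hσ : ∀ m, box (σ m) = b m p)
    (τ : Fin k → V) (i : Fin k) (hZ : Zn box b R p τ i ≠ 0) :
    stepK loops box b R i (mid σ τ i) (τ i) * Zn box b R p τ i =
      Zn box b R p τ (i + 1) * uu loops box σ i (τ i) := by
  unfold stepK
  rw [if_pos (raw_sum_mid H hσ τ i hZ), raw_mid H hσ]
  field_simp

lemma pprod_eq (H : Good loops box b R) {p : P} {σ : Fin k → V}
    (hσ : ∀ m, box (σ m) = b m p) (τ : Fin k → V) (n : ℕ) (hn : n ≤ k) :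
    ∏ i ∈ univ.filter (fun i : Fin k => (i : ℕ) < n), stepK loops box b R i (mid σ τ i) (τ i) =
      Zn box b R p τ n *
        ∏ i ∈ univ.filter (fun i : Fin k => (i : ℕ) < n), uu loops box σ i (τ i) := by
  induction n with
  | zero =>
    simp [Zn, H.sum]
  | succ n ih =>
    have hn' : n < k := hn
    have e : univ.filter (fun i : Fin k => (i : ℕ) < n + 1) =
        insert (⟨n, hn'⟩ : Fin k) (univ.filter (fun i : Fin k => (i : ℕ) < n)) := by
      ext i
      simp only [mem_filter, mem_univ, true_and, mem_insert, Fin.ext_iff]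
      omega
    have hnot : (⟨n, hn'⟩ : Fin k) ∉ univ.filter (fun i : Fin k => (i : ℕ) < n) := by simp
    rw [e, prod_insert hnot, prod_insert hnot, ih hn'.le]
    by_cases hZ : Zn box b R p τ n = 0
    · have h1 : Zn box b R p τ (n + 1) = 0 :=
        le_antisymm (hZ ▸ Zn_anti H p τ n) (Zn_nonneg H p τ (n + 1))
      rw [hZ, h1]; ring
    · have h2 := step_mid H hσ τ ⟨n, hn'⟩ hZ
      simp only at h2
      calc _ = (stepK loops box b R ⟨n, hn'⟩ (mid σ τ ⟨n, hn'⟩) (τ ⟨n, hn'⟩) *
            Zn box b R p τ n) * ∏ i ∈ univ.filter (fun i : Fin k => (i : ℕ) < n),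
              uu loops box σ i (τ i) := by ring
        _ = _ := by rw [h2]; ring

/-- The round probability. -/
lemma round_eq (H : Good loops box b R) {p : P} {σ : Fin k → V} (hσ : ∀ m, box (σ m) = b m p)
    (τ : Fin k → V) :
    ∏ i, stepK loops box b R i (mid σ τ i) (τ i) =
      ∑ q, R p q * ∏ j, u loops box b p q j σ (τ j) := by
  have h1 := pprod_eq H hσ τ k le_rfl
  have e : univ.filter (fun i : Fin k => (i : ℕ) < k) = univ := by
    ext i; simp [i.2]
  rw [e] at h1
  rw [h1]
  unfold Zn
  rw [Finset.sum_mul]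
  refine Finset.sum_congr rfl fun q _ => ?_
  by_cases h : ∀ j : Fin k, (j : ℕ) < k → b j q = box (τ j)
  · rw [if_pos h, mul_one]
    congr 1
    refine Finset.prod_congr rfl fun j _ => ?_
    exact u_eq_av H j hσ (h j j.2).symm
  · rw [if_neg h]
    push Not at h
    obtain ⟨j, _, hj⟩ := h
    have h3 : ∏ j, u loops box b p q j σ (τ j) = 0 :=
      Finset.prod_eq_zero (mem_univ j) (u_ne hj)
    rw [h3]
    ring

end

end Pool.Agent.H.MP_2d605f_pr
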