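import Pool.Agent.H.MP_2d605f_pr.TlP

/-! Return probabilities of the walkers, with loops. -/

open Finset

namespace Pool.Agent.H.MP_2d605f_pr

section
variable {V : Type} [Fintype V] [DecidableEq V] {k : ℕ} {S : MarkovSystem V k}

lemma TlQ_srw (a b : V) : srw true a b = 1 / (Fintype.card V : ℝ) := by
  unfold srw
  rw [if_pos rfl]

lemma TlQ_sum_one (hn : 1 ≤ Fintype.card V) (a : V) : ∑ b, srw true a b = 1 := by
  have hc : (Fintype.card V : ℝ) ≠ 0 := by
    have : (1 : ℝ) ≤ Fintype.card V := by exact_mod_cast hn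
    linarith
  rw [Finset.sum_congr rfl fun b _ => TlQ_srw a b, Finset.sum_const, Finset.card_univ,
    nsmul_eq_mul]
  field_simp

lemma TlQ_ne (a : V) : ∑ b : V, (if b ≠ a then (1 : ℝ) else 0) = (Fintype.card V : ℝ) - 1 := by
  have e : ∀ b : V, (if b ≠ a then (1 : ℝ) else 0) = 1 - if b = a then 1 else 0 := by
    intro b
    by_cases h : b = a
    · rw [if_neg (fun h' => h' h), if_pos h]; ring
    · rw [if_pos h, if_neg h]; ring
  rw [Finset.sum_congr rfl fun b _ => e b, Finset.sum_sub_distrib, Finset.sum_ite_eq',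
    if_pos (mem_univ a), Finset.sum_const, Finset.card_univ, nsmul_eq_mul, mul_one]

omit [DecidableEq V] in
lemma TlQ_prod (K : ℝ) (B C D : V → ℝ) : ∑ b, ∑ c, ∑ d, K * (B b * (C c * D d)) =
    K * ((∑ b, B b) * ((∑ c, C c) * ∑ d, D d)) := by
  have e1 : ∀ b c, ∑ d, K * (B b * (C c * D d)) = K * (B b * (C c * ∑ d, D d)) := by
    intro b c
    rw [← Finset.mul_sum, ← Finset.mul_sum, ← Finset.mul_sum]
  have e2 : ∀ b, ∑ c, ∑ d, K * (B b * (C c * D d)) = K * (B b * ((∑ c, C c) * ∑ d, D d)) := by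
    intro b
    rw [Finset.sum_congr rfl fun c _ => e1 b c, ← Finset.mul_sum, ← Finset.mul_sum,
      ← Finset.sum_mul]
  rw [Finset.sum_congr rfl fun b _ => e2 b, ← Finset.mul_sum, ← Finset.sum_mul]

lemma TlQ_four (H : IsAvoidanceCoupling true S) (hn : 1 ≤ Fintype.card V) (i : Fin k) (T t : ℕ)
    (ht : t + 3 < T + 1) (e : V → V → V → V → Prop) [∀ a b c d, Decidable (e a b c d)] (C : ℝ)
    (hC : ∀ a, ∑ b, ∑ c, ∑ d, srw true a b * srw true b c * srw true c d *
      (if e a b c d then 1 else 0) = C) :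
    (∑ ω : Fin (T + 1) → Fin k → V, if e (ω ⟨t, by omega⟩ i) (ω ⟨t + 1, by omega⟩ i)
      (ω ⟨t + 2, by omega⟩ i) (ω ⟨t + 3, ht⟩ i) then S.pathProb T ω else 0) = C := by
  have h1 := prob_event H i T (fun x => e (x ⟨t, by omega⟩) (x ⟨t + 1, by omega⟩)
    (x ⟨t + 2, by omega⟩) (x ⟨t + 3, ht⟩))
  refine Eq.trans h1 ?_
  refine Eq.trans ?_ (srw_fourL hn (ini S i) (ini_sum S i) T t ht
    (fun a b c d => if e a b c d then 1 else 0) C hC)
  refine Finset.sum_congr rfl fun x _ => ?_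
  by_cases h : e (x ⟨t, by omega⟩) (x ⟨t + 1, by omega⟩) (x ⟨t + 2, by omega⟩) (x ⟨t + 3, ht⟩)
  · rw [if_pos h, if_pos h, mul_one]
  · rw [if_neg h, if_neg h, mul_zero]

lemma tl_ret2 (H : IsAvoidanceCoupling true S) (hn : 1 ≤ Fintype.card V) (i : Fin k) (T t : ℕ)
    (ht : t + 3 < T + 1) :
    (∑ ω : Fin (T + 1) → Fin k → V, if ω ⟨t + 2, by omega⟩ i = ω ⟨t, by omega⟩ i ∧
      ω ⟨t + 1, by omega⟩ i ≠ ω ⟨t, by omega⟩ i
      then S.pathProb T ω else 0) = ((Fintype.card V : ℝ) - 1) / (Fintype.card V : ℝ) ^ 2 := by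
  have hc : (Fintype.card V : ℝ) ≠ 0 := by
    have : (1 : ℝ) ≤ Fintype.card V := by exact_mod_cast hn
    linarith
  refine TlQ_four H hn i T t ht (fun a b c _ => c = a ∧ b ≠ a) _ fun a => ?_
  have e1 : ∀ b c d : V, srw true a b * srw true b c * srw true c d *
      (if c = a ∧ b ≠ a then 1 else 0) = (1 / (Fintype.card V : ℝ)) ^ 3 *
      ((if b ≠ a then (1 : ℝ) else 0) * ((if c = a then (1 : ℝ) else 0) * 1)) := by
    intro b c d
    rw [TlQ_srw, TlQ_srw, TlQ_srw]
    generalize 1 / (Fintype.card V : ℝ) = K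
    by_cases h1 : c = a
    · by_cases h2 : b = a
      · rw [if_neg (fun h => h.2 h2), if_neg (fun h => h h2)]; ring
      · rw [if_pos ⟨h1, h2⟩, if_pos h2, if_pos h1]; ring
    · rw [if_neg (fun h => h1 h.1), if_neg h1]; ring
  rw [Finset.sum_congr rfl fun b _ => Finset.sum_congr rfl fun c _ => Finset.sum_congr rfl
    fun d _ => e1 b c d]
  rw [TlQ_prod _ (fun b => if b ≠ a then (1 : ℝ) else 0) (fun c => if c = a then (1 : ℝ) else 0)
    (fun _ => 1), TlQ_ne, Finset.sum_ite_eq', if_pos (mem_univ a), Finset.sum_const,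
    Finset.card_univ, nsmul_eq_mul]
  field_simp

lemma tl_ret3 (H : IsAvoidanceCoupling true S) (hn : 1 ≤ Fintype.card V) (i : Fin k) (T t : ℕ)
    (ht : t + 3 < T + 1) :
    (∑ ω : Fin (T + 1) → Fin k → V, if ω ⟨t + 3, ht⟩ i = ω ⟨t, by omega⟩ i ∧
      ω ⟨t + 2, by omega⟩ i ≠ ω ⟨t, by omega⟩ i ∧ ω ⟨t + 1, by omega⟩ i ≠ ω ⟨t, by omega⟩ i
      then S.pathProb T ω else 0) =
      ((Fintype.card V : ℝ) - 1) ^ 2 / (Fintype.card V : ℝ) ^ 3 := by
  have hc : (Fintype.card V : ℝ) ≠ 0 := by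
    have : (1 : ℝ) ≤ Fintype.card V := by exact_mod_cast hn
    linarith
  refine TlQ_four H hn i T t ht (fun a b c d => d = a ∧ c ≠ a ∧ b ≠ a) _ fun a => ?_
  have e1 : ∀ b c d : V, srw true a b * srw true b c * srw true c d *
      (if d = a ∧ c ≠ a ∧ b ≠ a then 1 else 0) = (1 / (Fintype.card V : ℝ)) ^ 3 *
      ((if b ≠ a then (1 : ℝ) else 0) * ((if c ≠ a then (1 : ℝ) else 0) *
        (if d = a then (1 : ℝ) else 0))) := by
    intro b c d
    rw [TlQ_srw, TlQ_srw, TlQ_srw]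
    generalize 1 / (Fintype.card V : ℝ) = K
    by_cases h1 : d = a
    · by_cases h3 : c = a
      · rw [if_neg (fun h => h.2.1 h3), if_neg (fun h : c ≠ a => h h3)]; ring
      · by_cases h2 : b = a
        · rw [if_neg (fun h => h.2.2 h2), if_neg (fun h => h h2)]; ring
        · rw [if_pos ⟨h1, h3, h2⟩, if_pos h2, if_pos h3, if_pos h1]; ring
    · rw [if_neg (fun h => h1 h.1), if_neg h1]; ring
  rw [Finset.sum_congr rfl fun b _ => Finset.sum_congr rfl fun c _ => Finset.sum_congr rfl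
    fun d _ => e1 b c d]
  rw [TlQ_prod _ (fun b => if b ≠ a then (1 : ℝ) else 0) (fun c => if c ≠ a then (1 : ℝ) else 0)
    (fun d => if d = a then (1 : ℝ) else 0), TlQ_ne, Finset.sum_ite_eq', if_pos (mem_univ a)]
  field_simp

lemma tl_stay (H : IsAvoidanceCoupling true S) (hn : 1 ≤ Fintype.card V) (i : Fin k) (T : ℕ)
    (t : Fin T) :
    (∑ ω : Fin (T + 1) → Fin k → V, if ω t.succ i = ω t.castSucc i
      then S.pathProb T ω else 0) = 1 / (Fintype.card V : ℝ) := by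
  have h1 := prob_event H i T (fun x => x t.succ = x t.castSucc)
  refine Eq.trans h1 ?_
  refine Eq.trans ?_ (srw_twoL hn (ini S i) (ini_sum S i) T t
    (fun a b => if b = a then 1 else 0) (1 / (Fintype.card V : ℝ)) fun a => ?_)
  · refine Finset.sum_congr rfl fun x _ => ?_
    by_cases h : x t.succ = x t.castSucc
    · rw [if_pos h, if_pos h, mul_one]
    · rw [if_neg h, if_neg h, mul_zero]
  · have e1 : ∀ b, srw true a b * (if b = a then (1 : ℝ) else 0) =
        1 / (Fintype.card V : ℝ) * (if b = a then (1 : ℝ) else 0) := fun b => by rw [TlQ_srw]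
    rw [Finset.sum_congr rfl fun b _ => e1 b, ← Finset.mul_sum, Finset.sum_ite_eq',
      if_pos (mem_univ a), mul_one]

omit [DecidableEq V] in
/-- the sum over all paths -/
lemma TlQ_sum {P : V → V → ℝ} (hP : ∀ a, ∑ b, P a b = 1) (T : ℕ) : ∀ f : V → ℝ,
    ∑ x : Fin (T + 1) → V, f (x 0) * ∏ s : Fin T, P (x s.castSucc) (x s.succ) = ∑ v, f v := by
  induction T with
  | zero =>
    intro f
    refine Fintype.sum_equiv (Equiv.funUnique (Fin 1) V) _ _ fun x => ?_
    rw [Fin.prod_univ_zero, mul_one]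
    rfl
  | succ T ih =>
    intro f
    rw [← (Fin.consEquiv (fun _ : Fin (T + 2) => V)).sum_comp, Fintype.sum_prod_type_right]
    have e1 : ∀ y : Fin (T + 1) → V, (∑ a : V, f ((Fin.consEquiv (fun _ : Fin (T + 2) => V)) (a, y) 0) *
        ∏ s : Fin (T + 1), P ((Fin.consEquiv (fun _ : Fin (T + 2) => V)) (a, y) s.castSucc)
          ((Fin.consEquiv (fun _ : Fin (T + 2) => V)) (a, y) s.succ)) =
        (∑ a, f a * P a (y 0)) * ∏ s : Fin T, P (y s.castSucc) (y s.succ) := by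
      intro y
      rw [Finset.sum_mul]
      refine Finset.sum_congr rfl fun a _ => ?_
      rw [Fin.prod_univ_succ, mul_assoc]
      rfl
    rw [Finset.sum_congr rfl fun y _ => e1 y, ih fun b => ∑ a, f a * P a b, Finset.sum_comm]
    refine Finset.sum_congr rfl fun a _ => ?_
    rw [← Finset.mul_sum, hP, mul_one]

lemma tl_total (H : IsAvoidanceCoupling true S) (hn : 1 ≤ Fintype.card V) (i : Fin k) (T : ℕ) :
    ∑ ω : Fin (T + 1) → Fin k → V, S.pathProb T ω = 1 := by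
  have h1 := prob_event H i T (fun _ => True)
  simp only [if_true] at h1
  rw [h1, TlQ_sum (TlQ_sum_one hn) T (ini S i), ini_sum]

end

end Pool.Agent.H.MP_2d605f_pr
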