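import Pool.Agent.H.MP_2d605f_pr.TlN
import Pool.Agent.H.MP_2d605f_pr.TlQ

/-! No avoidance coupling of `n - 2` walkers on the complete graph with loops. -/

open Finset

namespace Pool.Agent.H.MP_2d605f_pr

section
variable {V : Type} [Fintype V] [DecidableEq V] {k : ℕ} {S : MarkovSystem V k}

/-- the averaged inequality -/
lemma tl_avg (H : IsAvoidanceCoupling true S) (hn : Fintype.card V = k + 2) (hk : 2 ≤ k) (L : ℕ) :
    (L : ℝ) * k * (2 * ((k : ℝ) - 1) * (((k : ℝ) + 1) / ((k : ℝ) + 2) ^ 2) +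
      ((k : ℝ) - 2) * (((k : ℝ) + 1) ^ 2 / ((k : ℝ) + 2) ^ 3)) ≤
      2 * (L * k + 2 * k - 1) + 2 * (((L : ℝ) + 2) * k * (1 / ((k : ℝ) + 2))) := by
  have hk0 : 0 < k := by omega
  have hc1 : 1 ≤ Fintype.card V := by omega
  have hn0 : (Fintype.card V : ℝ) = (k : ℝ) + 2 := by
    rw [hn]; push_cast; ring
  have hn1 : ((k : ℝ) + 2 - 1) = (k : ℝ) + 1 := by ring
  have key : ∀ ω : Fin (L + 2 + 1) → Fin k → V, S.pathProb (L + 2) ω *
      (∑ t : Fin L, ∑ i : Fin k,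
        (2 * ((k : ℝ) - 1) * (if ω ⟨t + 2, by have := t.2; omega⟩ i = ω ⟨t, by have := t.2; omega⟩ i ∧
            ω ⟨t + 1, by have := t.2; omega⟩ i ≠ ω ⟨t, by have := t.2; omega⟩ i then 1 else 0) +
          ((k : ℝ) - 2) * (if ω ⟨t + 3, by have := t.2; omega⟩ i = ω ⟨t, by have := t.2; omega⟩ i ∧
            ω ⟨t + 2, by have := t.2; omega⟩ i ≠ ω ⟨t, by have := t.2; omega⟩ i ∧
            ω ⟨t + 1, by have := t.2; omega⟩ i ≠ ω ⟨t, by have := t.2; omega⟩ i then 1 else 0))) ≤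
      S.pathProb (L + 2) ω * (2 * ((L : ℝ) * k + 2 * k - 1) +
        2 * ∑ t : Fin (L + 2), ∑ i : Fin k, (if ω t.succ i = ω t.castSucc i then (1 : ℝ)
          else 0)) := by
    intro ω
    by_cases h : S.pathProb (L + 2) ω = 0
    · rw [h, zero_mul, zero_mul]
    · refine mul_le_mul_of_nonneg_left ?_ (path_nonneg S (L + 2) ω)
      have h1 := pathL_bound (L := L) hk hn ω (H.avoid (L + 2) ω h).1
        (fun t a c hac => cross H h t hac)
      have h2 : ((∑ t : Fin L, ∑ i : Fin k,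
        (2 * (k - 1) * (if ω ⟨t + 2, by have := t.2; omega⟩ i = ω ⟨t, by have := t.2; omega⟩ i ∧
            ω ⟨t + 1, by have := t.2; omega⟩ i ≠ ω ⟨t, by have := t.2; omega⟩ i then 1 else 0) +
        (k - 2) * (if ω ⟨t + 3, by have := t.2; omega⟩ i = ω ⟨t, by have := t.2; omega⟩ i ∧
            ω ⟨t + 2, by have := t.2; omega⟩ i ≠ ω ⟨t, by have := t.2; omega⟩ i ∧
            ω ⟨t + 1, by have := t.2; omega⟩ i ≠ ω ⟨t, by have := t.2; omega⟩ i then 1 else 0)) : ℕ) : ℝ) ≤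
        ((2 * (L * k + 2 * k - 1) + 2 * ∑ t : Fin (L + 2), ∑ i : Fin k,
          (if ω t.succ i = ω t.castSucc i then 1 else 0) : ℕ) : ℝ) := by
        exact_mod_cast h1
      have e1 : ((k - 1 : ℕ) : ℝ) = (k : ℝ) - 1 := by
        rw [Nat.cast_sub (by omega)]; simp
      have e2 : ((k - 2 : ℕ) : ℝ) = (k : ℝ) - 2 := by
        rw [Nat.cast_sub (by omega)]; simp
      have e3 : ((2 * (L * k + 2 * k - 1) : ℕ) : ℝ) = 2 * ((L : ℝ) * k + 2 * k - 1) := by
        rw [Nat.cast_mul, Nat.cast_sub (by nlinarith)]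
        push_cast
        ring
      rw [Nat.cast_add, e3] at h2
      refine le_trans (le_of_eq ?_) (le_trans h2 (le_of_eq ?_))
      · push_cast
        rw [e1, e2]
      · push_cast
        rfl
  have tot : ∑ ω : Fin (L + 2 + 1) → Fin k → V, S.pathProb (L + 2) ω = 1 :=
    tl_total H hc1 ⟨0, hk0⟩ (L + 2)
  have stay : ∑ ω : Fin (L + 2 + 1) → Fin k → V, S.pathProb (L + 2) ω *
      ∑ t : Fin (L + 2), ∑ i : Fin k, (if ω t.succ i = ω t.castSucc i then (1 : ℝ) else 0) =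
      ((L : ℝ) + 2) * k * (1 / ((k : ℝ) + 2)) := by
    have f0 : ∀ ω : Fin (L + 2 + 1) → Fin k → V, S.pathProb (L + 2) ω *
        ∑ t : Fin (L + 2), ∑ i : Fin k, (if ω t.succ i = ω t.castSucc i then (1 : ℝ) else 0) =
        ∑ t : Fin (L + 2), ∑ i : Fin k, (if ω t.succ i = ω t.castSucc i then
          S.pathProb (L + 2) ω else 0) := by
      intro ω
      rw [Finset.mul_sum]
      refine Finset.sum_congr rfl fun t _ => ?_
      rw [Finset.mul_sum]
      refine Finset.sum_congr rfl fun i _ => ?_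
      split_ifs <;> ring
    rw [Finset.sum_congr rfl fun ω _ => f0 ω, Finset.sum_comm]
    have f1 : ∀ t : Fin (L + 2), ∑ ω : Fin (L + 2 + 1) → Fin k → V, ∑ i : Fin k,
        (if ω t.succ i = ω t.castSucc i then S.pathProb (L + 2) ω else 0) =
        (k : ℝ) * (1 / ((k : ℝ) + 2)) := by
      intro t
      rw [Finset.sum_comm]
      rw [Finset.sum_congr rfl fun i _ => tl_stay H hc1 i (L + 2) t, Finset.sum_const,
        Finset.card_univ, Fintype.card_fin, nsmul_eq_mul, hn0]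
    rw [Finset.sum_congr rfl fun t _ => f1 t, Finset.sum_const, Finset.card_univ,
      Fintype.card_fin, nsmul_eq_mul]
    push_cast
    ring
  have h1 := Finset.sum_le_sum fun (ω : Fin (L + 2 + 1) → Fin k → V) (_ : ω ∈ univ) => key ω
  have h3 : ∑ ω : Fin (L + 2 + 1) → Fin k → V, S.pathProb (L + 2) ω *
      (2 * ((L : ℝ) * k + 2 * k - 1) +
        2 * ∑ t : Fin (L + 2), ∑ i : Fin k, (if ω t.succ i = ω t.castSucc i then (1 : ℝ)
          else 0)) =
      2 * (L * k + 2 * k - 1) + 2 * (((L : ℝ) + 2) * k * (1 / ((k : ℝ) + 2))) := by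
    have f2 : ∀ ω : Fin (L + 2 + 1) → Fin k → V, S.pathProb (L + 2) ω *
      (2 * ((L : ℝ) * k + 2 * k - 1) +
        2 * ∑ t : Fin (L + 2), ∑ i : Fin k, (if ω t.succ i = ω t.castSucc i then (1 : ℝ)
          else 0)) = S.pathProb (L + 2) ω * (2 * ((L : ℝ) * k + 2 * k - 1)) +
        2 * (S.pathProb (L + 2) ω *
          ∑ t : Fin (L + 2), ∑ i : Fin k, (if ω t.succ i = ω t.castSucc i then (1 : ℝ)
          else 0)) := fun ω => by ring
    rw [Finset.sum_congr rfl fun ω _ => f2 ω, Finset.sum_add_distrib, ← Finset.sum_mul, tot,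
      ← Finset.mul_sum, stay, one_mul]
  rw [h3] at h1
  refine le_trans (le_of_eq ?_) h1
  have e0 : ∀ ω : Fin (L + 2 + 1) → Fin k → V, S.pathProb (L + 2) ω *
      (∑ t : Fin L, ∑ i : Fin k,
        (2 * ((k : ℝ) - 1) * (if ω ⟨t + 2, by have := t.2; omega⟩ i = ω ⟨t, by have := t.2; omega⟩ i ∧
            ω ⟨t + 1, by have := t.2; omega⟩ i ≠ ω ⟨t, by have := t.2; omega⟩ i then 1 else 0) +
          ((k : ℝ) - 2) * (if ω ⟨t + 3, by have := t.2; omega⟩ i = ω ⟨t, by have := t.2; omega⟩ i ∧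
            ω ⟨t + 2, by have := t.2; omega⟩ i ≠ ω ⟨t, by have := t.2; omega⟩ i ∧
            ω ⟨t + 1, by have := t.2; omega⟩ i ≠ ω ⟨t, by have := t.2; omega⟩ i then 1 else 0))) =
      ∑ t : Fin L, ∑ i : Fin k,
        (2 * ((k : ℝ) - 1) * (if ω ⟨t + 2, by have := t.2; omega⟩ i = ω ⟨t, by have := t.2; omega⟩ i ∧
            ω ⟨t + 1, by have := t.2; omega⟩ i ≠ ω ⟨t, by have := t.2; omega⟩ i then S.pathProb (L + 2) ω else 0) +
          ((k : ℝ) - 2) * (if ω ⟨t + 3, by have := t.2; omega⟩ i = ω ⟨t, by have := t.2; omega⟩ i ∧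
            ω ⟨t + 2, by have := t.2; omega⟩ i ≠ ω ⟨t, by have := t.2; omega⟩ i ∧
            ω ⟨t + 1, by have := t.2; omega⟩ i ≠ ω ⟨t, by have := t.2; omega⟩ i then S.pathProb (L + 2) ω else 0)) := by
    intro ω
    rw [Finset.mul_sum]
    refine Finset.sum_congr rfl fun t _ => ?_
    rw [Finset.mul_sum]
    refine Finset.sum_congr rfl fun i _ => ?_
    split_ifs <;> ring
  rw [Finset.sum_congr rfl fun ω _ => e0 ω, Finset.sum_comm]
  have e4 : ∀ t : Fin L, ∑ ω : Fin (L + 2 + 1) → Fin k → V, ∑ i : Fin k,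
        (2 * ((k : ℝ) - 1) * (if ω ⟨t + 2, by have := t.2; omega⟩ i = ω ⟨t, by have := t.2; omega⟩ i ∧
            ω ⟨t + 1, by have := t.2; omega⟩ i ≠ ω ⟨t, by have := t.2; omega⟩ i then S.pathProb (L + 2) ω else 0) +
          ((k : ℝ) - 2) * (if ω ⟨t + 3, by have := t.2; omega⟩ i = ω ⟨t, by have := t.2; omega⟩ i ∧
            ω ⟨t + 2, by have := t.2; omega⟩ i ≠ ω ⟨t, by have := t.2; omega⟩ i ∧
            ω ⟨t + 1, by have := t.2; omega⟩ i ≠ ω ⟨t, by have := t.2; omega⟩ i then S.pathProb (L + 2) ω else 0)) =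
      (k : ℝ) * (2 * ((k : ℝ) - 1) * (((k : ℝ) + 1) / ((k : ℝ) + 2) ^ 2) +
      ((k : ℝ) - 2) * (((k : ℝ) + 1) ^ 2 / ((k : ℝ) + 2) ^ 3)) := by
    intro t
    have ht := t.2
    rw [Finset.sum_comm]
    have e5 : ∀ i : Fin k, ∑ ω : Fin (L + 2 + 1) → Fin k → V,
        (2 * ((k : ℝ) - 1) * (if ω ⟨t + 2, by have := t.2; omega⟩ i = ω ⟨t, by have := t.2; omega⟩ i ∧
            ω ⟨t + 1, by have := t.2; omega⟩ i ≠ ω ⟨t, by have := t.2; omega⟩ i then S.pathProb (L + 2) ω else 0) +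
          ((k : ℝ) - 2) * (if ω ⟨t + 3, by have := t.2; omega⟩ i = ω ⟨t, by have := t.2; omega⟩ i ∧
            ω ⟨t + 2, by have := t.2; omega⟩ i ≠ ω ⟨t, by have := t.2; omega⟩ i ∧
            ω ⟨t + 1, by have := t.2; omega⟩ i ≠ ω ⟨t, by have := t.2; omega⟩ i then S.pathProb (L + 2) ω else 0)) =
        2 * ((k : ℝ) - 1) * (((k : ℝ) + 1) / ((k : ℝ) + 2) ^ 2) +
        ((k : ℝ) - 2) * (((k : ℝ) + 1) ^ 2 / ((k : ℝ) + 2) ^ 3) := by
      intro i
      rw [Finset.sum_add_distrib, ← Finset.mul_sum, ← Finset.mul_sum,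
        tl_ret2 H hc1 i (L + 2) t (by omega), tl_ret3 H hc1 i (L + 2) t (by omega), hn0, hn1]
    rw [Finset.sum_congr rfl fun i _ => e5 i, Finset.sum_const, Finset.card_univ,
      Fintype.card_fin, nsmul_eq_mul]
  rw [Finset.sum_congr rfl fun t _ => e4 t, Finset.sum_const, Finset.card_univ,
    Fintype.card_fin, nsmul_eq_mul]
  ring

theorem no_coupling_twoL (H : IsAvoidanceCoupling true S) (hn : Fintype.card V = k + 2)
    (hk : 14 ≤ k) : False := by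
  have h := tl_avg H hn (by omega) ((k + 2) ^ 3)
  have hk7 : (14 : ℝ) ≤ k := by exact_mod_cast hk
  have hk1 : (0 : ℝ) < (k : ℝ) + 2 := by linarith
  have hk2 : (0 : ℝ) ≤ (k : ℝ) - 14 := by linarith
  push_cast at h
  have e1 : ((k : ℝ) + 2) ^ 3 * k * (2 * ((k : ℝ) - 1) * (((k : ℝ) + 1) / ((k : ℝ) + 2) ^ 2) +
      ((k : ℝ) - 2) * (((k : ℝ) + 1) ^ 2 / ((k : ℝ) + 2) ^ 3)) =
      k * (2 * ((k : ℝ) - 1) * ((k : ℝ) + 1) * ((k : ℝ) + 2) +
      ((k : ℝ) - 2) * ((k : ℝ) + 1) ^ 2) := by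
    field_simp
  have e2 : 2 * ((((k : ℝ) + 2) ^ 3 + 2) * k * (1 / ((k : ℝ) + 2))) =
      2 * k * ((k : ℝ) + 2) ^ 2 + 4 * (k / ((k : ℝ) + 2)) := by
    field_simp
    ring
  have e3 : (k : ℝ) / ((k : ℝ) + 2) ≤ 1 := by
    rw [div_le_one hk1]
    linarith
  rw [e1, e2] at h
  nlinarith [mul_nonneg hk2 hk2, mul_nonneg (mul_nonneg hk2 hk2) hk2,
    mul_nonneg (mul_nonneg (mul_nonneg hk2 hk2) hk2) hk2, e3]

end

end Pool.Agent.H.MP_2d605f_pr
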