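import Pool.Agent.H.MP_2d605f_pr.TlW

/-! Lower bounds for the covers. -/

open Finset

namespace Pool.Agent.H.MP_2d605f_pr

section
variable {V : Type} [Fintype V] [DecidableEq V]

omit [Fintype V] [DecidableEq V] in
lemma TlX_gap {k N : ℕ} (y : ℕ → V) (hy : ∀ a b, a < b → b < a + k → b < N → y a ≠ y b)
    {a b : ℕ} (hab : a < b) (hb : b < N) (h : y a = y b) : a + k ≤ b := by
  by_contra hcon
  exact hy a b hab (by omega) hb h

open Classical in
lemma lovR_ge {k M : ℕ} (hk : 2 ≤ k) (y : ℕ → V)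
    (hy : ∀ a b, a < b → b < a + k → b < M + 3 * k → y a ≠ y b) (m : ℕ) (hm : m < M)
    (hR : y (m + 2 * k) = y m ∧ y (m + k) ≠ y m) :
    k - 1 ≤ ((Ico (k + 1) (M + 3 * k)).filter (fun τ => LovR y k m τ)).card := by
  have h1 : Ico (m + k + 1) (m + 2 * k) ⊆
      (Ico (k + 1) (M + 3 * k)).filter (fun τ => LovR y k m τ) := by
    intro τ hτ
    rw [mem_Ico] at hτ
    rw [mem_filter, mem_Ico]
    refine ⟨by omega, hR, ⟨by omega, fun j hj1 hj2 h => ?_⟩, by omega⟩
    have h2 := TlX_gap y hy (a := m) (b := j) (by omega) (by omega) h.symm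
    have h3 := TlX_gap y hy (a := j) (b := m + 2 * k) (by omega) (by omega) (h.trans hR.1.symm)
    have h4 : j = m + k := by omega
    rw [h4] at h
    exact hR.2 h
  have h2 := card_le_card h1
  rw [Nat.card_Ico] at h2
  omega

open Classical in
lemma lovA_ge {k M : ℕ} (hk : 2 ≤ k) (y : ℕ → V)
    (hy : ∀ a b, a < b → b < a + k → b < M + 3 * k → y a ≠ y b) (m : ℕ) (hm : m < M)
    (hA : y (m + 3 * k) = y m ∧ y (m + 2 * k) ≠ y m ∧ y (m + k) ≠ y m) :
    k - 2 ≤ ((Ico (k + 1) (M + 3 * k)).filter (fun τ => LovA y k m τ)).card := by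
  have hlo : ∀ q, m < q → q < m + 3 * k → y q = y m → m + k + 1 ≤ q := by
    intro q h1 h2 h
    have h3 := TlX_gap y hy h1 (by omega) h.symm
    have h4 : q ≠ m + k := by
      intro e
      rw [e] at h
      exact hA.2.2 h
    omega
  have hhi : ∀ q, m < q → q < m + 3 * k → y q = y m → q + k + 1 ≤ m + 3 * k := by
    intro q h1 h2 h
    have h3 := TlX_gap y hy h2 (by omega) (h.trans hA.1.symm)
    have h4 : q ≠ m + 2 * k := by
      intro e
      rw [e] at h
      exact hA.2.1 h
    omega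
  by_cases hp : ∃ p, m < p ∧ p < m + 3 * k ∧ y p = y m
  · obtain ⟨p, hp1, hp2, hp3⟩ := hp
    have p1 := hlo p hp1 hp2 hp3
    have p2 := hhi p hp1 hp2 hp3
    have huniq : ∀ q, m < q → q < m + 3 * k → y q = y m → q = p := by
      intro q h1 h2 h
      have q1 := hlo q h1 h2 h
      have q2 := hhi q h1 h2 h
      rcases Nat.lt_trichotomy q p with h3 | h3 | h3
      · have h4 := TlX_gap y hy h3 (by omega) (h.trans hp3.symm)
        omega
      · exact h3
      · have h4 := TlX_gap y hy h3 (by omega) (hp3.trans h.symm)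
        omega
    have h1 : Ico (m + k + 1) p ∪ Ico (p + k + 1) (m + 3 * k) ⊆
        (Ico (k + 1) (M + 3 * k)).filter (fun τ => LovA y k m τ) := by
      intro τ hτ
      rw [mem_union, mem_Ico, mem_Ico] at hτ
      rw [mem_filter, mem_Ico]
      refine ⟨by omega, hA, ⟨by omega, fun j hj1 hj2 h => ?_⟩, by omega⟩
      have h2 := huniq j (by omega) (by omega) h
      omega
    have hdis : Disjoint (Ico (m + k + 1) p) (Ico (p + k + 1) (m + 3 * k)) := by
      rw [disjoint_left]
      intro τ h2 h3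
      rw [mem_Ico] at h2 h3
      omega
    have h2 := card_le_card h1
    rw [card_union_of_disjoint hdis, Nat.card_Ico, Nat.card_Ico] at h2
    omega
  · push Not at hp
    have h1 : Ico (m + k + 1) (m + 3 * k) ⊆
        (Ico (k + 1) (M + 3 * k)).filter (fun τ => LovA y k m τ) := by
      intro τ hτ
      rw [mem_Ico] at hτ
      rw [mem_filter, mem_Ico]
      exact ⟨by omega, hA, ⟨by omega, fun j hj1 hj2 => hp j (by omega) (by omega)⟩, by omega⟩
    have h2 := card_le_card h1
    rw [Nat.card_Ico] at h2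
    omega

end

end Pool.Agent.H.MP_2d605f_pr
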