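import Pool.Agent.H.MP_2d605f_pr.TlV
import Pool.Agent.H.MP_2d605f_pr.TlX

/-! The counting inequality for words. -/

open Finset

namespace Pool.Agent.H.MP_2d605f_pr

section
variable {V : Type} [Fintype V] [DecidableEq V]

/-- double counting of the pairs `(m, τ)` -/
lemma wordL_bound {k M : ℕ} (hk : 2 ≤ k) (hV : Fintype.card V = k + 2) (y : ℕ → V)
    (hy : ∀ a b, a < b → b < a + k → b < M + 3 * k → y a ≠ y b) :
    ∑ m ∈ range M, (2 * (k - 1) * (if y (m + 2 * k) = y m ∧ y (m + k) ≠ y m then 1 else 0) +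
      (k - 2) * (if y (m + 3 * k) = y m ∧ y (m + 2 * k) ≠ y m ∧ y (m + k) ≠ y m
        then 1 else 0)) ≤
      2 * (M + 2 * k - 1) + 2 * ∑ τ ∈ Ico k (M + 3 * k), (if y τ = y (τ - k) then 1 else 0) := by
  classical
  have h1 : ∀ m ∈ range M,
      2 * (k - 1) * (if y (m + 2 * k) = y m ∧ y (m + k) ≠ y m then 1 else 0) +
      (k - 2) * (if y (m + 3 * k) = y m ∧ y (m + 2 * k) ≠ y m ∧ y (m + k) ≠ y m
        then 1 else 0) ≤
      2 * (∑ τ ∈ Ico (k + 1) (M + 3 * k), if LovR y k m τ then 1 else 0) +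
        ∑ τ ∈ Ico (k + 1) (M + 3 * k), if LovA y k m τ then 1 else 0 := by
    intro m hm
    rw [mem_range] at hm
    have e1 : 2 * (k - 1) * (if y (m + 2 * k) = y m ∧ y (m + k) ≠ y m then 1 else 0) ≤
        2 * (∑ τ ∈ Ico (k + 1) (M + 3 * k), if LovR y k m τ then 1 else 0) := by
      by_cases h : y (m + 2 * k) = y m ∧ y (m + k) ≠ y m
      · rw [if_pos h, mul_one]
        have h2 := lovR_ge hk y hy m hm h
        rw [Finset.card_filter] at h2
        exact Nat.mul_le_mul_left 2 h2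
      · rw [if_neg h, mul_zero]
        exact Nat.zero_le _
    have e2 : (k - 2) * (if y (m + 3 * k) = y m ∧ y (m + 2 * k) ≠ y m ∧ y (m + k) ≠ y m
        then 1 else 0) ≤
        ∑ τ ∈ Ico (k + 1) (M + 3 * k), if LovA y k m τ then 1 else 0 := by
      by_cases h : y (m + 3 * k) = y m ∧ y (m + 2 * k) ≠ y m ∧ y (m + k) ≠ y m
      · rw [if_pos h, mul_one]
        have h2 := lovA_ge hk y hy m hm h
        rw [Finset.card_filter] at h2
        exact h2
      · rw [if_neg h, mul_zero]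
        exact Nat.zero_le _
    exact Nat.add_le_add e1 e2
  have h2 : ∀ τ ∈ Ico (k + 1) (M + 3 * k),
      2 * (∑ m ∈ range M, if LovR y k m τ then 1 else 0) +
        ∑ m ∈ range M, (if LovA y k m τ then 1 else 0) ≤
        2 + 2 * (if y τ = y (τ - k) then 1 else 0) := by
    intro τ hτ
    have h3 := lov_le (M := M) hk hV y hy τ (mem_Ico.1 hτ).1 (mem_Ico.1 hτ).2
    rw [Finset.card_filter, Finset.card_filter] at h3
    refine h3.trans (le_of_eq ?_)
    split_ifs <;> rfl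
  have h4 : ∑ τ ∈ Ico (k + 1) (M + 3 * k), (if y τ = y (τ - k) then 1 else 0) ≤
      ∑ τ ∈ Ico k (M + 3 * k), (if y τ = y (τ - k) then 1 else 0) :=
    Finset.sum_le_sum_of_subset (Finset.Ico_subset_Ico_left (Nat.le_succ k))
  calc ∑ m ∈ range M, (2 * (k - 1) * (if y (m + 2 * k) = y m ∧ y (m + k) ≠ y m then 1 else 0) +
      (k - 2) * (if y (m + 3 * k) = y m ∧ y (m + 2 * k) ≠ y m ∧ y (m + k) ≠ y m
        then 1 else 0))
      ≤ ∑ m ∈ range M, (2 * (∑ τ ∈ Ico (k + 1) (M + 3 * k), if LovR y k m τ then 1 else 0) +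
        ∑ τ ∈ Ico (k + 1) (M + 3 * k), if LovA y k m τ then 1 else 0) := Finset.sum_le_sum h1
    _ = ∑ τ ∈ Ico (k + 1) (M + 3 * k), (2 * (∑ m ∈ range M, if LovR y k m τ then 1 else 0) +
        ∑ m ∈ range M, if LovA y k m τ then 1 else 0) := by
        rw [Finset.sum_add_distrib, Finset.sum_add_distrib, ← Finset.mul_sum, ← Finset.mul_sum]
        congr 1
        · congr 1
          exact Finset.sum_comm
        · exact Finset.sum_comm
    _ ≤ ∑ τ ∈ Ico (k + 1) (M + 3 * k), (2 + 2 * (if y τ = y (τ - k) then 1 else 0)) :=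
        Finset.sum_le_sum h2
    _ = 2 * (M + 2 * k - 1) +
        2 * ∑ τ ∈ Ico (k + 1) (M + 3 * k), (if y τ = y (τ - k) then 1 else 0) := by
        rw [Finset.sum_add_distrib, ← Finset.mul_sum, Finset.sum_const, Nat.card_Ico,
          smul_eq_mul]
        congr 1
        rw [mul_comm]
        congr 1
        omega
    _ ≤ 2 * (M + 2 * k - 1) +
        2 * ∑ τ ∈ Ico k (M + 3 * k), (if y τ = y (τ - k) then 1 else 0) :=
        Nat.add_le_add_left (Nat.mul_le_mul_left 2 h4) _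

end

end Pool.Agent.H.MP_2d605f_pr
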