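import Pool.Agent.H.MP_2d605f_pr.TlM

/-! The counting inequality for paths. -/

open Finset

namespace Pool.Agent.H.MP_2d605f_pr

section
variable {V : Type} [Fintype V] [DecidableEq V]

/-- the inequality for the words of paths: `L` rounds can start an event -/
lemma pathL_bound {k L : ℕ} (hk : 2 ≤ k) (hV : Fintype.card V = k + 2)
    (ω : Fin (L + 3) → Fin k → V) (hinj : ∀ t, Function.Injective (ω t))
    (hcross : ∀ (t : Fin (L + 2)) (a c : Fin k), a < c → ω t.succ a ≠ ω t.castSucc c) :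
    ∑ t : Fin L, ∑ i : Fin k,
      (2 * (k - 1) * (if ω ⟨t + 2, by have := t.2; omega⟩ i = ω ⟨t, by have := t.2; omega⟩ i ∧
          ω ⟨t + 1, by have := t.2; omega⟩ i ≠ ω ⟨t, by have := t.2; omega⟩ i
        then 1 else 0) +
      (k - 2) * (if ω ⟨t + 3, by have := t.2; omega⟩ i = ω ⟨t, by have := t.2; omega⟩ i ∧
        ω ⟨t + 2, by have := t.2; omega⟩ i ≠ ω ⟨t, by have := t.2; omega⟩ i ∧
        ω ⟨t + 1, by have := t.2; omega⟩ i ≠ ω ⟨t, by have := t.2; omega⟩ i
        then 1 else 0)) ≤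
      2 * (L * k + 2 * k - 1) +
        2 * ∑ t : Fin (L + 2), ∑ i : Fin k, (if ω t.succ i = ω t.castSucc i then 1 else 0) := by
  have hk0 : 0 < k := by omega
  obtain ⟨y, hy⟩ : ∃ y : ℕ → V, ∀ (t : ℕ) (ht : t < L + 3) (i : ℕ) (hi : i < k),
      y (i + k * t) = ω ⟨t, ht⟩ ⟨i, hi⟩ := by
    refine ⟨fun m => ω ⟨min (m / k) (L + 2), by omega⟩ ⟨m % k, Nat.mod_lt _ hk0⟩,
      fun t ht i hi => ?_⟩
    have e1 : (⟨min ((i + k * t) / k) (L + 2), by omega⟩ : Fin (L + 3)) = ⟨t, ht⟩ := by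
      apply Fin.ext
      show min ((i + k * t) / k) (L + 2) = t
      rw [Nat.add_mul_div_left _ _ hk0, Nat.div_eq_of_lt hi]
      omega
    have e2 : (⟨(i + k * t) % k, Nat.mod_lt _ hk0⟩ : Fin k) = ⟨i, hi⟩ := by
      apply Fin.ext
      show (i + k * t) % k = i
      rw [Nat.add_mul_mod_self_left, Nat.mod_eq_of_lt hi]
    show ω ⟨min ((i + k * t) / k) (L + 2), _⟩ ⟨(i + k * t) % k, _⟩ = ω ⟨t, ht⟩ ⟨i, hi⟩
    rw [e1, e2]
  have hdist : ∀ a b, a < b → b < a + k → b < L * k + 3 * k → y a ≠ y b := by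
    intro a b hab hba hb
    obtain ⟨t, i, hi, rfl⟩ : ∃ t i, i < k ∧ a = i + k * t :=
      ⟨a / k, a % k, Nat.mod_lt _ hk0, (Nat.mod_add_div a k).symm⟩
    obtain ⟨s, j, hj, rfl⟩ : ∃ s j, j < k ∧ b = j + k * s :=
      ⟨b / k, b % k, Nat.mod_lt _ hk0, (Nat.mod_add_div b k).symm⟩
    have hs : s < L + 3 := by
      by_contra hcon
      have h1 : k * (L + 3) ≤ k * s := Nat.mul_le_mul_left k (by omega)
      have h2 : k * (L + 3) = L * k + 3 * k := by ring
      omega
    have hts : t ≤ s := by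
      by_contra hcon
      have h1 : k * (s + 1) ≤ k * t := Nat.mul_le_mul_left k (by omega)
      have h2 : k * (s + 1) = k * s + k := by ring
      omega
    have hst : s ≤ t + 1 := by
      by_contra hcon
      have h1 : k * (t + 2) ≤ k * s := Nat.mul_le_mul_left k (by omega)
      have h2 : k * (t + 2) = k * t + 2 * k := by ring
      omega
    rcases Nat.eq_or_lt_of_le hts with rfl | hlt
    · rw [hy t hs i hi, hy t hs j hj]
      intro h
      have h1 := congrArg Fin.val (hinj _ h)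
      simp only at h1
      omega
    · have hs1 : s = t + 1 := by omega
      subst hs1
      have h2 : k * (t + 1) = k * t + k := by ring
      have hji : j < i := by omega
      have ht2 : t < L + 2 := by omega
      rw [hy t (by omega) i hi, hy (t + 1) hs j hj]
      intro h
      exact hcross ⟨t, ht2⟩ ⟨j, hj⟩ ⟨i, hi⟩ hji h.symm
  have hw := wordL_bound (M := L * k) hk hV y hdist
  have hstay : ∑ τ ∈ Ico k (L * k + 3 * k), (if y τ = y (τ - k) then 1 else 0) =
      ∑ t : Fin (L + 2), ∑ i : Fin k, (if ω t.succ i = ω t.castSucc i then 1 else 0) := by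
    rw [Finset.sum_Ico_eq_sum_range]
    have e0 : L * k + 3 * k - k = (L + 2) * k := by
      have : L * k + 3 * k = (L + 2) * k + k := by ring
      rw [this, Nat.add_sub_cancel]
    rw [e0, Finset.sum_range, ← Equiv.sum_comp finProdFinEquiv, Fintype.sum_prod_type]
    refine Finset.sum_congr rfl fun t _ => Finset.sum_congr rfl fun i _ => ?_
    have ht := t.2
    have e1 : ((finProdFinEquiv (t, i) : Fin ((L + 2) * k)) : ℕ) = (i : ℕ) + k * (t : ℕ) := rfl
    have e2 : k + ((i : ℕ) + k * (t : ℕ)) = i + k * (t + 1) := by ring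
    have e3 : k + ((i : ℕ) + k * (t : ℕ)) - k = i + k * t := by omega
    rw [e1, e3, e2, hy t (by omega) i i.2, hy (t + 1) (by omega) i i.2]
    rfl
  rw [hstay] at hw
  refine le_trans (le_of_eq ?_) hw
  rw [Finset.sum_range, ← Equiv.sum_comp finProdFinEquiv, Fintype.sum_prod_type]
  refine Finset.sum_congr rfl fun t _ => Finset.sum_congr rfl fun i _ => ?_
  have ht := t.2
  have e0 : ((finProdFinEquiv (t, i) : Fin (L * k)) : ℕ) = (i : ℕ) + k * (t : ℕ) := rfl
  have e1 : (i : ℕ) + k * (t : ℕ) + k = i + k * (t + 1) := by ring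
  have e2 : (i : ℕ) + k * (t : ℕ) + 2 * k = i + k * (t + 2) := by ring
  have e3 : (i : ℕ) + k * (t : ℕ) + 3 * k = i + k * (t + 3) := by ring
  rw [e0, e1, e2, e3, hy t (by omega) i i.2, hy (t + 1) (by omega) i i.2,
    hy (t + 2) (by omega) i i.2, hy (t + 3) (by omega) i i.2]

end

end Pool.Agent.H.MP_2d605f_pr
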