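import Pool.Agent.H.MP_2d605f_pr.Upper

/-! Simple random walk on the complete graph with loops: four consecutive positions. -/

open Finset

namespace Pool.Agent.H.MP_2d605f_pr

/-- sums over paths -/
private noncomputable def TlP_E {V : Type} [Fintype V] (K : V → V → ℝ) (T : ℕ) (f : V → ℝ)
    (G : (Fin (T + 1) → V) → ℝ) : ℝ :=
  ∑ x : Fin (T + 1) → V, f (x 0) * (∏ s : Fin T, K (x s.castSucc) (x s.succ)) * G x

private lemma TlP_succ {V : Type} [Fintype V] (K : V → V → ℝ) (T : ℕ) (f : V → ℝ)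
    (G : (Fin (T + 1 + 1) → V) → ℝ) :
    TlP_E K (T + 1) f G = ∑ a, f a * TlP_E K T (K a) (fun y => G (Fin.cons a y)) := by
  unfold TlP_E
  rw [← (Fin.consEquiv (fun _ : Fin (T + 2) => V)).sum_comp, Fintype.sum_prod_type]
  refine Finset.sum_congr rfl fun a _ => ?_
  rw [Finset.mul_sum]
  refine Finset.sum_congr rfl fun y _ => ?_
  simp only [Fin.consEquiv_apply, Fin.cons_zero]
  rw [Fin.prod_univ_succ]
  simp only [Fin.cons_zero, Fin.cons_succ, Fin.castSucc_zero, ← Fin.succ_castSucc]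
  have e : (Fin.consEquiv fun _ : Fin (T + 2) => V) (a, y) = (Fin.cons a y : Fin (T + 2) → V) := rfl
  rw [e]
  ring

private lemma TlP_const {V : Type} [Fintype V] {K : V → V → ℝ} (hK : ∀ a, ∑ b, K a b = 1)
    (T : ℕ) (f : V → ℝ) (C : ℝ) : TlP_E K T f (fun _ => C) = (∑ a, f a) * C := by
  induction T generalizing f with
  | zero =>
    unfold TlP_E
    rw [← (Equiv.funUnique (Fin 1) V).symm.sum_comp, Finset.sum_mul]
    refine Finset.sum_congr rfl fun a _ => ?_
    simp [Equiv.funUnique]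
  | succ T ih =>
    rw [TlP_succ, Finset.sum_mul]
    refine Finset.sum_congr rfl fun a _ => ?_
    rw [ih, hK, one_mul]

private lemma TlP_head {V : Type} [Fintype V] {K : V → V → ℝ} (hK : ∀ a, ∑ b, K a b = 1)
    (T : ℕ) (f φ : V → ℝ) : TlP_E K T f (fun y => φ (y ⟨0, by omega⟩)) = ∑ a, f a * φ a := by
  have h := TlP_const hK T (fun a => f a * φ a) 1
  rw [mul_one] at h
  rw [← h]
  unfold TlP_E
  refine Finset.sum_congr rfl fun y _ => ?_
  have e : (⟨0, by omega⟩ : Fin (T + 1)) = 0 := rfl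
  rw [e]
  ring

private lemma TlP_four {V : Type} [Fintype V] {K : V → V → ℝ} (hK : ∀ a, ∑ b, K a b = 1)
    (g : V → V → V → V → ℝ) (C : ℝ)
    (hg : ∀ a, ∑ b, ∑ c, ∑ d, K a b * K b c * K c d * g a b c d = C) (t : ℕ) :
    ∀ (T : ℕ) (f : V → ℝ) (_ : ∑ v, f v = 1) (ht : t + 3 < T + 1),
      TlP_E K T f (fun x => g (x ⟨t, by omega⟩) (x ⟨t + 1, by omega⟩) (x ⟨t + 2, by omega⟩)
        (x ⟨t + 3, ht⟩)) = C := by
  induction t with
  | zero =>
    intro T f hf ht
    obtain ⟨r, rfl⟩ : ∃ r, T = r + 3 := ⟨T - 3, by omega⟩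
    have e3 : ∀ a b, TlP_E K (r + 1) (K b) (fun y => g a b (y ⟨0, by omega⟩) (y ⟨1, by omega⟩)) =
        ∑ c, K b c * ∑ d, K c d * g a b c d := by
      intro a b
      rw [TlP_succ]
      refine Finset.sum_congr rfl fun c _ => ?_
      congr 1
      exact TlP_head hK r (K c) (g a b c)
    have e2 : ∀ a, TlP_E K (r + 1 + 1) (K a) (fun y => g a (y ⟨0, by omega⟩) (y ⟨1, by omega⟩)
        (y ⟨2, by omega⟩)) = ∑ b, K a b * ∑ c, K b c * ∑ d, K c d * g a b c d := by
      intro a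
      rw [TlP_succ]
      refine Finset.sum_congr rfl fun b _ => ?_
      congr 1
      exact e3 a b
    have e1 : TlP_E K (r + 2 + 1) f (fun x => g (x ⟨0, by omega⟩) (x ⟨0 + 1, by omega⟩)
        (x ⟨0 + 2, by omega⟩) (x ⟨0 + 3, ht⟩)) =
        ∑ a, f a * ∑ b, K a b * ∑ c, K b c * ∑ d, K c d * g a b c d := by
      rw [TlP_succ]
      refine Finset.sum_congr rfl fun a _ => ?_
      congr 1
      exact e2 a
    refine e1.trans ?_
    have e4 : ∀ a, ∑ b, K a b * ∑ c, K b c * ∑ d, K c d * g a b c d = C := by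
      intro a
      rw [← hg a]
      refine Finset.sum_congr rfl fun b _ => ?_
      rw [Finset.mul_sum]
      refine Finset.sum_congr rfl fun c _ => ?_
      rw [Finset.mul_sum, Finset.mul_sum]
      refine Finset.sum_congr rfl fun d _ => ?_
      ring
    rw [Finset.sum_congr rfl fun a _ => by rw [e4 a], ← Finset.sum_mul, hf, one_mul]
  | succ t ih =>
    intro T f hf ht
    obtain ⟨r, rfl⟩ : ∃ r, T = r + 1 := ⟨T - 1, by omega⟩
    rw [TlP_succ]
    have e : ∀ a, TlP_E K r (K a) (fun y => g (y ⟨t, by omega⟩) (y ⟨t + 1, by omega⟩)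
        (y ⟨t + 2, by omega⟩) (y ⟨t + 3, by omega⟩)) = C := fun a => ih r (K a) (hK a) (by omega)
    have e' : ∀ a, f a * TlP_E K r (K a) (fun y => g
        ((Fin.cons a y : Fin (r + 1 + 1) → V) ⟨t + 1, by omega⟩)
        ((Fin.cons a y : Fin (r + 1 + 1) → V) ⟨t + 1 + 1, by omega⟩)
        ((Fin.cons a y : Fin (r + 1 + 1) → V) ⟨t + 1 + 2, by omega⟩)
        ((Fin.cons a y : Fin (r + 1 + 1) → V) ⟨t + 1 + 3, ht⟩)) = f a * C := fun a =>
      congrArg (fun z => f a * z) (e a)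
    rw [Finset.sum_congr rfl fun a _ => e' a, ← Finset.sum_mul, hf, one_mul]

private lemma TlP_two {V : Type} [Fintype V] {K : V → V → ℝ} (hK : ∀ a, ∑ b, K a b = 1)
    (g : V → V → ℝ) (C : ℝ) (hg : ∀ a, ∑ b, K a b * g a b = C) (t : ℕ) :
    ∀ (T : ℕ) (f : V → ℝ) (_ : ∑ v, f v = 1) (ht : t + 1 < T + 1),
      TlP_E K T f (fun x => g (x ⟨t, by omega⟩) (x ⟨t + 1, ht⟩)) = C := by
  induction t with
  | zero =>
    intro T f hf ht
    obtain ⟨r, rfl⟩ : ∃ r, T = r + 1 := ⟨T - 1, by omega⟩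
    have e1 : TlP_E K (r + 1) f (fun x => g (x ⟨0, by omega⟩) (x ⟨0 + 1, ht⟩)) =
        ∑ a, f a * ∑ b, K a b * g a b := by
      rw [TlP_succ]
      refine Finset.sum_congr rfl fun a _ => ?_
      congr 1
      exact TlP_head hK r (K a) (g a)
    refine e1.trans ?_
    rw [Finset.sum_congr rfl fun a _ => by rw [hg a], ← Finset.sum_mul, hf, one_mul]
  | succ t ih =>
    intro T f hf ht
    obtain ⟨r, rfl⟩ : ∃ r, T = r + 1 := ⟨T - 1, by omega⟩
    rw [TlP_succ]
    have e : ∀ a, TlP_E K r (K a) (fun y => g (y ⟨t, by omega⟩) (y ⟨t + 1, by omega⟩)) = C :=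
      fun a => ih r (K a) (hK a) (by omega)
    have e' : ∀ a, f a * TlP_E K r (K a) (fun y => g
        ((Fin.cons a y : Fin (r + 1 + 1) → V) ⟨t + 1, by omega⟩)
        ((Fin.cons a y : Fin (r + 1 + 1) → V) ⟨t + 1 + 1, ht⟩)) = f a * C := fun a =>
      congrArg (fun z => f a * z) (e a)
    rw [Finset.sum_congr rfl fun a _ => e' a, ← Finset.sum_mul, hf, one_mul]

private lemma TlP_sum_one {V : Type} [Fintype V] [DecidableEq V] (hn : 1 ≤ Fintype.card V)
    (a : V) : ∑ b, srw true a b = 1 := by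
  have hc : (1 : ℝ) ≤ Fintype.card V := by exact_mod_cast hn
  unfold srw
  simp only [if_true]
  rw [Finset.sum_const, card_univ, nsmul_eq_mul]
  have h1 : (Fintype.card V : ℝ) ≠ 0 := by linarith
  field_simp

section
variable {V : Type} [Fintype V] [DecidableEq V]

/-- expectation of a function of four consecutive positions -/
lemma srw_fourL (hn : 1 ≤ Fintype.card V) (f : V → ℝ) (hf : ∑ v, f v = 1) (T t : ℕ)
    (ht : t + 3 < T + 1) (g : V → V → V → V → ℝ) (C : ℝ)
    (hg : ∀ a, ∑ b, ∑ c, ∑ d, srw true a b * srw true b c * srw true c d * g a b c d = C) :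
    ∑ x : Fin (T + 1) → V, f (x 0) * (∏ s : Fin T, srw true (x s.castSucc) (x s.succ)) *
      g (x ⟨t, by omega⟩) (x ⟨t + 1, by omega⟩) (x ⟨t + 2, by omega⟩) (x ⟨t + 3, ht⟩) = C := by
  exact TlP_four (TlP_sum_one hn) g C hg t T f hf ht

/-- expectation of a function of two consecutive positions -/
lemma srw_twoL (hn : 1 ≤ Fintype.card V) (f : V → ℝ) (hf : ∑ v, f v = 1) (T : ℕ) (t : Fin T)
    (g : V → V → ℝ) (C : ℝ) (hg : ∀ a, ∑ b, srw true a b * g a b = C) :
    ∑ x : Fin (T + 1) → V, f (x 0) * (∏ s : Fin T, srw true (x s.castSucc) (x s.succ)) *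
      g (x t.castSucc) (x t.succ) = C := by
  have h := TlP_two (TlP_sum_one hn) g C hg (t : ℕ) T f hf (by omega)
  exact h

end

end Pool.Agent.H.MP_2d605f_pr
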