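import Pool.Agent.H.MP_2d605f_pr.TlW

/-! The number of covers at one time. -/

open Finset

namespace Pool.Agent.H.MP_2d605f_pr

section
variable {V : Type} [Fintype V] [DecidableEq V]

/-- the number of the letters which are not in the window -/
lemma TlV_card {k N : ℕ} (hk : 2 ≤ k) (hV : Fintype.card V = k + 2) (y : ℕ → V)
    (hy : ∀ a b, a < b → b < a + k → b < N → y a ≠ y b) {τ : ℕ} (hτ0 : k + 1 ≤ τ) (hτ : τ < N) :
    (Finset.univ \ (Icc (τ - k) τ).image y).card ≤ if y τ = y (τ - k) then 2 else 1 := by
  classical
  have h0 : (Finset.univ \ (Icc (τ - k) τ).image y).card + ((Icc (τ - k) τ).image y).card =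
      k + 2 := by
    rw [← hV, ← Finset.card_univ]
    exact Finset.card_sdiff_add_card_eq_card (Finset.subset_univ _)
  by_cases he : y τ = y (τ - k)
  · rw [if_pos he]
    have hinj : Set.InjOn y (Icc (τ - k + 1) τ : Finset ℕ) := by
      intro a ha b hb he
      rw [Finset.mem_coe, Finset.mem_Icc] at ha hb
      rcases lt_trichotomy a b with h | h | h
      · exact absurd he (hy a b h (by omega) (by omega))
      · exact h
      · exact absurd he.symm (hy b a h (by omega) (by omega))
    have h1 : ((Icc (τ - k + 1) τ).image y).card = k := by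
      rw [Finset.card_image_of_injOn hinj, Nat.card_Icc]
      omega
    have h2 : (Icc (τ - k + 1) τ).image y ⊆ (Icc (τ - k) τ).image y :=
      Finset.image_subset_image (Finset.Icc_subset_Icc (by omega) le_rfl)
    have h3 := Finset.card_le_card h2
    omega
  · rw [if_neg he]
    have hinj : Set.InjOn y (Icc (τ - k) τ : Finset ℕ) := by
      have key : ∀ a b, τ - k ≤ a → b ≤ τ → a < b → y a ≠ y b := by
        intro a b ha hb hab
        rcases Nat.lt_or_ge b (a + k) with h | h
        · exact hy a b hab h (by omega)
        · have e1 : a = τ - k := by omega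
          have e2 : b = τ := by omega
          rw [e1, e2]
          exact fun h => he h.symm
      intro a ha b hb he
      rw [Finset.mem_coe, Finset.mem_Icc] at ha hb
      rcases lt_trichotomy a b with h | h | h
      · exact absurd he (key a b ha.1 hb.2 h)
      · exact h
      · exact absurd he.symm (key b a hb.1 ha.2 h)
    have h1 : ((Icc (τ - k) τ).image y).card = k + 1 := by
      rw [Finset.card_image_of_injOn hinj, Nat.card_Icc]
      omega
    omega

open Classical in
lemma lov_le {k M : ℕ} (hk : 2 ≤ k) (hV : Fintype.card V = k + 2) (y : ℕ → V)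
    (hy : ∀ a b, a < b → b < a + k → b < M + 3 * k → y a ≠ y b) (τ : ℕ)
    (hτ0 : k + 1 ≤ τ) (hτ : τ < M + 3 * k) :
    2 * ((range M).filter (fun m => LovR y k m τ)).card +
      ((range M).filter (fun m => LovA y k m τ)).card ≤
      2 * (if y τ = y (τ - k) then 2 else 1) := by
  have hmiss : ∀ m, Miss y k m τ → y m ∈ Finset.univ \ (Icc (τ - k) τ).image y := by
    intro m hm
    rw [Finset.mem_sdiff]
    refine ⟨Finset.mem_univ _, fun h => ?_⟩
    obtain ⟨j, hj, he⟩ := Finset.mem_image.1 h
    rw [Finset.mem_Icc] at hj
    exact hm.2 j (by omega) hj.2 he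
  have hR := Finset.card_eq_sum_card_fiberwise (s := (range M).filter (fun m => LovR y k m τ))
    (t := Finset.univ \ (Icc (τ - k) τ).image y) (f := y) (fun m hm => by
      have h1 := (Finset.mem_filter.1 (Finset.mem_coe.1 hm)).2
      exact Finset.mem_coe.2 (hmiss m h1.2.1))
  have hA := Finset.card_eq_sum_card_fiberwise (s := (range M).filter (fun m => LovA y k m τ))
    (t := Finset.univ \ (Icc (τ - k) τ).image y) (f := y) (fun m hm => by
      have h1 := (Finset.mem_filter.1 (Finset.mem_coe.1 hm)).2
      exact Finset.mem_coe.2 (hmiss m h1.2.1))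
  rw [hR, hA, Finset.mul_sum, ← Finset.sum_add_distrib]
  have h1 : ∑ v ∈ Finset.univ \ (Icc (τ - k) τ).image y,
      (2 * (((range M).filter (fun m => LovR y k m τ)).filter (fun m => y m = v)).card +
        (((range M).filter (fun m => LovA y k m τ)).filter (fun m => y m = v)).card) ≤
      ∑ v ∈ Finset.univ \ (Icc (τ - k) τ).image y, 2 := by
    refine Finset.sum_le_sum fun v _ => ?_
    rw [Finset.filter_filter, Finset.filter_filter]
    exact lov_letter hk y hy τ hτ v
  refine h1.trans ?_
  rw [Finset.sum_const, smul_eq_mul, Nat.mul_comm]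
  exact Nat.mul_le_mul_left 2 (TlV_card hk hV y hy hτ0 hτ)

end

end Pool.Agent.H.MP_2d605f_pr
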