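import Pool.Agent.H.MP_2d605f_pr.TwW

/-! Words over `k + 2` letters in which any `k` consecutive letters are distinct. -/

open Finset

namespace Pool.Agent.H.MP_2d605f_pr

section
variable {V : Type} [Fintype V] [DecidableEq V]

/-- `m` is covered by a return after `2 k`, not after `k`, at `τ` -/
def LovR (y : ℕ → V) (k m τ : ℕ) : Prop :=
  (y (m + 2 * k) = y m ∧ y (m + k) ≠ y m) ∧ Miss y k m τ ∧ τ + 1 ≤ m + 2 * k

/-- `m` is covered by a first return after `3 k` at `τ` -/
def LovA (y : ℕ → V) (k m τ : ℕ) : Prop :=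
  (y (m + 3 * k) = y m ∧ y (m + 2 * k) ≠ y m ∧ y (m + k) ≠ y m) ∧ Miss y k m τ ∧
    τ + 1 ≤ m + 3 * k

open Classical in
/-- the covers whose letter is `v` -/
lemma lov_letter {k M : ℕ} (hk : 2 ≤ k) (y : ℕ → V)
    (hy : ∀ a b, a < b → b < a + k → b < M + 3 * k → y a ≠ y b) (τ : ℕ)
    (hτ : τ < M + 3 * k) (v : V) :
    2 * ((range M).filter (fun m => LovR y k m τ ∧ y m = v)).card +
      ((range M).filter (fun m => LovA y k m τ ∧ y m = v)).card ≤ 2 := by
  have hfar : ∀ a b, a < b → b < M + 3 * k → y a = y b → a + k ≤ b := by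
    intro a b hab hb he
    by_contra hc
    exact hy a b hab (by omega) hb he
  have hR : ∀ m, m < M → LovR y k m τ → ∀ j, m < j → j < m + 2 * k → y j ≠ y m := by
    intro m hm h j h1 h2 he
    have g1 := hfar m j h1 (by omega) he.symm
    have g2 := hfar j (m + 2 * k) h2 (by omega) (he.trans h.1.1.symm)
    have g3 : j = m + k := by omega
    exact h.1.2 (g3 ▸ he)
  have hA : ∀ m, m < M → LovA y k m τ → (∀ p, m < p → p < τ → y p ≠ y m) ∨
      ∀ p, τ < p → p < m + 3 * k → y p ≠ y m := by
    intro m hm h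
    by_contra hc
    push Not at hc
    obtain ⟨⟨p, p1, p2, p3⟩, q, q1, q2, q3⟩ := hc
    have g1 := hfar m p p1 (by omega) p3.symm
    have g3 := hfar q (m + 3 * k) q2 (by omega) (q3.trans h.1.1.symm)
    have g4 : ¬ τ ≤ p + k := fun g => h.2.1.2 p g p2.le p3
    omega
  have cR : ((range M).filter (fun m => LovR y k m τ ∧ y m = v)).card ≤ 1 := by
    rw [Finset.card_le_one]
    intro a ha b hb
    rw [Finset.mem_filter, Finset.mem_range] at ha hb
    rcases lt_trichotomy a b with h | h | h
    · refine absurd (hb.2.2.trans ha.2.2.symm) (hR a ha.1 ha.2.1 b h ?_)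
      have g1 := hb.2.1.2.1.1
      have g2 := ha.2.1.2.2
      omega
    · exact h
    · refine absurd (ha.2.2.trans hb.2.2.symm) (hR b hb.1 hb.2.1 a h ?_)
      have g1 := ha.2.1.2.1.1
      have g2 := hb.2.1.2.2
      omega
  by_cases hne : ∃ m0, m0 < M ∧ LovR y k m0 τ ∧ y m0 = v
  · obtain ⟨m0, hm0, h0, hv0⟩ := hne
    have hemp : (range M).filter (fun m => LovA y k m τ ∧ y m = v) = ∅ := by
      rw [Finset.filter_eq_empty_iff]
      rintro m hm ⟨h, hv⟩
      rw [Finset.mem_range] at hm
      have e1 : y m = y m0 := hv.trans hv0.symm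
      have g0 := h0.2.1.1
      have g1 := h0.2.2
      have g2 := h.2.1.1
      have g3 := h.2.2
      rcases lt_trichotomy m m0 with hlt | heq | hgt
      · rcases hA m hm h with h1 | h1
        · exact h1 m0 hlt (by omega) e1.symm
        · have e2 : y (m0 + 2 * k) = y m := h0.1.1.trans e1.symm
          have g4 : m + 3 * k ≤ m0 + 2 * k := by
            by_contra hc
            exact h1 (m0 + 2 * k) (by omega) (by omega) e2
          have g5 : m0 + 2 * k ≤ m + 3 * k := by
            by_contra hc
            exact hR m0 hm0 h0 (m + 3 * k) (by omega) (by omega) (h.1.1.trans e1)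
          have g6 : m0 = m + k := by omega
          exact h.1.2.2 (g6 ▸ e1.symm)
      · subst heq
        exact h.1.2.1 h0.1.1
      · exact hR m0 hm0 h0 m hgt (by omega) e1
    rw [hemp, Finset.card_empty]
    omega
  · have hemp : (range M).filter (fun m => LovR y k m τ ∧ y m = v) = ∅ := by
      rw [Finset.filter_eq_empty_iff]
      intro m hm h
      exact hne ⟨m, Finset.mem_range.1 hm, h⟩
    rw [hemp, Finset.card_empty]
    have hsub : (range M).filter (fun m => LovA y k m τ ∧ y m = v) ⊆
        (range M).filter (fun m => (LovA y k m τ ∧ y m = v) ∧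
          ∀ p, m < p → p < τ → y p ≠ y m) ∪
        (range M).filter (fun m => (LovA y k m τ ∧ y m = v) ∧
          ∀ p, τ < p → p < m + 3 * k → y p ≠ y m) := by
      intro m hm
      rw [Finset.mem_filter] at hm
      rw [Finset.mem_union, Finset.mem_filter, Finset.mem_filter]
      rcases hA m (Finset.mem_range.1 hm.1) hm.2.1 with h1 | h1
      · exact Or.inl ⟨hm.1, hm.2, h1⟩
      · exact Or.inr ⟨hm.1, hm.2, h1⟩
    have c1 : ((range M).filter (fun m => (LovA y k m τ ∧ y m = v) ∧
        ∀ p, m < p → p < τ → y p ≠ y m)).card ≤ 1 := by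
      rw [Finset.card_le_one]
      intro a ha b hb
      rw [Finset.mem_filter, Finset.mem_range] at ha hb
      have e1 : y a = y b := ha.2.1.2.trans hb.2.1.2.symm
      have g1 := ha.2.1.1.2.1.1
      have g2 := hb.2.1.1.2.1.1
      rcases lt_trichotomy a b with h | h | h
      · exact absurd e1.symm (ha.2.2 b h (by omega))
      · exact h
      · exact absurd e1 (hb.2.2 a h (by omega))
    have c2 : ((range M).filter (fun m => (LovA y k m τ ∧ y m = v) ∧
        ∀ p, τ < p → p < m + 3 * k → y p ≠ y m)).card ≤ 1 := by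
      rw [Finset.card_le_one]
      intro a ha b hb
      rw [Finset.mem_filter, Finset.mem_range] at ha hb
      have e1 : y a = y b := ha.2.1.2.trans hb.2.1.2.symm
      have g1 := ha.2.1.1.2.2
      have g2 := hb.2.1.1.2.2
      rcases lt_trichotomy a b with h | h | h
      · exact absurd (ha.2.1.1.1.1.trans e1) (hb.2.2 (a + 3 * k) (by omega) (by omega))
      · exact h
      · exact absurd (hb.2.1.1.1.1.trans e1.symm) (ha.2.2 (b + 3 * k) (by omega) (by omega))
    have h3 := (Finset.card_le_card hsub).trans (Finset.card_union_le _ _)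
    omega

end

end Pool.Agent.H.MP_2d605f_pr
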