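import Pool.Agent.H.MP_2d605f_pr.TwP

/-! Return probabilities of the walkers. -/

open Finset

namespace Pool.Agent.H.MP_2d605f_pr

section
variable {V : Type} [Fintype V] [DecidableEq V] {k : ℕ} {S : MarkovSystem V k}

lemma TwQ_srw (a b : V) : srw false a b = 1 / ((Fintype.card V : ℝ) - 1) -
    if a = b then 1 / ((Fintype.card V : ℝ) - 1) else 0 := by
  unfold srw
  simp only [Bool.false_eq_true, if_false]
  split_ifs <;> ring

lemma TwQ_self (a : V) : srw false a a = 0 := by
  rw [TwQ_srw, if_pos rfl, sub_self]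

/-- two steps -/
lemma TwQ_two (hn : 2 ≤ Fintype.card V) (b a : V) : ∑ c, srw false b c * srw false c a =
    1 / ((Fintype.card V : ℝ) - 1) * (1 - srw false b a) := by
  have e : ∀ c, srw false b c * srw false c a = 1 / ((Fintype.card V : ℝ) - 1) * srw false b c -
      if c = a then 1 / ((Fintype.card V : ℝ) - 1) * srw false b a else 0 := by
    intro c
    rw [TwQ_srw c a]
    by_cases h : c = a
    · rw [if_pos h, if_pos h, h]
      ring
    · rw [if_neg h, if_neg h]
      ring
  rw [Finset.sum_congr rfl fun c _ => e c, Finset.sum_sub_distrib, Finset.sum_ite_eq',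
    if_pos (mem_univ a), ← Finset.mul_sum, srw_sum_one hn]
  ring

lemma TwQ_four (H : IsAvoidanceCoupling false S) (hn : 2 ≤ Fintype.card V) (i : Fin k) (T t : ℕ)
    (ht : t + 3 < T + 1) (e : V → V → V → V → Prop) [∀ a b c d, Decidable (e a b c d)] (C : ℝ)
    (hC : ∀ a, ∑ b, ∑ c, ∑ d, srw false a b * srw false b c * srw false c d *
      (if e a b c d then 1 else 0) = C) :
    (∑ ω : Fin (T + 1) → Fin k → V, if e (ω ⟨t, by omega⟩ i) (ω ⟨t + 1, by omega⟩ i)
      (ω ⟨t + 2, by omega⟩ i) (ω ⟨t + 3, ht⟩ i) then S.pathProb T ω else 0) = C := by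
  have h1 := prob_event H i T (fun x => e (x ⟨t, by omega⟩) (x ⟨t + 1, by omega⟩)
    (x ⟨t + 2, by omega⟩) (x ⟨t + 3, ht⟩))
  refine Eq.trans h1 ?_
  refine Eq.trans ?_ (srw_four hn (ini S i) (ini_sum S i) T t ht
    (fun a b c d => if e a b c d then 1 else 0) C hC)
  refine Finset.sum_congr rfl fun x _ => ?_
  by_cases h : e (x ⟨t, by omega⟩) (x ⟨t + 1, by omega⟩) (x ⟨t + 2, by omega⟩) (x ⟨t + 3, ht⟩)
  · rw [if_pos h, if_pos h, mul_one]
  · rw [if_neg h, if_neg h, mul_zero]

lemma tw_ret2 (H : IsAvoidanceCoupling false S) (hn : 3 ≤ Fintype.card V) (i : Fin k) (T t : ℕ)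
    (ht : t + 3 < T + 1) :
    (∑ ω : Fin (T + 1) → Fin k → V, if ω ⟨t + 2, by omega⟩ i = ω ⟨t, by omega⟩ i
      then S.pathProb T ω else 0) = 1 / ((Fintype.card V : ℝ) - 1) := by
  have hn2 : 2 ≤ Fintype.card V := by omega
  refine TwQ_four H hn2 i T t ht (fun a _ c _ => c = a) _ fun a => ?_
  have e1 : ∀ b, (∑ c, ∑ d, srw false a b * srw false b c * srw false c d *
      (if c = a then 1 else 0)) = srw false a b * srw false b a := by
    intro b
    rw [Finset.sum_eq_single a]
    · rw [if_pos rfl]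
      simp only [mul_one]
      rw [← Finset.mul_sum, srw_sum_one hn2, mul_one]
    · intro c _ hc
      refine Finset.sum_eq_zero fun d _ => ?_
      rw [if_neg hc, mul_zero]
    · intro h
      exact absurd (mem_univ _) h
  rw [Finset.sum_congr rfl fun b _ => e1 b, TwQ_two hn2, TwQ_self, sub_zero, mul_one]

lemma tw_ret3 (H : IsAvoidanceCoupling false S) (hn : 3 ≤ Fintype.card V) (i : Fin k) (T t : ℕ)
    (ht : t + 3 < T + 1) :
    (∑ ω : Fin (T + 1) → Fin k → V, if ω ⟨t + 3, ht⟩ i = ω ⟨t, by omega⟩ i ∧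
      ω ⟨t + 2, by omega⟩ i ≠ ω ⟨t, by omega⟩ i
      then S.pathProb T ω else 0) =
      ((Fintype.card V : ℝ) - 2) / ((Fintype.card V : ℝ) - 1) ^ 2 := by
  have hn2 : 2 ≤ Fintype.card V := by omega
  have hc : (3 : ℝ) ≤ Fintype.card V := by exact_mod_cast hn
  have hc1 : (Fintype.card V : ℝ) - 1 ≠ 0 := by linarith
  refine TwQ_four H hn2 i T t ht (fun a _ c d => d = a ∧ c ≠ a) _ fun a => ?_
  have e1 : ∀ b, (∑ c, ∑ d, srw false a b * srw false b c * srw false c d *
      (if d = a ∧ c ≠ a then 1 else 0)) =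
      1 / ((Fintype.card V : ℝ) - 1) * srw false a b -
        1 / ((Fintype.card V : ℝ) - 1) * (srw false a b * srw false b a) := by
    intro b
    have e2 : ∀ c, (∑ d, srw false a b * srw false b c * srw false c d *
        (if d = a ∧ c ≠ a then 1 else 0)) = srw false a b * (srw false b c * srw false c a) := by
      intro c
      rw [Finset.sum_eq_single a]
      · by_cases h : c = a
        · rw [if_neg (fun h' => h'.2 h), h, TwQ_self, mul_zero, mul_zero, mul_zero]
        · rw [if_pos ⟨rfl, h⟩]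
          ring
      · intro d _ hd
        rw [if_neg (fun h' => hd h'.1), mul_zero]
      · intro h
        exact absurd (mem_univ _) h
    rw [Finset.sum_congr rfl fun c _ => e2 c, ← Finset.mul_sum, TwQ_two hn2]
    ring
  rw [Finset.sum_congr rfl fun b _ => e1 b, Finset.sum_sub_distrib, ← Finset.mul_sum,
    ← Finset.mul_sum, srw_sum_one hn2, TwQ_two hn2, TwQ_self]
  field_simp
  ring

lemma tw_move (H : IsAvoidanceCoupling false S) (T : ℕ) (ω : Fin (T + 1) → Fin k → V)
    (h : S.pathProb T ω ≠ 0) (t : Fin T) (i : Fin k) : ω t.succ i ≠ ω t.castSucc i := by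
  intro heq
  have h1 := prob_event H i T (fun x => x t.succ = x t.castSucc)
  have h2 : (∑ x : Fin (T + 1) → V, if x t.succ = x t.castSucc then ini S i (x 0) *
        ∏ t : Fin T, srw false (x t.castSucc) (x t.succ) else 0) = 0 := by
    refine Finset.sum_eq_zero fun x _ => ?_
    by_cases hx : x t.succ = x t.castSucc
    · rw [if_pos hx, Finset.prod_eq_zero (mem_univ t) (by rw [hx, TwQ_self]), mul_zero]
    · rw [if_neg hx]
  rw [h2] at h1
  have h3 := (Finset.sum_eq_zero_iff_of_nonneg (fun ω' _ => by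
    split_ifs
    · exact path_nonneg S T ω'
    · exact le_rfl)).1 h1 ω (mem_univ ω)
  rw [if_pos heq] at h3
  exact h h3

omit [DecidableEq V] in
/-- the sum over all paths -/
lemma TwQ_sum {P : V → V → ℝ} (hP : ∀ a, ∑ b, P a b = 1) (T : ℕ) : ∀ f : V → ℝ,
    ∑ x : Fin (T + 1) → V, f (x 0) * ∏ s : Fin T, P (x s.castSucc) (x s.succ) = ∑ v, f v := by
  induction T with
  | zero =>
    intro f
    refine Fintype.sum_equiv (Equiv.funUnique (Fin 1) V) _ _ fun x => ?_
    rw [Fin.prod_univ_zero, mul_one]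
    rfl
  | succ T ih =>
    intro f
    rw [← (Fin.consEquiv (fun _ : Fin (T + 2) => V)).sum_comp, Fintype.sum_prod_type_right]
    have e1 : ∀ y : Fin (T + 1) → V, (∑ a : V, f ((Fin.consEquiv (fun _ : Fin (T + 2) => V)) (a, y) 0) *
        ∏ s : Fin (T + 1), P ((Fin.consEquiv (fun _ : Fin (T + 2) => V)) (a, y) s.castSucc)
          ((Fin.consEquiv (fun _ : Fin (T + 2) => V)) (a, y) s.succ)) =
        (∑ a, f a * P a (y 0)) * ∏ s : Fin T, P (y s.castSucc) (y s.succ) := by
      intro y
      rw [Finset.sum_mul]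
      refine Finset.sum_congr rfl fun a _ => ?_
      rw [Fin.prod_univ_succ, mul_assoc]
      rfl
    rw [Finset.sum_congr rfl fun y _ => e1 y, ih fun b => ∑ a, f a * P a b, Finset.sum_comm]
    refine Finset.sum_congr rfl fun a _ => ?_
    rw [← Finset.mul_sum, hP, mul_one]

lemma tw_total (H : IsAvoidanceCoupling false S) (hn : 2 ≤ Fintype.card V) (i : Fin k) (T : ℕ) :
    ∑ ω : Fin (T + 1) → Fin k → V, S.pathProb T ω = 1 := by
  have h1 := prob_event H i T (fun _ => True)
  simp only [if_true] at h1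
  rw [h1, TwQ_sum (srw_sum_one hn) T (ini S i), ini_sum]

end

end Pool.Agent.H.MP_2d605f_pr
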