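import Pool.Agent.H.MP_2d605f_pr.TwN
import Pool.Agent.H.MP_2d605f_pr.TwQ

/-! No avoidance coupling of `n - 2` walkers on the complete graph without loops. -/

open Finset

namespace Pool.Agent.H.MP_2d605f_pr

section
variable {V : Type} [Fintype V] [DecidableEq V] {k : ℕ} {S : MarkovSystem V k}

/-- the averaged inequality -/
lemma tw_avg (H : IsAvoidanceCoupling false S) (hn : Fintype.card V = k + 2) (hk : 2 ≤ k) (L : ℕ) :
    (L : ℝ) * k * (2 * ((k : ℝ) - 1) * (1 / ((k : ℝ) + 1)) +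
      ((k : ℝ) - 2) * ((k : ℝ) / ((k : ℝ) + 1) ^ 2)) ≤ 2 * (L * k + 2 * k - 1) := by
  have hk0 : 0 < k := by omega
  have hc3 : 3 ≤ Fintype.card V := by omega
  have hn1 : ((Fintype.card V : ℝ) - 1) = (k : ℝ) + 1 := by
    rw [hn]; push_cast; ring
  have hn2 : ((Fintype.card V : ℝ) - 2) = (k : ℝ) := by
    rw [hn]; push_cast; ring
  have key : ∀ ω : Fin (L + 2 + 1) → Fin k → V, S.pathProb (L + 2) ω *
      (∑ t : Fin L, ∑ i : Fin k,
        (2 * ((k : ℝ) - 1) * (if ω ⟨t + 2, by have := t.2; omega⟩ i =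
            ω ⟨t, by have := t.2; omega⟩ i then 1 else 0) +
          ((k : ℝ) - 2) * (if ω ⟨t + 3, by have := t.2; omega⟩ i =
            ω ⟨t, by have := t.2; omega⟩ i ∧ ω ⟨t + 2, by have := t.2; omega⟩ i ≠
            ω ⟨t, by have := t.2; omega⟩ i then 1 else 0))) ≤
      S.pathProb (L + 2) ω * (2 * ((L : ℝ) * k + 2 * k - 1)) := by
    intro ω
    by_cases h : S.pathProb (L + 2) ω = 0
    · rw [h, zero_mul, zero_mul]
    · refine mul_le_mul_of_nonneg_left ?_ (path_nonneg S (L + 2) ω)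
      have h1 := path_bound (L := L) hk hn ω (H.avoid (L + 2) ω h).1
        (fun t a c hac => cross H h t hac) (fun t a => tw_move H (L + 2) ω h t a)
      have h2 : ((∑ t : Fin L, ∑ i : Fin k,
        (2 * (k - 1) * (if ω ⟨t + 2, by have := t.2; omega⟩ i = ω ⟨t, by have := t.2; omega⟩ i
          then 1 else 0) +
        (k - 2) * (if ω ⟨t + 3, by have := t.2; omega⟩ i = ω ⟨t, by have := t.2; omega⟩ i ∧
          ω ⟨t + 2, by have := t.2; omega⟩ i ≠ ω ⟨t, by have := t.2; omega⟩ i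
          then 1 else 0)) : ℕ) : ℝ) ≤ ((2 * (L * k + 2 * k - 1) : ℕ) : ℝ) := by
        exact_mod_cast h1
      have e1 : ((k - 1 : ℕ) : ℝ) = (k : ℝ) - 1 := by
        rw [Nat.cast_sub (by omega)]; simp
      have e2 : ((k - 2 : ℕ) : ℝ) = (k : ℝ) - 2 := by
        rw [Nat.cast_sub (by omega)]; simp
      have e3 : ((2 * (L * k + 2 * k - 1) : ℕ) : ℝ) = 2 * ((L : ℝ) * k + 2 * k - 1) := by
        rw [Nat.cast_mul, Nat.cast_sub (by nlinarith)]
        push_cast
        ring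
      rw [e3] at h2
      refine le_trans (le_of_eq ?_) h2
      push_cast
      rw [e1, e2]
  have tot : ∑ ω : Fin (L + 2 + 1) → Fin k → V, S.pathProb (L + 2) ω = 1 :=
    tw_total H (by omega) ⟨0, hk0⟩ (L + 2)
  have h1 := Finset.sum_le_sum fun (ω : Fin (L + 2 + 1) → Fin k → V) (_ : ω ∈ univ) => key ω
  rw [← Finset.sum_mul, tot, one_mul] at h1
  refine le_trans (le_of_eq ?_) h1
  have e0 : ∀ ω : Fin (L + 2 + 1) → Fin k → V, S.pathProb (L + 2) ω *
      (∑ t : Fin L, ∑ i : Fin k,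
        (2 * ((k : ℝ) - 1) * (if ω ⟨t + 2, by have := t.2; omega⟩ i =
            ω ⟨t, by have := t.2; omega⟩ i then 1 else 0) +
          ((k : ℝ) - 2) * (if ω ⟨t + 3, by have := t.2; omega⟩ i =
            ω ⟨t, by have := t.2; omega⟩ i ∧ ω ⟨t + 2, by have := t.2; omega⟩ i ≠
            ω ⟨t, by have := t.2; omega⟩ i then 1 else 0))) =
      ∑ t : Fin L, ∑ i : Fin k,
        (2 * ((k : ℝ) - 1) * (if ω ⟨t + 2, by have := t.2; omega⟩ i =
            ω ⟨t, by have := t.2; omega⟩ i then S.pathProb (L + 2) ω else 0) +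
          ((k : ℝ) - 2) * (if ω ⟨t + 3, by have := t.2; omega⟩ i =
            ω ⟨t, by have := t.2; omega⟩ i ∧ ω ⟨t + 2, by have := t.2; omega⟩ i ≠
            ω ⟨t, by have := t.2; omega⟩ i then S.pathProb (L + 2) ω else 0)) := by
    intro ω
    rw [Finset.mul_sum]
    refine Finset.sum_congr rfl fun t _ => ?_
    rw [Finset.mul_sum]
    refine Finset.sum_congr rfl fun i _ => ?_
    split_ifs <;> ring
  rw [Finset.sum_congr rfl fun ω _ => e0 ω, Finset.sum_comm]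
  have e4 : ∀ t : Fin L, ∑ ω : Fin (L + 2 + 1) → Fin k → V, ∑ i : Fin k,
        (2 * ((k : ℝ) - 1) * (if ω ⟨t + 2, by have := t.2; omega⟩ i =
            ω ⟨t, by have := t.2; omega⟩ i then S.pathProb (L + 2) ω else 0) +
          ((k : ℝ) - 2) * (if ω ⟨t + 3, by have := t.2; omega⟩ i =
            ω ⟨t, by have := t.2; omega⟩ i ∧ ω ⟨t + 2, by have := t.2; omega⟩ i ≠
            ω ⟨t, by have := t.2; omega⟩ i then S.pathProb (L + 2) ω else 0)) =
      (k : ℝ) * (2 * ((k : ℝ) - 1) * (1 / ((k : ℝ) + 1)) +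
        ((k : ℝ) - 2) * ((k : ℝ) / ((k : ℝ) + 1) ^ 2)) := by
    intro t
    have ht := t.2
    rw [Finset.sum_comm]
    have e5 : ∀ i : Fin k, ∑ ω : Fin (L + 2 + 1) → Fin k → V,
        (2 * ((k : ℝ) - 1) * (if ω ⟨t + 2, by have := t.2; omega⟩ i =
            ω ⟨t, by have := t.2; omega⟩ i then S.pathProb (L + 2) ω else 0) +
          ((k : ℝ) - 2) * (if ω ⟨t + 3, by have := t.2; omega⟩ i =
            ω ⟨t, by have := t.2; omega⟩ i ∧ ω ⟨t + 2, by have := t.2; omega⟩ i ≠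
            ω ⟨t, by have := t.2; omega⟩ i then S.pathProb (L + 2) ω else 0)) =
        2 * ((k : ℝ) - 1) * (1 / ((k : ℝ) + 1)) +
        ((k : ℝ) - 2) * ((k : ℝ) / ((k : ℝ) + 1) ^ 2) := by
      intro i
      rw [Finset.sum_add_distrib, ← Finset.mul_sum, ← Finset.mul_sum,
        tw_ret2 H hc3 i (L + 2) t (by omega), tw_ret3 H hc3 i (L + 2) t (by omega), hn1, hn2]
    rw [Finset.sum_congr rfl fun i _ => e5 i, Finset.sum_const, Finset.card_univ,
      Fintype.card_fin, nsmul_eq_mul]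
  rw [Finset.sum_congr rfl fun t _ => e4 t, Finset.sum_const, Finset.card_univ,
    Fintype.card_fin, nsmul_eq_mul]
  ring

theorem no_coupling_two (H : IsAvoidanceCoupling false S) (hn : Fintype.card V = k + 2)
    (hk : 7 ≤ k) : False := by
  have h := tw_avg H hn (by omega) (4 * (k + 1) ^ 2)
  have hk7 : (7 : ℝ) ≤ k := by exact_mod_cast hk
  have hk1 : (0 : ℝ) < (k : ℝ) + 1 := by linarith
  have e : (2 * ((k : ℝ) - 1) * (1 / ((k : ℝ) + 1)) +
      ((k : ℝ) - 2) * ((k : ℝ) / ((k : ℝ) + 1) ^ 2)) =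
      2 + ((k : ℝ) ^ 2 - 6 * k - 4) / ((k : ℝ) + 1) ^ 2 := by
    field_simp
    ring
  rw [e] at h
  push_cast at h
  have h2 : (4 * ((k : ℝ) + 1) ^ 2) * k * (2 + ((k : ℝ) ^ 2 - 6 * k - 4) / ((k : ℝ) + 1) ^ 2) =
      2 * ((4 * ((k : ℝ) + 1) ^ 2) * k) + 4 * k * ((k : ℝ) ^ 2 - 6 * k - 4) := by
    field_simp
  rw [h2] at h
  have h3 : (1 : ℝ) ≤ (k : ℝ) ^ 2 - 6 * k - 4 := by nlinarith
  nlinarith

end

end Pool.Agent.H.MP_2d605f_pr
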