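import Mathlib

/-! Words over `k + 2` letters in which any `k + 1` consecutive letters are distinct. -/

open Finset

namespace Pool.Agent.H.MP_2d605f_pr

section
variable {V : Type} [Fintype V] [DecidableEq V]

/-- the window of `k + 1` letters ending at `τ` starts after `m` and does not contain the letter
at `m` -/
def Miss (y : ℕ → V) (k m τ : ℕ) : Prop :=
  m + k + 1 ≤ τ ∧ ∀ j, τ ≤ j + k → j ≤ τ → y j ≠ y m

/-- `m` is covered by a return after `2 k` at `τ` -/
def CovR (y : ℕ → V) (k m τ : ℕ) : Prop :=
  y (m + 2 * k) = y m ∧ Miss y k m τ ∧ τ + 1 ≤ m + 2 * k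

/-- `m` is covered by a return after `3 k`, not after `2 k`, at `τ` -/
def CovA (y : ℕ → V) (k m τ : ℕ) : Prop :=
  (y (m + 3 * k) = y m ∧ y (m + 2 * k) ≠ y m) ∧ Miss y k m τ ∧ τ + 1 ≤ m + 3 * k

lemma miss_unique {k N : ℕ} (hV : Fintype.card V = k + 2) (y : ℕ → V)
    (hy : ∀ a b, a < b → b ≤ a + k → b < N → y a ≠ y b) {m m' τ : ℕ} (hτ : τ < N)
    (hm : Miss y k m τ) (hm' : Miss y k m' τ) : y m = y m' := by
  classical
  by_contra hne
  have hk1 : k ≤ τ := by have := hm.1; omega
  have hinj : Set.InjOn y (Icc (τ - k) τ : Finset ℕ) := by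
    intro a ha b hb he
    rw [Finset.mem_coe, Finset.mem_Icc] at ha hb
    rcases lt_trichotomy a b with h | h | h
    · exact absurd he (hy a b h (by omega) (by omega))
    · exact h
    · exact absurd he.symm (hy b a h (by omega) (by omega))
  have h1 : ((Icc (τ - k) τ).image y).card = k + 1 := by
    rw [Finset.card_image_of_injOn hinj, Nat.card_Icc]
    omega
  have h2 : y m' ∉ (Icc (τ - k) τ).image y := by
    intro h
    obtain ⟨j, hj, he⟩ := Finset.mem_image.1 h
    rw [Finset.mem_Icc] at hj
    exact hm'.2 j (by omega) hj.2 he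
  have h3 : y m ∉ insert (y m') ((Icc (τ - k) τ).image y) := by
    intro h
    rcases Finset.mem_insert.1 h with h | h
    · exact hne h
    · obtain ⟨j, hj, he⟩ := Finset.mem_image.1 h
      rw [Finset.mem_Icc] at hj
      exact hm.2 j (by omega) hj.2 he
  have h4 := Finset.card_le_univ (insert (y m) (insert (y m') ((Icc (τ - k) τ).image y)))
  rw [Finset.card_insert_of_notMem h3, Finset.card_insert_of_notMem h2, h1, hV] at h4
  omega

open Classical in
lemma cov_le {k M : ℕ} (hk : 2 ≤ k) (hV : Fintype.card V = k + 2) (y : ℕ → V)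
    (hy : ∀ a b, a < b → b ≤ a + k → b < M + 3 * k → y a ≠ y b) (τ : ℕ)
    (hτ : τ < M + 3 * k) :
    2 * ((range M).filter (fun m => CovR y k m τ)).card +
      ((range M).filter (fun m => CovA y k m τ)).card ≤ 2 := by
  have hfar : ∀ a b, a < b → b < M + 3 * k → y a = y b → a + k + 1 ≤ b := by
    intro a b hab hb he
    by_contra hc
    exact hy a b hab (by omega) hb he
  have hR : ∀ m, m < M → CovR y k m τ → ∀ j, m < j → j < m + 2 * k → y j ≠ y m := by
    intro m hm h j h1 h2 he
    have g1 := hfar m j h1 (by omega) he.symm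
    have g2 := hfar j (m + 2 * k) h2 (by omega) (he.trans h.1.symm)
    omega
  have hA : ∀ m, m < M → CovA y k m τ → (∀ p, m < p → p < τ → y p ≠ y m) ∨
      ∀ p, τ < p → p < m + 3 * k → y p ≠ y m := by
    intro m hm h
    by_contra hc
    push Not at hc
    obtain ⟨⟨p, p1, p2, p3⟩, q, q1, q2, q3⟩ := hc
    have g1 := hfar m p p1 (by omega) p3.symm
    have g2 := hfar p q (by omega) (by omega) (p3.trans q3.symm)
    have g3 := hfar q (m + 3 * k) q2 (by omega) (q3.trans h.1.1.symm)
    omega
  have hu : ∀ m m', Miss y k m τ → Miss y k m' τ → y m = y m' := fun m m' h h' =>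
    miss_unique hV y hy hτ h h'
  have cR : ((range M).filter (fun m => CovR y k m τ)).card ≤ 1 := by
    rw [Finset.card_le_one]
    intro a ha b hb
    rw [Finset.mem_filter, Finset.mem_range] at ha hb
    rcases lt_trichotomy a b with h | h | h
    · refine absurd (hu b a hb.2.2.1 ha.2.2.1) (hR a ha.1 ha.2 b h ?_)
      have g1 := hb.2.2.1.1
      have g2 := ha.2.2.2
      omega
    · exact h
    · refine absurd (hu a b ha.2.2.1 hb.2.2.1) (hR b hb.1 hb.2 a h ?_)
      have g1 := ha.2.2.1.1
      have g2 := hb.2.2.2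
      omega
  by_cases hne : ∃ m0, m0 < M ∧ CovR y k m0 τ
  · obtain ⟨m0, hm0, h0⟩ := hne
    have hemp : (range M).filter (fun m => CovA y k m τ) = ∅ := by
      rw [Finset.filter_eq_empty_iff]
      intro m hm h
      rw [Finset.mem_range] at hm
      have e1 := hu m m0 h.2.1 h0.2.1
      have g0 := h0.2.1.1
      have g1 := h0.2.2
      have g2 := h.2.1.1
      have g3 := h.2.2
      rcases lt_trichotomy m m0 with hlt | heq | hgt
      · rcases hA m hm h with h1 | h1
        · exact h1 m0 hlt (by omega) e1.symm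
        · have e2 : y (m0 + 2 * k) = y m := h0.1.trans e1.symm
          have g4 : m + 3 * k ≤ m0 + 2 * k := by
            by_contra hc
            exact h1 (m0 + 2 * k) (by omega) (by omega) e2
          have g5 : m0 + 2 * k ≤ m + 3 * k := by
            by_contra hc
            exact hR m0 hm0 h0 (m + 3 * k) (by omega) (by omega) (h.1.1.trans e1)
          have g6 := hfar m m0 hlt (by omega) e1
          omega
      · subst heq
        exact h.1.2 h0.1
      · exact hR m0 hm0 h0 m hgt (by omega) e1
    rw [hemp, Finset.card_empty]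
    omega
  · have hemp : (range M).filter (fun m => CovR y k m τ) = ∅ := by
      rw [Finset.filter_eq_empty_iff]
      intro m hm h
      exact hne ⟨m, Finset.mem_range.1 hm, h⟩
    rw [hemp, Finset.card_empty]
    have hsub : (range M).filter (fun m => CovA y k m τ) ⊆
        (range M).filter (fun m => CovA y k m τ ∧ ∀ p, m < p → p < τ → y p ≠ y m) ∪
        (range M).filter (fun m => CovA y k m τ ∧ ∀ p, τ < p → p < m + 3 * k → y p ≠ y m) := by
      intro m hm
      rw [Finset.mem_filter] at hm
      rw [Finset.mem_union, Finset.mem_filter, Finset.mem_filter]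
      rcases hA m (Finset.mem_range.1 hm.1) hm.2 with h1 | h1
      · exact Or.inl ⟨hm.1, hm.2, h1⟩
      · exact Or.inr ⟨hm.1, hm.2, h1⟩
    have c1 : ((range M).filter
        (fun m => CovA y k m τ ∧ ∀ p, m < p → p < τ → y p ≠ y m)).card ≤ 1 := by
      rw [Finset.card_le_one]
      intro a ha b hb
      rw [Finset.mem_filter, Finset.mem_range] at ha hb
      have e1 := hu a b ha.2.1.2.1 hb.2.1.2.1
      have g1 := ha.2.1.2.1.1
      have g2 := hb.2.1.2.1.1
      rcases lt_trichotomy a b with h | h | h
      · exact absurd e1.symm (ha.2.2 b h (by omega))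
      · exact h
      · exact absurd e1 (hb.2.2 a h (by omega))
    have c2 : ((range M).filter
        (fun m => CovA y k m τ ∧ ∀ p, τ < p → p < m + 3 * k → y p ≠ y m)).card ≤ 1 := by
      rw [Finset.card_le_one]
      intro a ha b hb
      rw [Finset.mem_filter, Finset.mem_range] at ha hb
      have e1 := hu a b ha.2.1.2.1 hb.2.1.2.1
      have g1 := ha.2.1.2.2
      have g2 := hb.2.1.2.2
      rcases lt_trichotomy a b with h | h | h
      · exact absurd (ha.2.1.1.1.trans e1) (hb.2.2 (a + 3 * k) (by omega) (by omega))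
      · exact h
      · exact absurd (hb.2.1.1.1.trans e1.symm) (ha.2.2 (b + 3 * k) (by omega) (by omega))
    have h3 := (Finset.card_le_card hsub).trans (Finset.card_union_le _ _)
    omega

end

end Pool.Agent.H.MP_2d605f_pr
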