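import Pool.Agent.H.MP_2d605f_pr.Defs

/-! No avoidance coupling of at least `n - 1` walkers. -/

open Finset

namespace Pool.Agent.H.MP_2d605f_pr

section
variable {V : Type} [Fintype V] {k : ℕ}

lemma path_nonneg (S : MarkovSystem V k) (T : ℕ) (ω : Fin (T + 1) → Fin k → V) :
    0 ≤ S.pathProb T ω := by
  unfold MarkovSystem.pathProb MarkovSystem.roundProb
  exact mul_nonneg (S.init_nonneg _) (Finset.prod_nonneg fun t _ =>
    Finset.prod_nonneg fun i _ => S.step_nonneg _ _ _)

variable [DecidableEq V] {loops : Bool} {S : MarkovSystem V k}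

/-- law of the initial position of walker `i` -/
def ini (S : MarkovSystem V k) (i : Fin k) (v : V) : ℝ := ∑ c, if c i = v then S.init c else 0

lemma ini_sum (S : MarkovSystem V k) (i : Fin k) : ∑ v, ini S i v = 1 := by
  unfold ini
  rw [Finset.sum_comm, ← S.init_sum]
  refine Finset.sum_congr rfl fun c _ => ?_
  simp

/-- probability of an event which depends on the trajectory of one walker -/
lemma prob_event (H : IsAvoidanceCoupling loops S) (i : Fin k) (T : ℕ)
    (E : (Fin (T + 1) → V) → Prop) [DecidablePred E] :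
    (∑ ω : Fin (T + 1) → Fin k → V, if E (fun t => ω t i) then S.pathProb T ω else 0) =
      ∑ x : Fin (T + 1) → V, if E x then ini S i (x 0) *
        ∏ t : Fin T, srw loops (x t.castSucc) (x t.succ) else 0 := by
  have e1 : ∀ x : Fin (T + 1) → V, (if E x then ini S i (x 0) *
        ∏ t : Fin T, srw loops (x t.castSucc) (x t.succ) else 0) =
      ∑ ω : Fin (T + 1) → Fin k → V, if x = (fun t => ω t i) then
        (if E x then S.pathProb T ω else 0) else 0 := by
    intro x
    by_cases hE : E x
    · rw [if_pos hE]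
      unfold ini
      rw [← H.marginal i T x]
      refine Finset.sum_congr rfl fun ω _ => ?_
      rw [if_pos hE]
      refine if_congr ?_ rfl rfl
      rw [funext_iff]
      exact forall_congr' fun t => eq_comm
    · rw [if_neg hE]
      symm
      refine Finset.sum_eq_zero fun ω _ => ?_
      rw [if_neg hE]
      simp
  rw [Finset.sum_congr rfl fun x _ => e1 x, Finset.sum_comm]
  refine Finset.sum_congr rfl fun ω _ => ?_
  rw [Finset.sum_ite_eq']
  simp

/-- positions of different walkers in the middle of a round -/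
lemma cross (H : IsAvoidanceCoupling loops S) {T : ℕ} {ω : Fin (T + 1) → Fin k → V}
    (h : S.pathProb T ω ≠ 0) (t : Fin T) {a c : Fin k} (hac : a < c) :
    ω t.succ a ≠ ω t.castSucc c := by
  intro heq
  have h1 := (H.avoid T ω h).2 t c
  have h2 : mid (ω t.castSucc) (ω t.succ) c a = mid (ω t.castSucc) (ω t.succ) c c := by
    unfold mid
    rw [if_pos hac, if_neg (lt_irrefl _), heq]
  exact (ne_of_lt hac) (h1 h2)

/-- sums over trajectories of length two -/
lemma sum_fin3 (F : (Fin 3 → V) → ℝ) : ∑ x, F x = ∑ a, ∑ b, ∑ c, F ![a, b, c] := by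
  let e : (Fin 3 → V) ≃ V × V × V :=
    { toFun := fun x => (x 0, x 1, x 2)
      invFun := fun y => ![y.1, y.2.1, y.2.2]
      left_inv := by
        intro x
        funext t
        fin_cases t <;> rfl
      right_inv := by
        rintro ⟨a, b, c⟩
        rfl }
  rw [← e.symm.sum_comp, Fintype.sum_prod_type]
  refine Finset.sum_congr rfl fun a _ => ?_
  rw [Fintype.sum_prod_type]
  rfl

lemma srw_return (loops : Bool) (hn : 2 ≤ Fintype.card V) (a : V) :
    ∑ b, (if b = a then 0 else srw loops a b * srw loops b a) =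
      if loops = true then ((Fintype.card V : ℝ) - 1) / (Fintype.card V : ℝ) ^ 2
      else 1 / ((Fintype.card V : ℝ) - 1) := by
  have hc : (2 : ℝ) ≤ Fintype.card V := by exact_mod_cast hn
  have e : ∀ b, (if b = a then 0 else srw loops a b * srw loops b a) =
      (if b = a then 0 else (if loops = true then 1 / (Fintype.card V : ℝ) ^ 2
        else 1 / ((Fintype.card V : ℝ) - 1) ^ 2)) := by
    intro b
    by_cases h : b = a
    · rw [if_pos h, if_pos h]
    · rw [if_neg h, if_neg h]
      unfold srw
      cases loops with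
      | true => simp; ring
      | false =>
        simp only [Bool.false_eq_true, if_false, if_neg h, if_neg (fun h' : a = b => h h'.symm)]
        rw [div_mul_div_comm, one_mul, sq]
  simp only [e]
  rw [Finset.sum_ite, Finset.sum_const_zero, zero_add, Finset.sum_const]
  have hcard : ((univ.filter (fun b : V => ¬ b = a)).card : ℝ) = (Fintype.card V : ℝ) - 1 := by
    rw [Finset.filter_ne', Finset.card_erase_of_mem (mem_univ a), card_univ,
      Nat.cast_sub (by omega)]
    simp
  rw [nsmul_eq_mul, hcard]
  have h1 : (Fintype.card V : ℝ) - 1 ≠ 0 := by linarith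
  cases loops with
  | true => simp; ring
  | false =>
    simp only [Bool.false_eq_true, if_false]
    field_simp

/-- probability of an immediate return after leaving -/
lemma prob_return (H : IsAvoidanceCoupling loops S) (hn : 2 ≤ Fintype.card V) (i : Fin k) :
    (∑ ω : Fin 3 → Fin k → V, if ω 2 i = ω 0 i ∧ ω 1 i ≠ ω 0 i then S.pathProb 2 ω else 0) =
      if loops = true then ((Fintype.card V : ℝ) - 1) / (Fintype.card V : ℝ) ^ 2
      else 1 / ((Fintype.card V : ℝ) - 1) := by
  have h1 := prob_event H i 2 (fun x => x 2 = x 0 ∧ x 1 ≠ x 0)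
  have h2 : (∑ ω : Fin 3 → Fin k → V, if ω 2 i = ω 0 i ∧ ω 1 i ≠ ω 0 i then S.pathProb 2 ω else 0) =
      ∑ x : Fin 3 → V, if x 2 = x 0 ∧ x 1 ≠ x 0 then ini S i (x 0) *
        ∏ t : Fin 2, srw loops (x t.castSucc) (x t.succ) else 0 := h1
  rw [h2, sum_fin3]
  have e : ∀ a : V, (∑ b : V, ∑ c : V, if (![a, b, c] : Fin 3 → V) 2 = (![a, b, c] : Fin 3 → V) 0 ∧
      (![a, b, c] : Fin 3 → V) 1 ≠ (![a, b, c] : Fin 3 → V) 0 then
      ini S i ((![a, b, c] : Fin 3 → V) 0) * ∏ t : Fin 2, srw loops
        ((![a, b, c] : Fin 3 → V) t.castSucc) ((![a, b, c] : Fin 3 → V) t.succ) else 0) =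
      ini S i a * (if loops = true then ((Fintype.card V : ℝ) - 1) / (Fintype.card V : ℝ) ^ 2
      else 1 / ((Fintype.card V : ℝ) - 1)) := by
    intro a
    rw [← srw_return loops hn a, Finset.mul_sum]
    refine Finset.sum_congr rfl fun b _ => ?_
    rw [Finset.sum_eq_single a]
    · rw [Fin.prod_univ_two]
      by_cases hb : b = a
      · simp [hb]
      · simp [hb]
    · intro c _ hc
      rw [if_neg]
      intro h
      exact hc h.1
    · intro h; exact absurd (mem_univ _) h
  rw [Finset.sum_congr rfl fun a _ => e a, ← Finset.sum_mul, ini_sum, one_mul]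

/-- probability of staying in the first round -/
lemma prob_stay (H : IsAvoidanceCoupling loops S) (hn : 2 ≤ Fintype.card V) (i : Fin k) :
    (∑ ω : Fin 3 → Fin k → V, if ω 1 i = ω 0 i then S.pathProb 2 ω else 0) =
      if loops = true then 1 / (Fintype.card V : ℝ) else 0 := by
  have hc : (2 : ℝ) ≤ Fintype.card V := by exact_mod_cast hn
  have hsum : ∀ a : V, ∑ c, srw loops a c = 1 := by
    intro a
    unfold srw
    cases loops with
    | true =>
      simp only [if_true, Finset.sum_const, card_univ, nsmul_eq_mul]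
      field_simp
    | false =>
      simp only [Bool.false_eq_true, if_false]
      have e : ∀ c, (if a = c then (0 : ℝ) else 1 / ((Fintype.card V : ℝ) - 1)) =
          1 / ((Fintype.card V : ℝ) - 1) - (if a = c then 1 / ((Fintype.card V : ℝ) - 1) else 0) := by
        intro c
        split_ifs <;> ring
      simp only [e]
      rw [Finset.sum_sub_distrib, Finset.sum_ite_eq]
      simp only [Finset.sum_const, card_univ, nsmul_eq_mul, mem_univ, if_true]
      have h1 : (Fintype.card V : ℝ) - 1 ≠ 0 := by linarith
      field_simp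
  have hdiag : ∀ a : V, srw loops a a = if loops = true then 1 / (Fintype.card V : ℝ) else 0 := by
    intro a
    unfold srw
    rw [if_pos (rfl : a = a)]
  have h2 : (∑ ω : Fin 3 → Fin k → V, if ω 1 i = ω 0 i then S.pathProb 2 ω else 0) =
      ∑ x : Fin 3 → V, if x 1 = x 0 then ini S i (x 0) *
        ∏ t : Fin 2, srw loops (x t.castSucc) (x t.succ) else 0 :=
    prob_event H i 2 (fun x => x 1 = x 0)
  rw [h2, sum_fin3]
  have e : ∀ a : V, (∑ b : V, ∑ c : V, if (![a, b, c] : Fin 3 → V) 1 = (![a, b, c] : Fin 3 → V) 0 then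
      ini S i ((![a, b, c] : Fin 3 → V) 0) * ∏ t : Fin 2, srw loops
        ((![a, b, c] : Fin 3 → V) t.castSucc) ((![a, b, c] : Fin 3 → V) t.succ) else 0) =
      ini S i a * (if loops = true then 1 / (Fintype.card V : ℝ) else 0) := by
    intro a
    rw [← hdiag a, Finset.sum_eq_single a]
    · rw [← mul_one (ini S i a * srw loops a a), ← hsum a, Finset.mul_sum]
      refine Finset.sum_congr rfl fun c _ => ?_
      rw [Fin.prod_univ_two]
      simp
      ring
    · intro b _ hb
      refine Finset.sum_eq_zero fun c _ => ?_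
      rw [if_neg]
      intro h
      exact hb h
    · intro h; exact absurd (mem_univ _) h
  rw [Finset.sum_congr rfl fun a _ => e a, ← Finset.sum_mul, ini_sum, one_mul]

/-- If there is only one free vertex, an immediate return of walker `i` forces the walkers after
`i` to stay. -/
lemma forced (H : IsAvoidanceCoupling loops S) (hn : Fintype.card V = k + 1)
    {ω : Fin 3 → Fin k → V} (h : S.pathProb 2 ω ≠ 0) {i : Fin k}
    (hR : ω 2 i = ω 0 i ∧ ω 1 i ≠ ω 0 i) : ∀ j : Fin k, i < j → ω 1 j = ω 0 j := by
  have inj0 : Function.Injective (ω 0) := (H.avoid 2 ω h).1 0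
  have inj1 : Function.Injective (ω 1) := (H.avoid 2 ω h).1 1
  have cr0 : ∀ a c : Fin k, a < c → ω 1 a ≠ ω 0 c := fun a c hac => cross H h (0 : Fin 2) hac
  have cr1 : ∀ a c : Fin k, a < c → ω 2 a ≠ ω 1 c := fun a c hac => cross H h (1 : Fin 2) hac
  have key : ∀ m : ℕ, ∀ j : Fin k, (j : ℕ) = m → i < j → ω 1 j = ω 0 j := by
    intro m
    induction m using Nat.strong_induction_on with
    | _ m ih =>
      intro j hjm hij
      have hprev : ∀ l : Fin k, i < l → l < j → ω 1 l = ω 0 l := by
        intro l h1 h2
        exact ih l (by rw [← hjm]; exact h2) l rfl h1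
      by_contra hne
      -- the new position of `j` is the vertex left by `i`
      have hv : ω 1 j ≠ ω 0 i := by
        intro hv
        exact cr1 i j hij (by rw [hR.1, hv])
      let c : Fin k → V := mid (ω 0) (ω 1) j
      have hcinj : Function.Injective c := (H.avoid 2 ω h).2 (0 : Fin 2) j
      have hcv : ∀ l, c l ≠ ω 0 i := by
        intro l
        show (if l < j then ω 1 l else ω 0 l) ≠ ω 0 i
        by_cases hlj : l < j
        · rw [if_pos hlj]
          rcases lt_trichotomy l i with h1 | h1 | h1
          · exact cr0 l i h1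
          · rw [h1]; exact hR.2
          · rw [hprev l h1 hlj]
            intro h2
            exact (ne_of_gt h1) (inj0 h2)
        · rw [if_neg hlj]
          intro h2
          have : l = i := inj0 h2
          exact hlj (this ▸ hij)
      have himg : univ.image c = univ.erase (ω 0 i) := by
        refine Finset.eq_of_subset_of_card_le ?_ ?_
        · intro v hv'
          rw [mem_image] at hv'
          obtain ⟨l, _, rfl⟩ := hv'
          exact mem_erase.2 ⟨hcv l, mem_univ _⟩
        · rw [Finset.card_erase_of_mem (mem_univ _), card_univ,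
            Finset.card_image_of_injective _ hcinj, card_univ, Fintype.card_fin, hn]
          omega
      have hmem : ω 1 j ∈ univ.image c := by
        rw [himg]
        exact mem_erase.2 ⟨hv, mem_univ _⟩
      rw [mem_image] at hmem
      obtain ⟨l, _, hl⟩ := hmem
      have hl' : (if l < j then ω 1 l else ω 0 l) = ω 1 j := hl
      rcases lt_trichotomy l j with h1 | h1 | h1
      · rw [if_pos h1] at hl'
        exact (ne_of_lt h1) (inj1 hl')
      · rw [h1, if_neg (lt_irrefl _)] at hl'
        exact hne hl'.symm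
      · rw [if_neg (not_lt.2 h1.le)] at hl'
        exact cr0 j l h1 hl'.symm
  exact fun j hij => key j j rfl hij

/-- No avoidance coupling with one free vertex. -/
theorem no_coupling_pred (H : IsAvoidanceCoupling loops S) (hn : Fintype.card V = k + 1)
    (hk : 2 ≤ k) (h4 : loops = true → 3 ≤ k) : False := by
  have hn2 : 2 ≤ Fintype.card V := by omega
  have hlast : k - 1 < k := by omega
  set L : Fin k := ⟨k - 1, hlast⟩ with hL
  have h1 : ∑ i ∈ univ.filter (fun i : Fin k => i < L),
      (∑ ω : Fin 3 → Fin k → V, if ω 2 i = ω 0 i ∧ ω 1 i ≠ ω 0 i then S.pathProb 2 ω else 0) ≤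
      ∑ ω : Fin 3 → Fin k → V, if ω 1 L = ω 0 L then S.pathProb 2 ω else 0 := by
    rw [Finset.sum_comm]
    refine Finset.sum_le_sum fun ω _ => ?_
    by_cases h0 : S.pathProb 2 ω = 0
    · simp [h0]
    by_cases hex : ∃ i : Fin k, i < L ∧ (ω 2 i = ω 0 i ∧ ω 1 i ≠ ω 0 i)
    · obtain ⟨i, hiL, hR⟩ := hex
      have hf := forced H hn h0 hR
      rw [if_pos (hf L hiL)]
      rw [Finset.sum_eq_single i]
      · rw [if_pos hR]
      · intro j hj hji
        rw [if_neg]
        rintro hR'
        rcases lt_or_gt_of_ne hji with h2 | h2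
        · exact hR.2 (forced H hn h0 hR' i h2)
        · exact hR'.2 (hf j h2)
      · intro hi
        exact (hi (Finset.mem_filter.2 ⟨mem_univ i, hiL⟩)).elim
    · push Not at hex
      rw [Finset.sum_eq_zero]
      · split_ifs
        · exact path_nonneg S 2 ω
        · exact le_rfl
      · intro i hi
        rw [if_neg]
        intro hR
        exact hR.2 (hex i (mem_filter.1 hi).2 hR.1)
  rw [Finset.sum_congr rfl fun i _ => prob_return H hn2 i, prob_stay H hn2 L, Finset.sum_const,
    nsmul_eq_mul] at h1
  have hcard : (univ.filter (fun i : Fin k => i < L)).card = k - 1 := by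
    rw [Finset.filter_gt_eq_Iio, Fin.card_Iio]
  have hcard' : ((univ.filter (fun i : Fin k => i < L)).card : ℝ) = (k : ℝ) - 1 := by
    rw [hcard, Nat.cast_sub (by omega)]
    simp
  rw [hcard', hn] at h1
  push_cast at h1
  have hk2 : (2 : ℝ) ≤ k := by exact_mod_cast hk
  cases loops with
  | true =>
    have hk3 : (3 : ℝ) ≤ k := by exact_mod_cast h4 rfl
    simp only [if_true] at h1
    have h5 : (0 : ℝ) < (k : ℝ) + 1 := by linarith
    rw [add_sub_cancel_right, ← mul_div_assoc, div_le_div_iff₀ (by positivity) h5] at h1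
    nlinarith
  | false =>
    simp only [Bool.false_eq_true, if_false] at h1
    have : 0 < ((k : ℝ) - 1) * (1 / ((k : ℝ) + 1 - 1)) := by
      apply mul_pos
      · linarith
      · rw [add_sub_cancel_right]
        positivity
    linarith

/-- No avoidance coupling without free vertices. -/
theorem no_coupling_full (H : IsAvoidanceCoupling loops S) (hn : Fintype.card V ≤ k)
    (hn2 : 2 ≤ Fintype.card V) : False := by
  have hk : 0 < k := by omega
  have hc : (2 : ℝ) ≤ Fintype.card V := by exact_mod_cast hn2
  have h1 := prob_return H hn2 ⟨0, hk⟩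
  have h2 : (∑ ω : Fin 3 → Fin k → V, if ω 2 ⟨0, hk⟩ = ω 0 ⟨0, hk⟩ ∧ ω 1 ⟨0, hk⟩ ≠ ω 0 ⟨0, hk⟩
      then S.pathProb 2 ω else 0) = 0 := by
    refine Finset.sum_eq_zero fun ω _ => ?_
    by_cases h0 : S.pathProb 2 ω = 0
    · rw [h0]; simp
    · rw [if_neg]
      rintro ⟨_, hne⟩
      have inj0 : Function.Injective (ω 0) := (H.avoid 2 ω h0).1 0
      have hcard : Fintype.card (Fin k) = Fintype.card V := by
        refine le_antisymm (Fintype.card_le_of_injective _ inj0) ?_
        rw [Fintype.card_fin]; exact hn
      have hsurj : Function.Surjective (ω 0) :=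
        ((Fintype.bijective_iff_injective_and_card (ω 0)).2 ⟨inj0, hcard⟩).2
      obtain ⟨c, hc'⟩ := hsurj (ω 1 ⟨0, hk⟩)
      by_cases hc0 : c = ⟨0, hk⟩
      · exact hne (by rw [← hc', hc0])
      · have hlt : (⟨0, hk⟩ : Fin k) < c := by
          rcases Nat.eq_zero_or_pos (c : ℕ) with h3 | h3
          · exact absurd (Fin.ext h3) hc0
          · exact h3
        exact cross H h0 (0 : Fin 2) hlt hc'.symm
  rw [h2] at h1
  have h3 : (0 : ℝ) < (if loops = true then ((Fintype.card V : ℝ) - 1) / (Fintype.card V : ℝ) ^ 2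
      else 1 / ((Fintype.card V : ℝ) - 1)) := by
    split_ifs
    · apply div_pos
      · linarith
      · positivity
    · apply div_pos one_pos
      linarith
  rw [← h1] at h3
  exact lt_irrefl _ h3

end

end Pool.Agent.H.MP_2d605f_pr
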